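import Mathlib

/-! Natural Hamiltonian systems on a surface: the definitions used in the statement. -/

open scoped Manifold ContDiff

namespace Pool.Agent.P.MP_75a63e_an

/-- the plane, where local coordinates `y` and the dual fibre coordinates `p` take values -/
abbrev E2 := EuclideanSpace ℝ (Fin 2)

/-- the 2-sphere, with the smooth structure of Mathlib -/
abbrev S2 := Metric.sphere (0 : EuclideanSpace ℝ (Fin 3)) 1

/-- the dual quadratic form `B⁻¹(ξ, ξ)`; here `B.inverse ξ` is the vector `v` with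
`B(v, ·) = ξ` -/
noncomputable def cometric {T : Type} [TopologicalSpace T] [AddCommGroup T] [Module ℝ T]
    (B : T →L[ℝ] T →L[ℝ] ℝ) (ξ : T →L[ℝ] ℝ) : ℝ := ξ (B.inverse ξ)

/-- the differentials of three functions are linearly independent at `w` -/
def IndepAt {W : Type} [NormedAddCommGroup W] [NormedSpace ℝ W] (f : Fin 3 → W → ℝ) (w : W) :
    Prop := LinearIndependent ℝ fun k => fderiv ℝ (f k) w

section

variable (E : Type) [NormedAddCommGroup E] [NormedSpace ℝ E] (M : Type) [TopologicalSpace M]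
  [ChartedSpace E M]

/-- smooth Riemannian metrics on `M` -/
abbrev RMetric [IsManifold 𝓘(ℝ, E) ω M] :=
  Bundle.ContMDiffRiemannianMetric 𝓘(ℝ, E) ∞ E fun x : M => TangentSpace 𝓘(ℝ, E) x

/-- functions on the cotangent bundle: functions of a point `x` and a covector at `x` -/
abbrev CotFun := (x : M) → (TangentSpace 𝓘(ℝ, E) x →L[ℝ] ℝ) → ℝ

variable {E M}

/-- `H(x, ξ) = g⁻¹(ξ, ξ) / 2 + U(x)` -/
noncomputable def hamiltonian [IsManifold 𝓘(ℝ, E) ω M] (g : RMetric E M) (U : M → ℝ) :
    CotFun E M := fun x ξ => 1 / 2 * cometric (g.inner x) ξ + U x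

end

/-- partial derivative in `y i` -/
noncomputable def dy (f : E2 × E2 → ℝ) (w : E2 × E2) (i : Fin 2) : ℝ :=
  lineDeriv ℝ f w (EuclideanSpace.single i 1, 0)

/-- partial derivative in `p i` -/
noncomputable def dp (f : E2 × E2 → ℝ) (w : E2 × E2) (i : Fin 2) : ℝ :=
  lineDeriv ℝ f w (0, EuclideanSpace.single i 1)

/-- the canonical Poisson bracket in the coordinates `(y, p)` -/
noncomputable def bracket (f h : E2 × E2 → ℝ) (w : E2 × E2) : ℝ :=
  ∑ i, (dy f w i * dp h w i - dp f w i * dy h w i)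

/-- all smooth local charts -/
abbrev Charts (M : Type) [TopologicalSpace M] [ChartedSpace E2 M] :
    Set (OpenPartialHomeomorph M E2) := IsManifold.maximalAtlas (𝓡 2) ∞ M

variable {M : Type} [TopologicalSpace M] [ChartedSpace E2 M]

/-- the expression of `F` in the canonical coordinates `(y, p)` of the chart `c`: its value at the
covector `p₀ dy⁰ + p₁ dy¹ = d(p₀ y⁰ + p₁ y¹)` at the point with coordinates `y` -/
noncomputable def inChart (c : OpenPartialHomeomorph M E2) (F : CotFun E2 M) (w : E2 × E2) : ℝ :=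
  F (c.symm w.1) (mvfderiv (𝓡 2) (fun x => ∑ i, w.2 i * c x i) (c.symm w.1))

/-- in every chart, `F` is a polynomial of degree at most `d` in `p₀, p₁` whose coefficients are
smooth functions of `y` -/
def IsPolynomial (d : ℕ) (F : CotFun E2 M) : Prop :=
  ∀ c ∈ Charts M, ∃ a : ℕ → ℕ → E2 → ℝ, (∀ i j, ContDiffOn ℝ ∞ (a i j) c.target) ∧
    ∀ y ∈ c.target, ∀ p : E2, inChart c F (y, p) =
      ∑ i ∈ Finset.range (d + 1), ∑ j ∈ Finset.range (d + 1 - i), a i j y * p 0 ^ i * p 1 ^ j

/-- `{H, F} = 0` everywhere -/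
def IsIntegral (H F : CotFun E2 M) : Prop :=
  ∀ c ∈ Charts M, ∀ y ∈ c.target, ∀ p : E2, bracket (inChart c H) (inChart c F) (y, p) = 0

/-- three polynomial integrals whose differentials are linearly independent at one point at
least -/
def Superintegrable (H : CotFun E2 M) : Prop :=
  ∃ F : Fin 3 → CotFun E2 M, (∀ k, (∃ d, IsPolynomial d (F k)) ∧ IsIntegral H (F k)) ∧
    ∃ c ∈ Charts M, ∃ y ∈ c.target, ∃ p : E2, IndepAt (fun k => inChart c (F k)) (y, p)

end Pool.Agent.P.MP_75a63e_an
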