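import Pool.Agent.P.MP_75a63e_an.Core
import Pool.Agent.P.MP_75a63e_an.Defs

/-! Canonical coordinates of a chart, seen from the cone over the sphere. -/

open Set Filter Topology Metric
open scoped NNReal RealInnerProductSpace ContDiff

namespace Pool.Agent.P.MP_75a63e_an

/-- standard basis vectors of the plane -/
noncomputable abbrev e2 (i : Fin 2) : E2 := EuclideanSpace.single i 1

lemma sum_e2 (v : E2) : ∑ i, v i • e2 i = v := by
  ext j
  fin_cases j <;> simp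

lemma pair_J {a b : Ph →L[ℝ] ℝ} {u u' : V} (ha : ∀ w, a (0, w) = ⟪u, w⟫)
    (hb : ∀ w, b (0, w) = ⟪u', w⟫) : a (J b) = a (u', 0) - b (u, 0) := by
  have e1 : a (u', 0) = ∑ i, u' i * a (e i, 0) := by
    conv_lhs => rw [← sum_e u']
    rw [show ((∑ i, u' i • e i, 0) : Ph) = ∑ i, u' i • ((e i, 0) : Ph) by
      ext1 <;> simp [Prod.fst_sum, Prod.snd_sum]]
    simp only [map_sum, map_smul, smul_eq_mul]
  have e2 : b (u, 0) = ∑ i, u i * b (e i, 0) := by
    conv_lhs => rw [← sum_e u]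
    rw [show ((∑ i, u i • e i, 0) : Ph) = ∑ i, u i • ((e i, 0) : Ph) by
      ext1 <;> simp [Prod.fst_sum, Prod.snd_sum]]
    simp only [map_sum, map_smul, smul_eq_mul]
  rw [J_apply, e1, e2, ← Finset.sum_sub_distrib]
  simp only [map_sum, map_sub, map_smul, smul_eq_mul, ha, hb, real_inner_comm (e _), inner_e]
  exact Finset.sum_congr rfl fun i _ => by ring

lemma bracket_eq {f h : E2 × E2 → ℝ} {w : E2 × E2} (hf : DifferentiableAt ℝ f w)
    (hh : DifferentiableAt ℝ h w) : bracket f h w =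
      ∑ i, (fderiv ℝ f w (e2 i, 0) * fderiv ℝ h w (0, e2 i) -
        fderiv ℝ f w (0, e2 i) * fderiv ℝ h w (e2 i, 0)) := by
  simp only [bracket, dy, dp, hf.lineDeriv_eq_fderiv, hh.lineDeriv_eq_fderiv]

/-- a chart of the sphere, extended to the cone -/
structure Ch (O : Set V) (T : Set E2) (τ : V → E2) (σ : E2 → V) : Prop where
  oO : IsOpen O
  oT : IsOpen T
  ne : ∀ q ∈ O, q ≠ 0
  sτ : ContDiffOn ℝ ∞ τ O
  sσ : ContDiffOn ℝ ∞ σ T
  map : ∀ q ∈ O, τ q ∈ T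
  norm : ∀ y ∈ T, ‖σ y‖ = 1
  right : ∀ y ∈ T, ∀ r : ℝ, 0 < r → r • σ y ∈ O ∧ τ (r • σ y) = y
  left : ∀ q ∈ O, ‖q‖ • σ (τ q) = q

/-- the coordinate vector fields on the cone -/
noncomputable def vf (τ : V → E2) (σ : E2 → V) (i : Fin 2) (q : V) : V :=
  ‖q‖ • fderiv ℝ σ (τ q) (e2 i)

/-- canonical coordinates of a point of the cone phase space -/
noncomputable def Psi (τ : V → E2) (σ : E2 → V) (z : Ph) : E2 × E2 :=
  (τ z.1, ∑ i, ⟪vf τ σ i z.1, z.2⟫ • e2 i)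

namespace Ch

variable {O : Set V} {T : Set E2} {τ : V → E2} {σ : E2 → V}

lemma atτ (h : Ch O T τ σ) {q : V} (hq : q ∈ O) : ContDiffAt ℝ ∞ τ q :=
  h.sτ.contDiffAt (h.oO.mem_nhds hq)

lemma atσ (h : Ch O T τ σ) {y : E2} (hy : y ∈ T) : ContDiffAt ℝ ∞ σ y :=
  h.sσ.contDiffAt (h.oT.mem_nhds hy)

lemma atD (h : Ch O T τ σ) {y : E2} (hy : y ∈ T) : ContDiffAt ℝ ∞ (fderiv ℝ σ) y :=
  (h.atσ hy).fderiv_right (by simp)

lemma atvf (h : Ch O T τ σ) (i : Fin 2) {q : V} (hq : q ∈ O) : ContDiffAt ℝ ∞ (vf τ σ i) q :=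
  (contDiffAt_norm ℝ (h.ne q hq)).smul
    (((h.atD (h.map q hq)).comp q (h.atτ hq)).clm_apply contDiffAt_const)

lemma atPsi (h : Ch O T τ σ) {z : Ph} (hz : z.1 ∈ O) : ContDiffAt ℝ ∞ (Psi τ σ) z :=
  ((h.atτ hz).comp z contDiffAt_fst).prodMk (ContDiffAt.sum fun i _ =>
    ((((h.atvf i hz).comp z contDiffAt_fst).inner ℝ contDiffAt_snd).smul contDiffAt_const))

lemma dτ_vf (h : Ch O T τ σ) (i : Fin 2) {q : V} (hq : q ∈ O) :
    fderiv ℝ τ q (vf τ σ i q) = e2 i := by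
  have hy := h.map q hq
  have hn : 0 < ‖q‖ := norm_pos_iff.2 (h.ne q hq)
  have d1 : HasFDerivAt τ (fderiv ℝ τ q) (‖q‖ • σ (τ q)) := by
    rw [h.left q hq]; exact ((h.atτ hq).differentiableAt (by simp)).hasFDerivAt
  have d2 := d1.comp (τ q)
    (((h.atσ hy).differentiableAt (by simp)).hasFDerivAt.const_smul ‖q‖)
  have d3 := (d2.congr_of_eventuallyEq (f₁ := id) (by
    filter_upwards [h.oT.mem_nhds hy] with y hy using (h.right y hy _ hn).2.symm)).unique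
    (hasFDerivAt_id _)
  simpa [vf] using congrArg (fun A : E2 →L[ℝ] E2 => A (e2 i)) d3

lemma inner_vf (h : Ch O T τ σ) (i : Fin 2) {q : V} (hq : q ∈ O) : ⟪q, vf τ σ i q⟫ = 0 := by
  have hy := h.map q hq
  have d1 := ((h.atσ hy).differentiableAt (by simp)).hasFDerivAt.norm_sq
  have d2 := (d1.congr_of_eventuallyEq (f₁ := fun _ => (1 : ℝ)) (by
    filter_upwards [h.oT.mem_nhds hy] with y hy
    rw [h.norm y hy, one_pow])).unique (hasFDerivAt_const _ _)
  have d3 : ⟪σ (τ q), fderiv ℝ σ (τ q) (e2 i)⟫ = 0 := by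
    simpa using congrArg (fun A : E2 →L[ℝ] ℝ => A (e2 i)) d2
  conv_lhs => rw [vf, ← h.left q hq]
  rw [real_inner_smul_left, real_inner_smul_right, h.left q hq, d3]
  simp

lemma dvf_vf (h : Ch O T τ σ) (i j : Fin 2) {q : V} (hq : q ∈ O) :
    fderiv ℝ (vf τ σ i) q (vf τ σ j q) =
      ‖q‖ • fderiv ℝ (fderiv ℝ σ) (τ q) (e2 j) (e2 i) := by
  have hy := h.map q hq
  have hn : 0 < ‖q‖ := norm_pos_iff.2 (h.ne q hq)
  have d0 : HasFDerivAt (fun q : V => ‖q‖) (fderiv ℝ (fun q : V => ‖q‖) q) q :=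
    ((contDiffAt_norm ℝ (n := 1) (h.ne q hq)).differentiableAt (by simp)).hasFDerivAt
  have e0 : fderiv ℝ (fun q : V => ‖q‖) q (vf τ σ j q) = 0 := by
    have := (d0.pow 2).unique (hasFDerivAt_id q).norm_sq
    have := congrArg (fun A : V →L[ℝ] ℝ => A (vf τ σ j q)) this
    simpa [h.inner_vf j hq, hn.ne'] using this
  have d1 := (ContinuousLinearMap.apply ℝ V (e2 i)).hasFDerivAt.comp q
    (((h.atD hy).differentiableAt (by simp)).hasFDerivAt.comp q
      ((h.atτ hq).differentiableAt (by simp)).hasFDerivAt)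
  have d2 : fderiv ℝ (vf τ σ i) q = _ := (d0.fun_smul d1).fderiv
  rw [d2]
  simp [e0, h.dτ_vf j hq]

lemma dvf_symm (h : Ch O T τ σ) (i j : Fin 2) {q : V} (hq : q ∈ O) :
    fderiv ℝ (vf τ σ i) q (vf τ σ j q) = fderiv ℝ (vf τ σ j) q (vf τ σ i q) := by
  rw [h.dvf_vf i j hq, h.dvf_vf j i hq,
    ((h.atσ (h.map q hq)).isSymmSndFDerivAt (by
      simp only [minSmoothness_of_isRCLikeNormedField]; exact WithTop.coe_le_coe.2 le_top)).eq]

lemma dPsi (h : Ch O T τ σ) {z : Ph} (hz : z.1 ∈ O) (v : Ph) : fderiv ℝ (Psi τ σ) z v =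
    (fderiv ℝ τ z.1 v.1,
      ∑ i, (⟪vf τ σ i z.1, v.2⟫ + ⟪fderiv ℝ (vf τ σ i) z.1 v.1, z.2⟫) • e2 i) := by
  have d1 := ((h.atτ hz).differentiableAt (by simp)).hasFDerivAt.comp z hasFDerivAt_fst
  have d2 := fun i => ((((h.atvf i hz).differentiableAt (by simp)).hasFDerivAt.comp z
    hasFDerivAt_fst).inner ℝ hasFDerivAt_snd).smul_const (e2 i)
  have d3 : fderiv ℝ (Psi τ σ) z = _ :=
    (d1.prodMk (HasFDerivAt.fun_sum (u := Finset.univ) fun i _ => d2 i)).fderiv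
  rw [d3]
  simp [fderivInnerCLM_apply]

/-- the coordinate map is a Poisson map -/
lemma pb_comp (h : Ch O T τ σ) {z : Ph} (hz : z.1 ∈ O) {f g : E2 × E2 → ℝ}
    (hf : DifferentiableAt ℝ f (Psi τ σ z)) (hg : DifferentiableAt ℝ g (Psi τ σ z))
    {f' g' : Ph → ℝ} (hf' : f' =ᶠ[𝓝 z] f ∘ Psi τ σ) (hg' : g' =ᶠ[𝓝 z] g ∘ Psi τ σ) :
    pb f' g' z = bracket f g (Psi τ σ z) := by
  have hP := (h.atPsi hz).differentiableAt (by simp)
  have e0 : ∀ (α : E2 × E2 →L[ℝ] ℝ) (y : E2) (c : Fin 2 → ℝ), α (y, ∑ i, c i • e2 i) =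
      α (y, 0) + ∑ i, c i * α (0, e2 i) := fun α y c => by
    rw [show ((y, ∑ i, c i • e2 i) : E2 × E2) = (y, 0) + ∑ i, c i • (0, e2 i) by
      ext1 <;> simp]
    simp only [map_add, map_sum, map_smul, smul_eq_mul]
  have e1 : ∀ (α : E2 × E2 →L[ℝ] ℝ) (w : V), α.comp (fderiv ℝ (Psi τ σ) z) (0, w) =
      ⟪∑ i, α (0, e2 i) • vf τ σ i z.1, w⟫ := fun α w => by
    rw [ContinuousLinearMap.comp_apply, h.dPsi hz, e0]
    simp only [map_zero, inner_zero_left, add_zero, sum_inner, real_inner_smul_left,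
      Prod.mk_zero_zero, zero_add, mul_comm]
  have e2' : ∀ (α : E2 × E2 →L[ℝ] ℝ) (c : Fin 2 → ℝ),
      α.comp (fderiv ℝ (Psi τ σ) z) (∑ j, c j • vf τ σ j z.1, 0) = ∑ j, c j * (α (e2 j, 0) +
        ∑ i, ⟪fderiv ℝ (vf τ σ i) z.1 (vf τ σ j z.1), z.2⟫ * α (0, e2 i)) := fun α c => by
    rw [show ((∑ j, c j • vf τ σ j z.1, 0) : Ph) = ∑ j, c j • (vf τ σ j z.1, 0) by
      ext1 <;> simp]
    simp only [map_sum, map_smul, smul_eq_mul, ContinuousLinearMap.comp_apply, h.dPsi hz, e0,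
      h.dτ_vf _ hz, inner_zero_right, zero_add]
  rw [pb, Xf, hf'.fderiv_eq, hg'.fderiv_eq, fderiv_comp z hf hP, fderiv_comp z hg hP,
    pair_J (e1 _) (e1 _), e2', e2', bracket_eq hf hg]
  simp only [Fin.sum_univ_two, h.dvf_symm 0 1 hz]
  ring

lemma surj (h : Ch O T τ σ) {y : E2} (hy : y ∈ T) (p : E2) :
    ∃ z : Ph, z.1 ∈ O ∧ Psi τ σ z = (y, p) := by
  have h1 := h.right y hy 1 one_pos
  rw [one_smul] at h1
  refine ⟨(σ y, (fderiv ℝ τ (σ y)).adjoint p), h1.1, Prod.ext h1.2 ?_⟩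
  simp only [Psi, ContinuousLinearMap.adjoint_inner_right, h.dτ_vf _ h1.1]
  simpa [EuclideanSpace.inner_single_left] using sum_e2 p

end Ch

lemma exists_bracket_ne {f : Fin 3 → E2 × E2 → ℝ} {w : E2 × E2}
    (hf : ∀ k, DifferentiableAt ℝ (f k) w)
    (h : LinearIndependent ℝ fun k => fderiv ℝ (f k) w) : ∃ i j, bracket (f i) (f j) w ≠ 0 := by
  by_contra h0
  push Not at h0
  set α : Fin 3 → E2 × E2 →L[ℝ] ℝ := fun k => fderiv ℝ (f k) w with hα
  set J2 : (E2 × E2 →L[ℝ] ℝ) →ₗ[ℝ] E2 × E2 :=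
    { toFun := fun a => ∑ i, (a (0, e2 i) • (e2 i, 0) - a (e2 i, 0) • (0, e2 i))
      map_add' := fun a b => by
        simp only [add_apply, add_smul, ← Finset.sum_add_distrib]
        exact Finset.sum_congr rfl fun i _ => by abel
      map_smul' := fun c a => by
        simp only [smul_apply, smul_eq_mul, RingHom.id_apply, Finset.smul_sum, smul_sub,
          smul_smul] } with hJ
  have hk : LinearMap.ker J2 = ⊥ := by
    rw [LinearMap.ker_eq_bot']
    intro a ha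
    have a1 := congrArg (fun v : E2 × E2 => v.1 0) ha
    have a2 := congrArg (fun v : E2 × E2 => v.1 1) ha
    have a3 := congrArg (fun v : E2 × E2 => v.2 0) ha
    have a4 := congrArg (fun v : E2 × E2 => v.2 1) ha
    simp [hJ] at a1 a2 a3 a4
    refine ContinuousLinearMap.ext fun v => ?_
    rw [show v = v.1 0 • (e2 0, 0) + v.1 1 • (e2 1, 0) + v.2 0 • (0, e2 0) + v.2 1 • (0, e2 1) by
      ext i <;> fin_cases i <;> simp]
    simp only [map_add, map_smul, a1, a2, a3, a4, smul_zero, add_zero, zero_apply]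
  have h1 := finrank_span_eq_card (h.map' J2 hk)
  have h2 := Subspace.finrank_add_finrank_dualAnnihilator_eq
    (Submodule.span ℝ (range (J2 ∘ α)))
  have h3 : ∀ k, (α k : E2 × E2 →ₗ[ℝ] ℝ) ∈ (Submodule.span ℝ (range (J2 ∘ α))).dualAnnihilator :=
    fun k => by
      rw [Submodule.mem_dualAnnihilator]
      intro v hv
      refine Submodule.span_induction (fun v hv => ?_) (by simp) (fun a b _ _ ha hb => by
        rw [map_add, ha, hb, add_zero]) (fun c a _ ha => by rw [map_smul, ha, smul_zero]) hv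
      obtain ⟨j, rfl⟩ := hv
      rw [← h0 k j, bracket_eq (hf k) (hf j)]
      simp only [hJ, Function.comp_apply, LinearMap.coe_mk, AddHom.coe_mk, map_sum, map_sub,
        map_smul, smul_eq_mul, ContinuousLinearMap.coe_coe]
      exact Finset.sum_congr rfl fun i _ => by ring
  have h4 := (LinearIndependent.of_comp (v := fun k => (⟨_, h3 k⟩ :
    (Submodule.span ℝ (range (J2 ∘ α))).dualAnnihilator)) (Submodule.subtype _)
    (h.map' (ContinuousLinearMap.coeLM ℝ) (LinearMap.ker_eq_bot.2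
      ContinuousLinearMap.coe_injective))).fintype_card_le_finrank
  rw [h1] at h2
  simp only [Fintype.card_fin, Module.finrank_prod, finrank_euclideanSpace] at h2 h4
  omega

end Pool.Agent.P.MP_75a63e_an
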