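import Pool.Agent.P.MP_75a63e_an.Volume

/-! The potential of a natural system with two non-commuting polynomial integrals is constant. -/

open Set Filter Topology Metric MeasureTheory
open scoped NNReal RealInnerProductSpace ContDiff

namespace Pool.Agent.P.MP_75a63e_an

lemma exists_path {K U G : Ph → ℝ} (hK : Kin K) (hU : Pot U) {N : ℕ} (hG : Integ (ham K U) N G)
    (h : ∃ z ∈ W, G z ≠ 0) {x₀ : V} (hx : ‖x₀‖ = 1) : ∃ u P₀ : V, 0 < K (x₀, P₀) ∧
      ∀ᶠ s : ℝ in 𝓝[>] 0, G (x₀ + s ^ (N + 3) • u, s • P₀) ≠ 0 := by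
  classical
  have hx0 := ne_zero_of_norm_one hx
  obtain ⟨g, hg, hg', hg''⟩ := hG.rp.parts
  obtain ⟨k, hk, h1, z, hz, h2⟩ := (exists_top hK.ph hU.ph hG.rp.sm (fun j => (hg j).sm) hG.int _
    hg').resolve_left fun h0 => by obtain ⟨z, hz, hz'⟩ := h; exact hz' (h0 z hz)
  obtain ⟨i, u, P, hP⟩ : ∃ (i : ℕ) (u P : V),
      iteratedFDeriv ℝ i (g k) (x₀, P) (fun _ => (u, 0)) ≠ 0 := by
    by_contra h0
    push Not at h0
    exact h2 (Kill.jet hK ⟨hg k, hg'' hG.inv k, h1⟩ hx (fun i _ u P => h0 i u P) z hz)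
  obtain ⟨P₀, hP₀, hP₁⟩ : ∃ P₀, K (x₀, P₀) ≠ 0 ∧
      iteratedFDeriv ℝ i (g k) (x₀, P₀) (fun _ => (u, 0)) ≠ 0 := by
    refine (Frequently.and_eventually (f := 𝓝 P) (fun h0 => ?_) ?_).exists
    · obtain ⟨b, hb⟩ := exists_frame hx
      have := hK.ph.rp.fibre_eq_zero hx0 (P₀ := P) (by simpa using h0) (b 1)
      exact (hK.pos x₀ (b 1) hx0 (ne_zero_of_norm_one (b.orthonormal.1 1))
        (by rw [← hb]; simp [b.inner_eq_ite])).ne' this
    · have c1 : ContinuousAt (iteratedFDeriv ℝ i (g k)) (x₀, P) :=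
        (((hg k).sm.at (z := (x₀, P)) hx0).iteratedFDeriv_right (i := i) (m := 0)
          (by exact_mod_cast le_top)).continuousAt
      have c2 : ContinuousAt
          (fun P : V => iteratedFDeriv ℝ i (g k) (x₀, P) (fun _ => (u, 0))) P :=
        (continuous_eval_const _).continuousAt.comp (c1.comp (by fun_prop))
      exact c2.eventually_ne hP
  refine ⟨u, P₀, lt_of_le_of_ne (hK.nonneg (z := (x₀, P₀)) hx0) hP₀.symm, ?_⟩
  set c : ℕ → ℕ → ℝ := fun i j =>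
    (i.factorial : ℝ)⁻¹ * iteratedFDeriv ℝ i (g j) (x₀, P₀) (fun _ => (u, 0)) with hc
  have hex : ∃ i, ∃ j < N + 1, c i j ≠ 0 := ⟨i, k, hk, mul_ne_zero (by positivity) hP₁⟩
  set n := Nat.find hex with hn
  have hn1 : ∀ i < n, ∀ j < N + 1, c i j = 0 := fun i hi j hj => by
    by_contra h0
    exact Nat.find_min hex hi ⟨j, hj, h0⟩
  have hex2 : ∃ j, j < N + 1 ∧ c n j ≠ 0 := Nat.find_spec hex
  set j₀ := Nat.find hex2 with hj₀
  have hj1 : j₀ < N + 1 ∧ c n j₀ ≠ 0 := Nat.find_spec hex2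
  have hj2 : ∀ j < j₀, c n j = 0 := fun j hj => by
    by_contra h0
    exact Nat.find_min hex2 hj ⟨by omega, h0⟩
  choose C hC0 hC using fun j => taylor_bound (hg j).sm hx n ‖P₀‖
  set r : ℝ → ℝ := fun s => ∑ j ∈ Finset.range (N + 1), s ^ (j - j₀) * c n j with hr
  have hr0 : r 0 = c n j₀ := by
    simp only [hr]
    rw [Finset.sum_eq_single j₀]
    · simp
    · intro j _ hj
      rcases lt_or_gt_of_ne hj with hj | hj
      · rw [hj2 j hj, mul_zero]
      · rw [zero_pow (by omega), zero_mul]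
    · intro h0; exact absurd (Finset.mem_range.2 hj1.1) h0
  set B := ∑ j ∈ Finset.range (N + 1), C j * ‖u‖ ^ (n + 1) with hB
  have e1 : ∀ᶠ s : ℝ in 𝓝 0, B * s < |r s| :=
    (show ContinuousAt (fun s : ℝ => B * s) 0 by fun_prop).eventually_lt
      (show ContinuousAt (fun s => |r s|) 0 by simp only [hr]; fun_prop)
      (by simpa [hr0] using hj1.2)
  have e2 : ∀ᶠ s : ℝ in 𝓝 0, ‖s ^ (N + 3) • u‖ < 1 / 2 :=
    (show ContinuousAt (fun s : ℝ => ‖s ^ (N + 3) • u‖) 0 by fun_prop).eventually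
      (gt_mem_nhds (by simp))
  filter_upwards [nhdsWithin_le_nhds e1, nhdsWithin_le_nhds e2, Ioo_mem_nhdsGT zero_lt_one]
    with s s1 s2 s3 h0
  set a := s ^ (N + 3) with ha
  have ha0 : 0 < a := pow_pos s3.1 _
  have hW : ((x₀ + a • u, P₀) : Ph) ∈ W := by
    intro h0
    have : x₀ = -(a • u) := eq_neg_of_add_eq_zero_left h0
    rw [this, norm_neg] at hx
    linarith
  have k1 := hg' _ hW s
  rw [sc_apply, h0] at k1
  have k2 : ∀ j < N + 1, |g j (x₀ + a • u, P₀) - a ^ n * c n j| ≤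
      a ^ (n + 1) * (C j * ‖u‖ ^ (n + 1)) := fun j hj => by
    have := hC j (a • u) P₀ s2.le le_rfl
    have e : ∀ i, (i.factorial : ℝ)⁻¹ * iteratedFDeriv ℝ i (g j) (x₀, P₀) (fun _ => (a • u, 0)) =
        a ^ i * c i j := fun i => by
      rw [show (fun _ : Fin i => ((a • u, 0) : Ph)) = fun _ => a • ((u, 0) : Ph) by simp,
        ContinuousMultilinearMap.map_smul_univ]
      simp only [hc, Finset.prod_const, Finset.card_univ, Fintype.card_fin, smul_eq_mul]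
      ring
    simp only [e] at this
    rw [Finset.sum_range_succ, Finset.sum_eq_zero fun i hi => by
      rw [hn1 i (Finset.mem_range.1 hi) j hj, mul_zero], zero_add, norm_smul,
      Real.norm_of_nonneg ha0.le] at this
    refine this.trans (le_of_eq ?_)
    ring
  have k3 : a ^ n * (s ^ j₀ * r s) =
      -∑ j ∈ Finset.range (N + 1), s ^ j * (g j (x₀ + a • u, P₀) - a ^ n * c n j) := by
    simp only [mul_sub, Finset.sum_sub_distrib, ← k1, hr, Finset.mul_sum, zero_sub, neg_neg]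
    refine Finset.sum_congr rfl fun j _ => ?_
    rcases lt_or_ge j j₀ with hj | hj
    · simp [hj2 j hj]
    · rw [← mul_assoc (s ^ j₀), ← pow_add, Nat.add_sub_cancel' hj]
      ring
  have k4 : a ^ n * (s ^ j₀ * |r s|) ≤ a ^ (n + 1) * B := by
    have := congrArg abs k3
    rw [abs_mul, abs_mul, abs_of_pos (pow_pos ha0 _), abs_of_pos (pow_pos s3.1 _), abs_neg] at this
    rw [this, hB, Finset.mul_sum]
    refine (Finset.abs_sum_le_sum_abs _ _).trans (Finset.sum_le_sum fun j hj => ?_)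
    rw [abs_mul, abs_of_pos (pow_pos s3.1 _)]
    refine (mul_le_of_le_one_left (abs_nonneg _) (pow_le_one₀ s3.1.le s3.2.le)).trans
      (k2 j (Finset.mem_range.1 hj))
  have hB0 : 0 ≤ B := Finset.sum_nonneg fun j _ => mul_nonneg (hC0 j) (by positivity)
  rw [pow_succ, mul_assoc, mul_le_mul_iff_right₀ (pow_pos ha0 _)] at k4
  have k5 : a ≤ s ^ j₀ * s := by
    rw [← pow_succ]
    exact pow_le_pow_of_le_one s3.1.le s3.2.le (by omega)
  have k6 : 0 < s ^ j₀ := pow_pos s3.1 _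
  nlinarith [mul_le_mul_of_nonneg_right k5 hB0, mul_lt_mul_of_pos_left s1 k6]

lemma path_deriv {K U : Ph → ℝ} (hK : Kin K) (hU : Pot U) {x₀ : V} (hx : x₀ ≠ 0) (u P₀ : V)
    (n : ℕ) : ∃ ψ : ℝ → ℝ, ContinuousAt ψ 0 ∧ ψ 0 = 2 * K (x₀, P₀) ∧ ∀ᶠ s : ℝ in 𝓝 0,
      HasDerivAt (fun s : ℝ => ham K U (x₀ + s ^ (n + 3) • u, s • P₀)) (s * ψ s) s := by
  set β : ℝ → Ph := fun s => (x₀ + s ^ (n + 3) • u, P₀) with hβ
  have hβc : Continuous β := by fun_prop
  have hβ0 : β 0 = (x₀, P₀) := by simp [hβ]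
  have hW : β 0 ∈ W := by rw [hβ0]; exact hx
  have hc : ∀ f : Ph → ℝ, Sm f → ContinuousAt (fun s => fderiv ℝ f (β s) (u, 0)) 0 := fun f hf =>
    ((hf.fderiv.continuousOn.continuousAt (W_mem_nhds hW)).comp hβc.continuousAt).clm_apply
      continuousAt_const
  refine ⟨fun s => 2 * K (β s) + (n + 3) * s ^ (n + 3) * fderiv ℝ K (β s) (u, 0) +
    (n + 3) * s ^ (n + 1) * fderiv ℝ U (β s) (u, 0), ?_, by simp [hβ0], ?_⟩
  · exact ((continuousAt_const.mul ((hK.ph.sm.contAt hW).comp hβc.continuousAt)).add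
      ((by fun_prop : ContinuousAt (fun s : ℝ => (n + 3) * s ^ (n + 3)) 0).mul
        (hc K hK.ph.sm))).add
      ((by fun_prop : ContinuousAt (fun s : ℝ => (n + 3) * s ^ (n + 1)) 0).mul (hc U hU.ph.sm))
  have hev : ∀ᶠ s in 𝓝 (0 : ℝ), β s ∈ W := hβc.continuousAt.eventually (W_mem_nhds hW)
  filter_upwards [hev.eventually_nhds] with s hs
  have d0 : HasDerivAt β (((n + 3 : ℝ) * s ^ (n + 2)) • ((u, 0) : Ph)) s := by
    have := (((hasDerivAt_pow (n + 3) s).smul_const u).const_add x₀).prodMk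
      (hasDerivAt_const s P₀)
    simpa using this
  have d1 := ((hasDerivAt_pow 2 s).fun_mul
    ((hK.ph.sm.diffAt hs.self_of_nhds).hasFDerivAt.comp_hasDerivAt s d0)).fun_add
    ((hU.ph.sm.diffAt hs.self_of_nhds).hasFDerivAt.comp_hasDerivAt s d0)
  refine (d1.congr_deriv ?_).congr_of_eventuallyEq (hs.mono fun t ht => ?_)
  · simp only [map_smul, smul_eq_mul, Function.comp_apply]
    push_cast
    ring
  · simp only [ham, Function.comp_apply]
    rw [hK.smul ht, hU.eq ht _ P₀]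

variable {K U F₁ F₂ : Ph → ℝ} {N : ℕ} {m : ℝ} {X : Ph → Ph} {φ : ℝ → Ph → Ph} {L M : ℝ≥0}

lemma Setup.false (h : Setup K U F₁ F₂ N m X φ L M) {x₀ : V} (hx : ‖x₀‖ = 1)
    (hm : U (x₀, 0) = m) (hU : ∃ z ∈ W, U z < m) (hG : ∃ z ∈ W, pb F₁ F₂ z ≠ 0) : False := by
  have hx0 := ne_zero_of_norm_one hx
  have hW0 : ((x₀, 0) : Ph) ∈ W := hx0
  have hH0 : ham K U (x₀, 0) = m := by simp [ham, h.kin.zero hx0, hm]
  have hOm : ((x₀, 0) : Ph) ∈ Om (ham K U) (m + 2) :=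
    Setup.mem_Om_circle hx (inner_zero_right _) (by linarith) hH0
  have hX : X (x₀, 0) = 0 := by
    have a : IsLocalMin K (x₀, 0) := by
      filter_upwards [W_mem_nhds hW0] with z hz
      rw [h.kin.zero hx0]; exact h.kin.nonneg hz
    have b : IsLocalMax U (x₀, 0) := by
      filter_upwards [W_mem_nhds hW0] with z hz
      rw [hm]; exact h.max z hz
    rw [h.flo.eq _ hOm, Xf, fderiv_fun_add (h.kin.ph.sm.diffAt hW0) (h.pot.ph.sm.diffAt hW0),
      a.fderiv_eq_zero, b.fderiv_eq_zero, add_zero, map_zero]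
  obtain ⟨δ, hδ, hδ'⟩ := h.low_avg hU hG
  obtain ⟨u, P₀, hP₀, hne⟩ := exists_path h.kin h.pot h.integG hG hx
  obtain ⟨ψ, hψ, hψ0, hψ'⟩ := path_deriv h.kin h.pot hx0 u P₀ (N + N)
  set γ : ℝ → Ph := fun s => (x₀ + s ^ (N + N + 3) • u, s • P₀) with hγ
  have hγd : Differentiable ℝ γ := by fun_prop
  have hγ0 : γ 0 = (x₀, 0) := by simp [hγ]
  set E : ℝ → ℝ := fun s => ham K U (γ s) with hE
  have hE0 : E 0 = m := by simp only [hE, hγ0, hH0]
  have hEc : ContinuousAt E 0 := hψ'.self_of_nhds.continuousAt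
  obtain ⟨ε, hε, hε'⟩ : ∃ ε > 0, ∀ s ∈ Icc 0 ε, HasDerivAt E (s * ψ s) s ∧ 0 < ψ s ∧
      γ s ∈ Om (ham K U) (m + 2) ∧ E s < m + 1 ∧ (0 < s → pb F₁ F₂ (γ s) ≠ 0) := by
    have a1 : ∀ᶠ s in 𝓝 (0 : ℝ), 0 < ψ s := hψ.eventually (lt_mem_nhds (by linarith))
    have a2 : ∀ᶠ s in 𝓝 (0 : ℝ), γ s ∈ Om (ham K U) (m + 2) :=
      hγd.continuous.continuousAt.eventually ((isOpen_Om h.smH _).mem_nhds (hγ0 ▸ hOm))
    have a3 : ∀ᶠ s in 𝓝 (0 : ℝ), E s < m + 1 := hEc.eventually (gt_mem_nhds (by linarith))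
    obtain ⟨ε, hε, h1⟩ := eventually_nhds_iff_ball.1
      (hψ'.and (a1.and (a2.and (a3.and (eventually_nhdsWithin_iff.1 hne)))))
    refine ⟨ε / 2, by positivity, fun s hs => h1 s ?_⟩
    rw [mem_ball_zero_iff, Real.norm_of_nonneg hs.1]
    linarith [hs.2]
  have hEcont : ContinuousOn E (Icc 0 ε) := fun s hs =>
    (hε' s hs).1.continuousAt.continuousWithinAt
  have hmono : StrictMonoOn E (Icc 0 ε) :=
    strictMonoOn_of_deriv_pos (convex_Icc _ _) hEcont fun s hs => by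
      rw [interior_Icc] at hs
      rw [(hε' s (Ioo_subset_Icc_self hs)).1.deriv]
      exact mul_pos hs.1 (hε' s (Ioo_subset_Icc_self hs)).2.1
  have hEm : ∀ s ∈ Ioc 0 ε, m < E s := fun s hs =>
    hE0 ▸ hmono ⟨le_rfl, hε.le⟩ (Ioc_subset_Icc_self hs) hs.1
  have hR : ∀ s ∈ Ioc 0 ε, γ s ∈ RR K U F₁ F₂ m := fun s hs =>
    ⟨(hε' s (Ioc_subset_Icc_self hs)).2.2.1, hEm s hs,
      (hε' s (Ioc_subset_Icc_self hs)).2.2.2.2 hs.1⟩
  have hA : ∀ s ∈ Ioc 0 ε, HasDerivAt (fun s => act X φ (γ s)) (per φ (γ s) * (s * ψ s)) s :=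
    fun s hs => h.deriv_act (hγd s) (hR s hs) (hε' s (Ioc_subset_Icc_self hs)).1
  have hAm : MonotoneOn (fun s => act X φ (γ s)) (Ioc 0 ε) :=
    monotoneOn_of_deriv_nonneg (convex_Ioc _ _)
      (fun s hs => (hA s hs).continuousAt.continuousWithinAt)
      (fun s hs => (hA s (interior_subset hs)).differentiableAt.differentiableWithinAt)
      fun s hs => by
        have hs := interior_subset hs
        rw [(hA s hs).deriv]
        exact (mul_pos (h.per_pos (hR s hs))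
          (mul_pos hs.1 (hε' s (Ioc_subset_Icc_self hs)).2.1)).le
  set T₀ := act X φ (γ ε) / (2 * δ) with hT₀
  obtain ⟨ρ, hρ, hρ'⟩ := eventually_nhds_iff_ball.1 ((h.pot.ph.sm.contAt hW0).eventually
    (lt_mem_nhds (show m - δ / 2 < U (x₀, 0) by linarith)))
  obtain ⟨η, hη, hη'⟩ := eventually_nhds_iff_ball.1
    ((show ContinuousAt (fun s => ‖γ s - (x₀, 0)‖ * Real.exp (L * T₀)) 0 by
      have := hγd.continuous
      fun_prop).eventually (gt_mem_nhds (show _ < ρ by simpa [hγ0] using hρ)))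
  set s₀ := min ε (η / 2) with hs₀
  have hs0 : 0 < s₀ := by positivity
  have hs1 : s₀ ≤ ε := min_le_left _ _
  have hs2 : s₀ ≤ η / 2 := min_le_right _ _
  obtain ⟨z, hz, z1, z2, κ, hκ, hκ'⟩ := hδ' (E (s₀ / 2)) (E s₀) (hEm _ ⟨by linarith, by linarith⟩)
    (hmono ⟨by linarith, by linarith⟩ ⟨hs0.le, hs1⟩ (by linarith)) (hε' _ ⟨hs0.le, hs1⟩).2.2.2.1
  obtain ⟨s, hs, hs'⟩ := intermediate_value_Icc (a := s₀ / 2) (b := s₀) (by linarith)
    (hEcont.mono (Icc_subset_Icc (by linarith) hs1)) ⟨z1, z2.le⟩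
  have hsI : s ∈ Ioc 0 ε := ⟨by linarith [hs.1], by linarith [hs.2]⟩
  have hRs := hR s hsI
  have hWs := Om_sub_W hRs.1
  have hT := h.per_pos hRs
  have e1 := (h.level_const hz hRs hs'.symm hκ').2.unique
    (h.good_of_period hWs hT (h.per_eq hRs)).2
  rw [eq_inv_mul_iff_mul_eq₀ hT.ne'] at e1
  have e2 : per φ (γ s) ≤ T₀ := by
    have a := hAm hsI ⟨hε, le_rfl⟩ hsI.2
    simp only at a
    rw [h.act_eq hRs, ← e1] at a
    rw [hT₀, le_div_iff₀ (by positivity)]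
    have b : m < ham K U (γ s) := hRs.2.1
    nlinarith
  have e3 : ∫ _ in (0 : ℝ)..per φ (γ s), (m - δ / 2) ≤ ∫ t in (0 : ℝ)..per φ (γ s), U (φ t (γ s)) :=
    intervalIntegral.integral_mono_on hT.le (by simp)
      ((h.cont_U continuous_id' continuous_const fun _ : ℝ => hWs).intervalIntegrable _ _)
      fun t ht => by
        refine (hρ' _ ?_).le
        rw [mem_ball, dist_eq_norm, ← h.flo.bf.fixed hX t]
        refine (h.flo.bf.dist_le _ _ t).trans_lt (lt_of_le_of_lt ?_ (hη' s ?_))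
        · rw [abs_of_nonneg ht.1]
          gcongr
          exact ht.2.trans e2
        · rw [mem_ball_zero_iff, Real.norm_of_nonneg hsI.1.le]
          linarith [hs.2]
  rw [← e1, intervalIntegral.integral_const, sub_zero, smul_eq_mul] at e3
  nlinarith

/-- the core theorem on the cone -/
theorem core (hK : Kin K) (hU : Pot U) (h1 : Integ (ham K U) N F₁) (h2 : Integ (ham K U) N F₂)
    (hG : ∃ z ∈ W, pb F₁ F₂ z ≠ 0) : ∃ c, ∀ z ∈ W, U z = c := by
  obtain ⟨x₀, hx, hm⟩ := hU.exists_max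
  obtain ⟨X, φ, L, M, hF⟩ := exists_flo hK hU (U (x₀, 0) + 2)
  refine ⟨U (x₀, 0), fun z hz => (hm z hz).eq_of_not_lt fun hlt => ?_⟩
  exact Setup.false ⟨hK, hU, h1, h2, hm, hF⟩ hx rfl ⟨z, hz, hlt⟩ hG

end Pool.Agent.P.MP_75a63e_an
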