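import Pool.Agent.P.MP_75a63e_an.Flow

/-! Liouville's theorem for the flow of a compactly supported divergence-free vector field. -/

open Set Filter Topology Metric MeasureTheory
open scoped NNReal

namespace Pool.Agent.P.MP_75a63e_an

variable {E : Type*} [NormedAddCommGroup E] [NormedSpace ℝ E] [FiniteDimensional ℝ E]
  [MeasurableSpace E] [BorelSpace E]

lemma tendsto_integral_thick (μ : Measure E) [IsFiniteMeasureOnCompacts μ] {K : Set E}
    (hK : IsCompact K) :
    Tendsto (fun n : ℕ => ∫ z, ((thickenedIndicator (δ := 1 / ((n : ℝ) + 1))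
      Nat.one_div_pos_of_nat K z : ℝ≥0) : ℝ) ∂μ) atTop (𝓝 (μ.real K)) := by
  have hK1 : IsCompact (cthickening 1 K) := hK.cthickening
  rw [← integral_indicator_one hK.measurableSet]
  refine tendsto_integral_of_dominated_convergence ((cthickening 1 K).indicator 1) ?_ ?_ ?_ ?_
  · intro n
    exact (NNReal.continuous_coe.comp (thickenedIndicator _ K).continuous).aestronglyMeasurable
  · exact (integrable_indicator_iff hK1.measurableSet).2
      (integrableOn_const (hK1.measure_lt_top).ne)
  · intro n
    refine Eventually.of_forall fun z => ?_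
    rw [Real.norm_eq_abs, abs_of_nonneg (NNReal.coe_nonneg _)]
    by_cases hz : z ∈ cthickening 1 K
    · rw [indicator_of_mem hz]
      exact_mod_cast thickenedIndicator_le_one _ K z
    · rw [indicator_of_notMem hz, thickenedIndicator_zero]
      · simp
      · intro h
        apply hz
        refine cthickening_mono ?_ K (thickening_subset_cthickening _ _ h)
        rw [div_le_one (by positivity)]
        have : (0 : ℝ) ≤ n := Nat.cast_nonneg n
        linarith
  · refine Eventually.of_forall fun z => ?_
    have := thickenedIndicator_tendsto_indicator_closure (δseq := fun n : ℕ => 1 / ((n : ℝ) + 1))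
      (fun _ => Nat.one_div_pos_of_nat) tendsto_one_div_add_atTop_nhds_zero_nat K
    rw [hK.isClosed.closure_eq, tendsto_pi_nhds] at this
    have h2 := (NNReal.continuous_coe.tendsto _).comp (this z)
    have e : K.indicator (1 : E → ℝ) z = ((K.indicator (fun _ => (1 : ℝ≥0)) z : ℝ≥0) : ℝ) := by
      by_cases hz : z ∈ K <;> simp [hz]
    rw [e]
    exact h2

lemma measure_ext_lipschitz (μ ν : Measure E) [μ.Regular] [ν.Regular]
    (h : ∀ (f : E → ℝ) (C : ℝ≥0), LipschitzWith C f → HasCompactSupport f →
      ∫ z, f z ∂μ = ∫ z, f z ∂ν) : μ = ν := by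
  have hK : ∀ K : Set E, IsCompact K → μ K = ν K := by
    intro K hK
    have h1 := tendsto_integral_thick μ hK
    have h2 := tendsto_integral_thick ν hK
    have h3 : μ.real K = ν.real K := by
      refine tendsto_nhds_unique h1 (h2.congr fun n => ?_)
      symm
      refine h _ _ (NNReal.isometry_coe.lipschitz.comp (lipschitzWith_thickenedIndicator _ K)) ?_
      refine HasCompactSupport.intro (K := cthickening (1 / ((n : ℝ) + 1)) K) hK.cthickening ?_
      intro z hz
      simp only [NNReal.coe_eq_zero]
      exact thickenedIndicator_zero _ _ fun h => hz (thickening_subset_cthickening _ _ h)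
    exact (measureReal_eq_measureReal_iff hK.measure_lt_top.ne hK.measure_lt_top.ne).1 h3
  refine Measure.OuterRegular.ext_isOpen fun U hU => ?_
  rw [hU.measure_eq_iSup_isCompact, hU.measure_eq_iSup_isCompact]
  exact iSup_congr fun K => iSup_congr fun _ => iSup_congr fun h2 => hK K h2

namespace BFlow

variable {X : E → E} {φ : ℝ → E → E} {L M : ℝ≥0}

/-- the time-`t` map as a homeomorphism -/
def homeo (h : BFlow X φ L M) (t : ℝ) : E ≃ₜ E where
  toFun := φ t
  invFun := φ (-t)
  left_inv := h.neg_apply t
  right_inv := h.apply_neg t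
  continuous_toFun := h.continuous_space t
  continuous_invFun := h.continuous_space (-t)

theorem measurePreserving (h : BFlow X φ L M) (μ : Measure E) [μ.IsAddHaarMeasure]
    {ι : Type*} [Fintype ι] (b : ι → E) (c : ι → E → ℝ) (hc : ∀ i, ContDiff ℝ 1 (c i))
    (hcs : ∀ i, HasCompactSupport (c i)) (hX : ∀ z, X z = ∑ i, c i z • b i)
    (hdiv : ∀ z, ∑ i, fderiv ℝ (c i) z (b i) = 0) (t : ℝ) : MeasurePreserving (φ t) μ μ := by
  refine ⟨(h.continuous_space t).measurable, ?_⟩
  have : (μ.map (φ t)).Regular := Measure.Regular.map (μ := μ) (h.homeo t)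
  refine measure_ext_lipschitz _ _ fun f C hf hfs => ?_
  rw [integral_map (h.continuous_space t).measurable.aemeasurable
    hf.continuous.aestronglyMeasurable]
  set K : Set E := ⋃ i, tsupport (c i) with hKdef
  have hK : IsCompact K := isCompact_iUnion fun i => (hcs i).isCompact
  have hout : ∀ z ∉ K, ∀ s, φ s z = z := by
    intro z hz s
    apply h.fixed
    rw [hX]
    refine Finset.sum_eq_zero fun i _ => ?_
    have : c i z = 0 := by
      by_contra hne
      exact hz (mem_iUnion.2 ⟨i, subset_tsupport _ hne⟩)
    simp [this]
  have hgs : ∀ s, HasCompactSupport (fun z => f (φ s z)) := fun s =>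
    hfs.comp_homeomorph (h.homeo s)
  have hgl : ∀ s, ∃ D, LipschitzWith D (fun z => f (φ s z)) := fun s =>
    ⟨_, hf.comp (h.lipschitz s)⟩
  have hcl : ∀ i, ∃ D, LipschitzWith D (c i) := fun i =>
    (hc i).lipschitzWith_of_hasCompactSupport (hcs i) one_ne_zero
  have hder : ∀ s, HasDerivAt (fun s => ∫ z, f (φ s z) ∂μ) 0 s := by
    intro s
    obtain ⟨D, hD⟩ := hgl s
    set g : E → ℝ := fun z => f (φ s z) with hg
    have hmeas : AEStronglyMeasurable (fun z => fderiv ℝ g z (X z)) μ := by
      have h1 : Measurable fun p : (E →L[ℝ] ℝ) × E => p.1 p.2 :=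
        (isBoundedBilinearMap_apply (𝕜 := ℝ) (E := E) (F := ℝ)).continuous.measurable
      exact (h1.comp ((measurable_fderiv ℝ g).prodMk h.lip.continuous.measurable)).aestronglyMeasurable
    have := (hasDerivAt_integral_of_dominated_loc_of_lip (μ := μ) (𝕜 := ℝ)
      (F := fun s z => f (φ s z)) (F' := fun z => fderiv ℝ g z (X z)) (x₀ := s) (s := univ)
      (bound := K.indicator fun _ => (C * M : ℝ)) univ_mem
      (Eventually.of_forall fun s =>
        (hf.continuous.comp (h.continuous_space s)).aestronglyMeasurable)
      (hD.continuous.integrable_of_hasCompactSupport (hgs s)) hmeas ?_ ?_ ?_).2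
    · suffices hh : ∫ z, fderiv ℝ g z (X z) ∂μ = 0 by rwa [hh] at this
      have e1 : (fun z => fderiv ℝ g z (X z)) =ᵐ[μ]
          fun z => ∑ i, lineDeriv ℝ g z (b i) * c i z := by
        filter_upwards [hD.ae_differentiableAt (μ := μ)] with z hz
        rw [hX, map_sum]
        refine Finset.sum_congr rfl fun i _ => ?_
        rw [map_smul, hz.lineDeriv_eq_fderiv, smul_eq_mul, mul_comm]
      rw [integral_congr_ae e1, integral_finsetSum]
      · have e2 : ∀ i, ∫ z, lineDeriv ℝ g z (b i) * c i z ∂μ =
            ∫ z, -(fderiv ℝ (c i) z (b i) * g z) ∂μ := by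
          intro i
          obtain ⟨D', hD'⟩ := hcl i
          rw [hD.integral_lineDeriv_mul_eq hD' (hcs i)]
          congr 1
          ext z
          rw [((hc i).differentiable one_ne_zero z).lineDeriv_eq_fderiv]
          simp
        simp_rw [e2]
        rw [← integral_finsetSum]
        · simp [← Finset.sum_mul, hdiv]
        · intro i _
          refine Integrable.neg (Continuous.integrable_of_hasCompactSupport ?_ ?_)
          · exact (((hc i).continuous_fderiv one_ne_zero).clm_apply continuous_const).mul
              hD.continuous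
          · exact (hgs s).mul_left
      · intro i _
        exact (hD.locallyIntegrable_lineDeriv (b i)).integrable_smul_right_of_hasCompactSupport
          (hc i).continuous (hcs i)
    · refine Eventually.of_forall fun z => ?_
      by_cases hz : z ∈ K
      · rw [indicator_of_mem hz]
        refine LipschitzOnWith.of_dist_le_mul fun u _ v _ => ?_
        refine (hf.dist_le_mul _ _).trans ?_
        rw [dist_eq_norm, Real.dist_eq, Real.coe_nnabs, abs_of_nonneg (by positivity), mul_assoc]
        gcongr
        exact h.dist_time z u v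
      · refine LipschitzOnWith.of_dist_le_mul fun u _ v _ => ?_
        simp only [hout z hz, dist_self]
        positivity
    · exact (integrable_indicator_iff hK.measurableSet).2 (integrableOn_const hK.measure_lt_top.ne)
    · filter_upwards [hD.ae_differentiableAt (μ := μ)] with z hz
      have h1 : HasDerivAt (fun u => φ (u - s) z) (X z) s := by
        have := (h.deriv z (s - s)).comp_sub_const s s
        simpa [h.zero] using this
      have h2 : HasFDerivAt g (fderiv ℝ g z) (φ (s - s) z) := by
        simpa [h.zero] using hz.hasFDerivAt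
      have h3 := h2.comp_hasDerivAt s h1
      refine h3.congr_of_eventuallyEq (Eventually.of_forall fun u => ?_)
      simp only [hg, Function.comp_apply]
      rw [← h.add]; simp
  have := is_const_of_deriv_eq_zero (f := fun s => ∫ z, f (φ s z) ∂μ)
    (fun s => (hder s).differentiableAt) (fun s => (hder s).deriv) t 0
  simpa [h.zero] using this

end BFlow

end Pool.Agent.P.MP_75a63e_an
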