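import Pool.Agent.P.MP_75a63e_an.Poly
import Pool.Agent.P.MP_75a63e_an.Measure

/-! Natural systems on the cone over the sphere and their cut-off flows. -/

open Set Filter Topology Metric MeasureTheory
open scoped NNReal RealInnerProductSpace ContDiff

namespace Pool.Agent.P.MP_75a63e_an

instance instHaarPh : (volume : Measure Ph).IsAddHaarMeasure :=
  inferInstanceAs ((volume : Measure V).prod (volume : Measure V)).IsAddHaarMeasure

/-- kinetic energy lifted from the sphere -/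
structure Kin (K : Ph → ℝ) : Prop where
  ph : PH 2 K
  inv : Inv K
  pos : ∀ q P : V, q ≠ 0 → P ≠ 0 → ⟪q, P⟫ = 0 → 0 < K (q, P)

/-- potential lifted from the sphere -/
structure Pot (U : Ph → ℝ) : Prop where
  ph : PH 0 U
  inv : Inv U

lemma Pot.zero : Pot fun _ => 0 :=
  ⟨⟨contDiffOn_const, fun _ _ _ => by simp⟩, fun _ _ _ _ _ => rfl⟩

lemma Pot.eq {U : Ph → ℝ} (hU : Pot U) {q : V} (hq : q ≠ 0) (P P' : V) : U (q, P) = U (q, P') := by
  have h1 := hU.ph.hom (q, P) hq 0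
  have h2 := hU.ph.hom (q, P') hq 0
  simp only [sc_apply, zero_smul, pow_zero, one_mul] at h1 h2
  rw [← h1, ← h2]

lemma Kin.smul {K : Ph → ℝ} (hK : Kin K) {q : V} (hq : q ≠ 0) (s : ℝ) (P : V) :
    K (q, s • P) = s ^ 2 * K (q, P) := hK.ph.hom (q, P) hq s

lemma Kin.zero {K : Ph → ℝ} (hK : Kin K) {q : V} (hq : q ≠ 0) : K (q, 0) = 0 := by
  simpa using hK.smul hq 0 0

lemma perp_part {q : V} (hq : q ≠ 0) (P : V) : ⟪q, P + (-(⟪q, P⟫ / ‖q‖ ^ 2)) • q⟫ = 0 := by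
  have : ‖q‖ ≠ 0 := norm_ne_zero_iff.2 hq
  rw [inner_add_right, real_inner_smul_right, real_inner_self_eq_norm_sq]
  field_simp
  ring

lemma Kin.nonneg {K : Ph → ℝ} (hK : Kin K) {z : Ph} (hz : z ∈ W) : 0 ≤ K z := by
  obtain ⟨q, P⟩ := z
  rw [← hK.inv.add_rad hz P (-(⟪q, P⟫ / ‖q‖ ^ 2))]
  by_cases h : P + (-(⟪q, P⟫ / ‖q‖ ^ 2)) • q = 0
  · rw [h, hK.zero hz]
  · exact (hK.pos _ _ hz h (perp_part hz P)).le

lemma Kin.pos' {K : Ph → ℝ} (hK : Kin K) {q P : V} (hq : q ≠ 0) (hP : P ≠ 0) :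
    0 < K (q, P) + ⟪q, P⟫ ^ 2 := by
  by_cases h : ⟪q, P⟫ = 0
  · have := hK.pos _ _ hq hP h
    positivity
  · have := hK.nonneg (z := (q, P)) hq
    positivity

/-- the shell of configuration points -/
def Shell : Set V := {q | 1 / 4 ≤ ‖q‖ ^ 2 ∧ ‖q‖ ^ 2 ≤ 4}

lemma ne_zero_of_mem_Shell {q : V} (hq : q ∈ Shell) : q ≠ 0 := by
  rintro rfl
  have := hq.1
  norm_num at this

lemma norm_le_of_mem_Shell {q : V} (hq : q ∈ Shell) : ‖q‖ ≤ 2 := by
  have := hq.2
  nlinarith [norm_nonneg q]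

lemma isCompact_Shell : IsCompact Shell := by
  refine (isCompact_closedBall (0 : V) 2).of_isClosed_subset ?_ fun q hq => ?_
  · have hc : Continuous fun q : V => ‖q‖ ^ 2 := by fun_prop
    exact (isClosed_le continuous_const hc).inter (isClosed_le hc continuous_const)
  · simpa using norm_le_of_mem_Shell hq

lemma Kin.bounds {K : Ph → ℝ} (hK : Kin K) : ∃ c > 0, ∃ C > 0, ∀ q ∈ Shell, ∀ P : V,
    c * ‖P‖ ^ 2 ≤ K (q, P) + ⟪q, P⟫ ^ 2 ∧ K (q, P) + ⟪q, P⟫ ^ 2 ≤ C * ‖P‖ ^ 2 := by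
  have hc : IsCompact (Shell ×ˢ sphere (0 : V) 1) := isCompact_Shell.prod (isCompact_sphere _ _)
  have hne : (Shell ×ˢ sphere (0 : V) 1).Nonempty := by
    refine ⟨(e 0, e 0), ?_, ?_⟩
    · simp [Shell, e]; norm_num
    · simp [e]
  have hcont : ContinuousOn (fun z : Ph => K z + ⟪z.1, z.2⟫ ^ 2) (Shell ×ˢ sphere (0 : V) 1) :=
    (hK.ph.sm.continuousOn.mono fun z hz => ne_zero_of_mem_Shell hz.1).add (by fun_prop)
  obtain ⟨a, ha, ha'⟩ := hc.exists_isMinOn hne hcont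
  obtain ⟨b, hb, hb'⟩ := hc.exists_isMaxOn hne hcont
  have hpos : ∀ z ∈ Shell ×ˢ sphere (0 : V) 1, 0 < K z + ⟪z.1, z.2⟫ ^ 2 := fun z hz =>
    hK.pos' (ne_zero_of_mem_Shell hz.1) (by
      intro h; have := hz.2; simp [h] at this)
  refine ⟨_, hpos a ha, _, hpos b hb, fun q hq P => ?_⟩
  by_cases hP : P = 0
  · simp [hP, hK.zero (ne_zero_of_mem_Shell hq)]
  · have hn : 0 < ‖P‖ := norm_pos_iff.2 hP
    have hm : ((q, ‖P‖⁻¹ • P) : Ph) ∈ Shell ×ˢ sphere (0 : V) 1 :=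
      ⟨hq, by simp [norm_smul, hn.ne']⟩
    have e : K (q, P) + ⟪q, P⟫ ^ 2 =
        (K (q, ‖P‖⁻¹ • P) + ⟪q, ‖P‖⁻¹ • P⟫ ^ 2) * ‖P‖ ^ 2 := by
      rw [hK.smul (ne_zero_of_mem_Shell hq), real_inner_smul_right]
      field_simp
    rw [e]
    constructor
    · exact mul_le_mul_of_nonneg_right (ha' hm) (by positivity)
    · exact mul_le_mul_of_nonneg_right (hb' hm) (by positivity)

lemma Pot.normalize {U : Ph → ℝ} (hU : Pot U) {z : Ph} (hz : z ∈ W) :
    U z = U (‖z.1‖⁻¹ • z.1, 0) := by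
  rw [← hU.inv.normalize hz]
  exact hU.eq (smul_ne_zero (inv_ne_zero (norm_ne_zero_iff.2 hz)) hz) _ _

lemma normalize_mem {q : V} (hq : q ≠ 0) : ‖‖q‖⁻¹ • q‖ = 1 := by
  simp [norm_smul, norm_ne_zero_iff.2 hq]

lemma ne_zero_of_norm_one {q : V} (hq : ‖q‖ = 1) : q ≠ 0 := by
  rintro rfl; simp at hq

lemma Pot.exists_max {U : Ph → ℝ} (hU : Pot U) :
    ∃ x₀ : V, ‖x₀‖ = 1 ∧ ∀ z ∈ W, U z ≤ U (x₀, 0) := by
  have hcont : ContinuousOn (fun q : V => U (q, 0)) (sphere 0 1) :=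
    hU.ph.sm.continuousOn.comp (by fun_prop) fun q hq => ne_zero_of_norm_one (by simpa using hq)
  obtain ⟨a, ha, ha'⟩ := (isCompact_sphere (0 : V) 1).exists_isMaxOn ⟨e 0, by simp [e]⟩ hcont
  refine ⟨a, by simpa using ha, fun z hz => ?_⟩
  rw [hU.normalize hz]
  exact ha' (a := ‖z.1‖⁻¹ • z.1) (by simpa using normalize_mem hz)

lemma Pot.exists_min {U : Ph → ℝ} (hU : Pot U) : ∃ m : ℝ, ∀ z ∈ W, m ≤ U z := by
  have hU' : Pot fun z => -U z :=
    ⟨⟨hU.ph.sm.neg, fun z hz s => by rw [hU.ph.hom z hz]; ring⟩,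
      fun l hl t z hz => by simp only [hU.inv l hl t z hz]⟩
  obtain ⟨x, -, hx⟩ := hU'.exists_max
  exact ⟨U (x, 0), fun z hz => by linarith [hx z hz]⟩

/-- the invariant region where the cut-off is trivial -/
def Om (H : Ph → ℝ) (E₀ : ℝ) : Set Ph :=
  {z | 1 / 3 < ‖z.1‖ ^ 2 ∧ ‖z.1‖ ^ 2 < 3 ∧ H z + ⟪z.1, z.2⟫ ^ 2 < E₀}

lemma Om_sub_W {H : Ph → ℝ} {E₀ : ℝ} {z : Ph} (hz : z ∈ Om H E₀) : z ∈ W := by
  intro h
  have := hz.1
  rw [h] at this
  norm_num at this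

lemma Om_shell {H : Ph → ℝ} {E₀ : ℝ} {z : Ph} (hz : z ∈ Om H E₀) : z.1 ∈ Shell :=
  ⟨by linarith [hz.1], by linarith [hz.2.1]⟩

lemma isOpen_Om {H : Ph → ℝ} (hH : Sm H) (E₀ : ℝ) : IsOpen (Om H E₀) := by
  rw [isOpen_iff_mem_nhds]
  intro z hz
  have h1 : ContinuousAt (fun z : Ph => ‖z.1‖ ^ 2) z := by fun_prop
  have h2 : ContinuousAt (fun z : Ph => H z + ⟪z.1, z.2⟫ ^ 2) z :=
    (hH.contAt (Om_sub_W hz)).add (by fun_prop)
  filter_upwards [h1.eventually (lt_mem_nhds hz.1), h1.eventually (gt_mem_nhds hz.2.1),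
    h2.eventually (gt_mem_nhds hz.2.2)] with w a b c using ⟨a, b, c⟩

/-- a cut-off Hamiltonian flow -/
structure Flo (H : Ph → ℝ) (E₀ : ℝ) (X : Ph → Ph) (φ : ℝ → Ph → Ph) (L M : ℝ≥0) : Prop where
  sm : Sm H
  inv : Inv H
  bf : BFlow X φ L M
  cut : ∃ χ : Ph → ℝ, Continuous χ ∧ ∀ z ∈ W, X z = χ z • Xf H z
  out : ∀ z ∉ W, X z = 0
  eq : ∀ z ∈ Om H E₀, X z = Xf H z
  mp : ∀ t, MeasurePreserving (φ t) volume volume
  ext : ∃ (H' : Ph → ℝ) (C : ℝ≥0), Differentiable ℝ H' ∧ LipschitzWith C (fderiv ℝ H') ∧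
    ∀ z ∈ Om H E₀, fderiv ℝ H' z = fderiv ℝ H z
  bdd : ∃ B : Set Ph, IsCompact B ∧ Om H E₀ ⊆ B

lemma hasFDerivAt_normsq (z : Ph) : HasFDerivAt (fun z : Ph => ‖z.1‖ ^ 2)
    (2 • (innerSL ℝ z.1).comp (ContinuousLinearMap.fst ℝ V V)) z :=
  (ContinuousLinearMap.fst ℝ V V).hasFDerivAt.norm_sq

lemma fderiv_normsq (z v : Ph) : fderiv ℝ (fun z : Ph => ‖z.1‖ ^ 2) z v = 2 * ⟪z.1, v.1⟫ := by
  rw [(hasFDerivAt_normsq z).fderiv]; simp

lemma fderiv_dil (z v : Ph) :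
    fderiv ℝ (fun z : Ph => ⟪z.1, z.2⟫) z v = ⟪z.1, v.2⟫ + ⟪v.1, z.2⟫ := by
  rw [fderiv_inner_apply ℝ differentiableAt_fst differentiableAt_snd]
  simp [fderiv_fst, fderiv_snd]

lemma Inv.add {f g : Ph → ℝ} (hf : Inv f) (hg : Inv g) : Inv fun z => f z + g z :=
  fun l hl t z hz => by simp only [hf l hl t z hz, hg l hl t z hz]

theorem exists_flo {K U : Ph → ℝ} (hK : Kin K) (hU : Pot U) (E₀ : ℝ) :
    ∃ X φ L M, Flo (fun z => K z + U z) E₀ X φ L M := by
  set H : Ph → ℝ := fun z => K z + U z with hHdef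
  have hH : Sm H := hK.ph.sm.add hU.ph.sm
  have hHi : Inv H := hK.inv.add hU.inv
  set G : ℝ × ℝ → ℝ := fun p => Real.smoothTransition (12 * p.1 - 3) *
    Real.smoothTransition (4 - p.1) * Real.smoothTransition (E₀ + 1 - p.2) with hG
  have hGs : ContDiff ℝ ∞ G := by
    have := Real.smoothTransition.contDiff (n := ⊤)
    exact ((this.comp (by fun_prop)).mul (this.comp (by fun_prop))).mul (this.comp (by fun_prop))
  set Φ : Ph → ℝ × ℝ := fun z => (‖z.1‖ ^ 2, H z + ⟪z.1, z.2⟫ ^ 2) with hΦ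
  have hn : ContDiff ℝ ∞ fun z : Ph => ‖z.1‖ ^ 2 := contDiff_fst.norm_sq ℝ
  have hd : ContDiff ℝ ∞ fun z : Ph => ⟪z.1, z.2⟫ := contDiff_fst.inner ℝ contDiff_snd
  have hΦs : ContDiffOn ℝ ∞ Φ W := hn.contDiffOn.prodMk (hH.add (hd.pow 2).contDiffOn)
  set χ : Ph → ℝ := fun z => G (Φ z) with hχ
  have hχW : Sm χ := hGs.comp_contDiffOn hΦs
  have hχ0 : ∀ z ∉ W, ∀ᶠ w in 𝓝 z, χ w = 0 := by
    intro z hz
    have h1 : ‖z.1‖ ^ 2 < 1 / 4 := by
      have : z.1 = 0 := by simpa [W] using hz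
      rw [this]; norm_num
    filter_upwards [hn.continuous.continuousAt.eventually (gt_mem_nhds h1)] with w hw
    simp only [hχ, hG, hΦ]
    rw [Real.smoothTransition.zero_of_nonpos (by linarith)]
    simp
  obtain ⟨c, hc, C₀, -, hcb⟩ := hK.bounds
  obtain ⟨m, hm⟩ := hU.exists_min
  set B : Set Ph := Shell ×ˢ closedBall 0 (√((E₀ + 1 - m) / c)) with hB
  have hBc : IsCompact B := isCompact_Shell.prod (isCompact_closedBall _ _)
  have hmemB : ∀ z : Ph, z.1 ∈ Shell → H z + ⟪z.1, z.2⟫ ^ 2 ≤ E₀ + 1 → z ∈ B := by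
    intro z h1 h2
    refine ⟨h1, ?_⟩
    rw [mem_closedBall, dist_zero_right]
    apply Real.le_sqrt_of_sq_le
    rw [le_div_iff₀ hc]
    have a := (hcb z.1 h1 z.2).1
    have b := hm z (ne_zero_of_mem_Shell h1)
    simp only [hHdef] at h2
    linarith
  have hχB : ∀ z ∉ B, χ z = 0 := by
    intro z hz
    by_contra hne
    apply hz
    simp only [hχ, hG, hΦ, mul_eq_zero, not_or] at hne
    refine hmemB z ⟨?_, ?_⟩ ?_
    · by_contra h; exact hne.1.1 (Real.smoothTransition.zero_of_nonpos (by linarith))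
    · by_contra h; exact hne.1.2 (Real.smoothTransition.zero_of_nonpos (by linarith))
    · by_contra h; exact hne.2 (Real.smoothTransition.zero_of_nonpos (by linarith))
  have hχ1 : ∀ z ∈ Om H E₀, χ z = 1 := by
    intro z hz
    simp only [hχ, hG, hΦ]
    rw [Real.smoothTransition.one_of_one_le (by linarith [hz.1]),
      Real.smoothTransition.one_of_one_le (by linarith [hz.2.1]),
      Real.smoothTransition.one_of_one_le (by linarith [hz.2.2])]
    simp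
  have cutR : ∀ g : Ph → ℝ, Sm g → ContDiff ℝ ∞ (fun z => χ z * g z) ∧
      HasCompactSupport fun z => χ z * g z := by
    intro g hg
    refine ⟨contDiff_iff_contDiffAt.2 fun z => ?_, HasCompactSupport.intro hBc fun z hz => ?_⟩
    · by_cases hz : z ∈ W
      · exact (hχW.at hz).mul (hg.at hz)
      · exact (contDiffAt_const (c := 0)).congr_of_eventuallyEq
          ((hχ0 z hz).mono fun w hw => by simp [hw])
    · simp [hχB z hz]
  have hχs : ContDiff ℝ ∞ χ := by simpa using (cutR (fun _ => 1) contDiffOn_const).1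
  set X : Ph → Ph := fun z => χ z • Xf H z with hX
  have hXs : ContDiff ℝ ∞ X := by
    refine contDiff_iff_contDiffAt.2 fun z => ?_
    by_cases hz : z ∈ W
    · exact (hχW.at hz).smul (hH.Xf.contDiffAt (W_mem_nhds hz))
    · exact (contDiffAt_const (c := 0)).congr_of_eventuallyEq
        ((hχ0 z hz).mono fun w hw => by simp [hX, hw])
  have hXc : HasCompactSupport X := HasCompactSupport.intro hBc fun z hz => by simp [hX, hχB z hz]
  obtain ⟨L, hL⟩ := hXs.lipschitzWith_of_hasCompactSupport hXc (by simp)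
  obtain ⟨M, hM⟩ := hXs.continuous.bounded_above_of_compact_support hXc
  have hM0 : 0 ≤ M := (norm_nonneg _).trans (hM 0)
  obtain ⟨φ, hφ⟩ := exists_bflow (M := ⟨M, hM0⟩) hL hM
  refine ⟨X, φ, L, _, hH, hHi, hφ, ⟨χ, hχs.continuous, fun _ _ => rfl⟩, fun z hz => ?_,
    fun z hz => ?_, ?_, ?_, B, hBc, fun z hz => hmemB z (Om_shell hz) (by linarith [hz.2.2])⟩
  · simp [hX, (hχ0 z hz).self_of_nhds]
  · simp [hX, hχ1 z hz]
  · have hcomp : ∀ v : Ph, Sm fun z => fderiv ℝ H z v := fun v =>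
      hH.fderiv.clm_apply contDiffOn_const
    refine hφ.measurePreserving volume (ι := Fin 3 ⊕ Fin 3)
      (Sum.elim (fun i => ((e i, 0) : Ph)) fun i => -((0, e i) : Ph))
      (Sum.elim (fun i z => χ z * fderiv ℝ H z (0, e i)) fun i z => χ z * fderiv ℝ H z (e i, 0))
      ?_ ?_ ?_ ?_
    · rintro (i | i) <;> exact (cutR _ (hcomp _)).1.of_le (by simp)
    · rintro (i | i) <;> exact (cutR _ (hcomp _)).2
    · intro z
      simp only [hX, Xf, J_apply, Fintype.sum_sum_type, Sum.elim_inl, Sum.elim_inr,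
        Finset.smul_sum, ← Finset.sum_add_distrib, smul_add, smul_smul, smul_neg, sub_eq_add_neg]
    · intro z
      by_cases hz : z ∈ W
      · have hD : ∀ v w : Ph, fderiv ℝ (fun z => χ z * fderiv ℝ H z v) z w =
            χ z * fderiv ℝ (fderiv ℝ H) z w v + fderiv ℝ H z v * fderiv ℝ χ z w := by
          intro v w
          have h1 : HasFDerivAt (fderiv ℝ H) (fderiv ℝ (fderiv ℝ H) z) z :=
            ((hH.fderiv.contDiffAt (W_mem_nhds hz)).differentiableAt (by simp)).hasFDerivAt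
          have h2 := (hχW.diffAt hz).hasFDerivAt.fun_mul
            ((ContinuousLinearMap.apply ℝ ℝ v).hasFDerivAt.comp z h1)
          have h3 := h2.fderiv
          simp only [Function.comp_apply, ContinuousLinearMap.apply_apply] at h3
          rw [h3]
          simp
        have hpb : fderiv ℝ χ z (Xf H z) = 0 := by
          have h1 : HasFDerivAt Φ (fderiv ℝ Φ z) z :=
            ((hΦs.contDiffAt (W_mem_nhds hz)).differentiableAt (by simp)).hasFDerivAt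
          have h2 := ((hGs.differentiable (by simp) (Φ z)).hasFDerivAt.comp z h1).fderiv
          have h3 : fderiv ℝ Φ z (Xf H z) = 0 := by
            have a := (hasFDerivAt_normsq z).prodMk ((hH.diffAt hz).hasFDerivAt.fun_add
              ((hd.differentiable (by simp) z).hasFDerivAt.pow 2))
            rw [a.fderiv]
            have b := hHi.inner_Xf_fst hH hz
            have c := hHi.inner_Xf_dil hH hz
            have d := pb_self H z
            rw [pb] at d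
            simp [b, d, fderiv_dil, c]
          have : χ = G ∘ Φ := rfl
          rw [this, h2, ContinuousLinearMap.comp_apply, h3, map_zero]
        rw [Xf, J_apply] at hpb
        simp only [map_sum, map_sub, map_smul, smul_eq_mul] at hpb
        simp only [Fintype.sum_sum_type, Sum.elim_inl, Sum.elim_inr, map_neg, hD,
          ← Finset.sum_add_distrib]
        rw [← hpb]
        refine Finset.sum_congr rfl fun i _ => ?_
        rw [hH.symm hz, neg_apply]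
        ring
      · refine Finset.sum_eq_zero fun i _ => ?_
        have : ∀ g : Ph → ℝ, fderiv ℝ (fun z => χ z * g z) z = 0 := fun g => by
          rw [Filter.EventuallyEq.fderiv_eq (f := fun _ => (0 : ℝ))
            ((hχ0 z hz).mono fun w hw => by simp [hw])]
          simp
        rcases i with i | i <;> simp [this]
  · obtain ⟨h1, h2⟩ := cutR H hH
    obtain ⟨C, hC⟩ := (h1.fderiv_right (m := ∞) le_rfl).lipschitzWith_of_hasCompactSupport
      (h2.fderiv ℝ) (by simp)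
    refine ⟨_, C, h1.differentiable (by simp), hC, fun z hz => ?_⟩
    apply Filter.EventuallyEq.fderiv_eq
    filter_upwards [(isOpen_Om hH E₀).mem_nhds hz] with w hw
    rw [hχ1 w hw, one_mul]

namespace Flo

variable {H : Ph → ℝ} {E₀ : ℝ} {X : Ph → Ph} {φ : ℝ → Ph → Ph} {L M : ℝ≥0}

lemma normsq (h : Flo H E₀ X φ L M) (z : Ph) (t : ℝ) : ‖(φ t z).1‖ ^ 2 = ‖z.1‖ ^ 2 := by
  refine h.bf.conserved (f := fun z : Ph => ‖z.1‖ ^ 2)
    (fun _ => (hasFDerivAt_normsq _).differentiableAt) (fun s => ?_) t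
  by_cases hz : φ s z ∈ W
  · obtain ⟨χ, -, hχ⟩ := h.cut
    rw [hχ _ hz, map_smul, fderiv_normsq, h.inv.inner_Xf_fst h.sm hz]; simp
  · rw [h.out _ hz, map_zero]

lemma norm_eq (h : Flo H E₀ X φ L M) (z : Ph) (t : ℝ) : ‖(φ t z).1‖ = ‖z.1‖ :=
  (pow_left_inj₀ (norm_nonneg _) (norm_nonneg _) two_ne_zero).1 (h.normsq z t)

lemma mem_W (h : Flo H E₀ X φ L M) {z : Ph} (hz : z ∈ W) (t : ℝ) : φ t z ∈ W := by
  intro h0
  have := h.norm_eq z t
  rw [h0, norm_zero] at this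
  exact hz (norm_eq_zero.1 this.symm)

lemma cons (h : Flo H E₀ X φ L M) {f : Ph → ℝ} (hf : Sm f) (h0 : ∀ z ∈ W, pb f H z = 0)
    {z : Ph} (hz : z ∈ W) (t : ℝ) : f (φ t z) = f z := by
  refine h.bf.conserved (fun s => hf.diffAt (h.mem_W hz s)) (fun s => ?_) t
  obtain ⟨χ, -, hχ⟩ := h.cut
  rw [hχ _ (h.mem_W hz s), map_smul]
  have := h0 _ (h.mem_W hz s)
  rw [pb] at this
  rw [this, smul_zero]

lemma energy (h : Flo H E₀ X φ L M) {z : Ph} (hz : z ∈ W) (t : ℝ) : H (φ t z) = H z :=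
  h.cons h.sm (fun z _ => pb_self H z) hz t

lemma dil (h : Flo H E₀ X φ L M) {z : Ph} (hz : z ∈ W) (t : ℝ) :
    ⟪(φ t z).1, (φ t z).2⟫ = ⟪z.1, z.2⟫ :=
  h.cons (f := fun z => ⟪z.1, z.2⟫) (contDiff_fst.inner ℝ contDiff_snd).contDiffOn
    (fun w hw => by rw [pb, fderiv_dil]; exact h.inv.inner_Xf_dil h.sm hw) hz t

lemma mem_Om (h : Flo H E₀ X φ L M) {z : Ph} (hz : z ∈ Om H E₀) (t : ℝ) : φ t z ∈ Om H E₀ := by
  simp only [Om, mem_ofPred_eq, h.normsq, h.energy (Om_sub_W hz), h.dil (Om_sub_W hz)]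
  exact hz

end Flo

end Pool.Agent.P.MP_75a63e_an
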