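import Pool.Agent.P.MP_75a63e_an.Geo

/-! Killing tensors: unique continuation and finite order of vanishing. -/

open Set Filter Topology Metric MeasureTheory Polynomial
open scoped NNReal RealInnerProductSpace ContDiff

namespace Pool.Agent.P.MP_75a63e_an

/-- homogeneous polynomial integral of the geodesic flow -/
structure Kill (K : Ph → ℝ) (k : ℕ) (f : Ph → ℝ) : Prop where
  ph : PH k f
  inv : Inv f
  int : ∀ z ∈ W, pb f K z = 0

lemma Inv.eq_zero_of_sphere {f : Ph → ℝ} (hf : Inv f) (h : ∀ y : V, ‖y‖ = 1 → ∀ P, f (y, P) = 0) :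
    ∀ z ∈ W, f z = 0 := fun z hz => by
  rw [← hf.normalize hz]; exact h _ (normalize_mem hz) _

lemma Kill.uc {K : Ph → ℝ} (hK : Kin K) {k : ℕ} {f : Ph → ℝ} (hf : Kill K k f) {w : V}
    (hw : ‖w‖ = 1) (h : ∀ᶠ y in 𝓝 w, ‖y‖ = 1 → ∀ P, f (y, P) = 0) : ∀ z ∈ W, f z = 0 := by
  obtain ⟨X, ψ, L, M, hF⟩ := hK.exists_flo
  refine hf.inv.eq_zero_of_sphere (sphere_spread (Z := {y | ∀ P, f (y, P) = 0}) ?_ hw h)
  intro x₀ hx
  obtain ⟨δ, hδ, hδ'⟩ := geo_ball hK hF hx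
  refine ⟨δ, hδ, ?_⟩
  rintro ⟨u, hu, hu1, hu2⟩ y hy hy1
  obtain ⟨P, -, hP⟩ := hδ' y u hy1 hu1 hy hu
  have hy0 := ne_zero_of_norm_one hy1
  refine hf.ph.rp.fibre_eq_zero hy0 (P₀ := P) ?_
  have hc : ContinuousAt (fun P' : V => (ψ 1 (y, P')).1) P :=
    (continuous_fst.comp ((hF.bf.continuous_space 1).comp (by fun_prop))).continuousAt
  rw [← hP] at hu2
  filter_upwards [hc.eventually hu2] with P' hP'
  rw [← hF.cons hf.ph.sm hf.int (z := (y, P')) hy0 1]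
  exact hP' (by rw [hF.norm_eq, hy1]) _

lemma exists_top {K U f : Ph → ℝ} (hK : PH 2 K) (hU : PH 0 U) (hf : Sm f)
    {g : ℕ → Ph → ℝ} (hg : ∀ j, Sm (g j)) (hi : ∀ z ∈ W, pb f (fun z => K z + U z) z = 0) (n : ℕ)
    (h : ∀ z ∈ W, ∀ s, f (sc s z) = ∑ j ∈ Finset.range n, s ^ j * g j z) :
    (∀ z ∈ W, f z = 0) ∨ ∃ k < n, (∀ z ∈ W, pb (g k) K z = 0) ∧ ∃ z ∈ W, g k z ≠ 0 := by
  induction n with
  | zero => left; intro z hz; simpa using h z hz 1
  | succ n ih =>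
    by_cases h0 : ∀ z ∈ W, g n z = 0
    · rcases ih (fun z hz s => by rw [h z hz s, Finset.sum_range_succ, h0 z hz]; simp) with
        h1 | ⟨k, hk, h1⟩
      · exact Or.inl h1
      · exact Or.inr ⟨k, by omega, h1⟩
    · push Not at h0
      exact Or.inr ⟨n, by omega, top_part hK hU hf hg h hi, h0⟩

/-- polynomial integral of the natural system -/
structure Integ (H : Ph → ℝ) (N : ℕ) (f : Ph → ℝ) : Prop where
  rp : RP N f
  inv : Inv f
  int : ∀ z ∈ W, pb f H z = 0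

lemma Integ.descend {K U f : Ph → ℝ} (hK : Kin K) (hU : Pot U) {N : ℕ}
    (hf : Integ (fun z => K z + U z) N f) {Z : Set V} (hZ0 : ∀ y ∈ Z, y ≠ 0)
    (hZ : ∀ k ≤ N, ∀ g, Kill K k g → (∀ y ∈ Z, ∀ P, g (y, P) = 0) → ∀ z ∈ W, g z = 0)
    (h : ∀ y ∈ Z, ∀ P, f (y, P) = 0) : ∀ z ∈ W, f z = 0 := by
  obtain ⟨g, hg, hg', hg''⟩ := hf.rp.parts
  rcases exists_top hK.ph hU.ph hf.rp.sm (fun j => (hg j).sm) hf.int _ hg' with
    h1 | ⟨k, hk, h1, z, hz, h2⟩
  · exact h1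
  · refine absurd (hZ k (by omega) (g k) ⟨hg k, hg'' hf.inv k, h1⟩ (fun y hy P => ?_) z hz) h2
    refine parts_eq_zero (c := fun j => g j (y, P)) (fun s => ?_) k hk
    rw [← hg' (y, P) (hZ0 y hy) s]
    exact h y hy _

/-- unique continuation for polynomial integrals -/
lemma Integ.eq_zero {K U f : Ph → ℝ} (hK : Kin K) (hU : Pot U) {N : ℕ}
    (hf : Integ (fun z => K z + U z) N f) {z₀ : Ph} (hz₀ : z₀ ∈ W) (h : ∀ᶠ z in 𝓝 z₀, f z = 0) :
    ∀ z ∈ W, f z = 0 := by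
  have hn : 0 < ‖z₀.1‖ := norm_pos_iff.2 hz₀
  have h1 : ∀ᶠ q in 𝓝 z₀.1, ∀ P, f (q, P) = 0 := by
    have : ∀ᶠ z in 𝓝 (z₀.1, z₀.2), f z = 0 := h
    rw [nhds_prod_eq] at this
    obtain ⟨A, hA, B, hB, hAB⟩ := eventually_prod_iff.1 this
    filter_upwards [hA, eventually_ne_nhds hz₀] with q hq hq0
    exact hf.rp.fibre_eq_zero hq0 (hB.mono fun P hP => hAB hq hP)
  have h2 : ∀ᶠ y in 𝓝 (‖z₀.1‖⁻¹ • z₀.1), ∀ P, f (‖z₀.1‖ • y, P) = 0 := by
    refine (show ContinuousAt (fun y : V => ‖z₀.1‖ • y) _ by fun_prop).eventually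
      (p := fun q => ∀ P, f (q, P) = 0) ?_
    simpa [smul_smul, hn.ne'] using h1
  refine hf.descend hK hU (Z := {y | ‖y‖ = 1 ∧ ∀ P, f (y, P) = 0})
    (fun y hy => ne_zero_of_norm_one hy.1) (fun k _ g hg h0 => ?_) fun y hy => hy.2
  refine hg.uc hK (normalize_mem hz₀) ?_
  filter_upwards [h2] with y hy hy1
  refine h0 y ⟨hy1, fun P => ?_⟩
  rw [← hf.inv _ hn 0 (y, P) (ne_zero_of_norm_one hy1), S_apply]
  exact hy _

lemma Integ.frequently_ne {K U f : Ph → ℝ} (hK : Kin K) (hU : Pot U) {N : ℕ}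
    (hf : Integ (fun z => K z + U z) N f) (h : ∃ z ∈ W, f z ≠ 0) {z₀ : Ph} (hz₀ : z₀ ∈ W) :
    ∃ᶠ z in 𝓝 z₀, f z ≠ 0 := by
  intro h0
  obtain ⟨z, hz, hz'⟩ := h
  exact hz' (hf.eq_zero hK hU hz₀ (by simpa using h0) z hz)

lemma coeff_zero_of_bound (n : ℕ) : ∀ (p : ℝ[X]) (C : ℝ),
    (∀ᶠ t in 𝓝[≠] (0 : ℝ), |p.eval t| ≤ C * |t| ^ n) → ∀ i < n, p.coeff i = 0 := by
  induction n with
  | zero => intro _ _ _ i hi; omega
  | succ n ih =>
    intro p C h i hi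
    have h0 : p.coeff 0 = 0 := by
      rw [coeff_zero_eq_eval_zero, ← abs_nonpos_iff]
      have a : Tendsto (fun t => |p.eval t|) (𝓝[≠] 0) (𝓝 |p.eval 0|) :=
        (p.continuous.abs.tendsto 0).mono_left nhdsWithin_le_nhds
      have b : Tendsto (fun t : ℝ => C * |t| ^ (n + 1)) (𝓝[≠] 0) (𝓝 0) := by
        have : Continuous fun t : ℝ => C * |t| ^ (n + 1) := by fun_prop
        simpa using (this.tendsto 0).mono_left nhdsWithin_le_nhds
      exact le_of_tendsto_of_tendsto a b h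
    rcases i with _ | i
    · exact h0
    · rw [← coeff_divX]
      refine ih p.divX C ?_ i (by omega)
      filter_upwards [h, self_mem_nhdsWithin] with t ht ht0
      rw [← X_mul_divX_add p, h0] at ht
      simp only [map_zero, add_zero, eval_mul, eval_X, abs_mul] at ht
      have : 0 < |t| := abs_pos.2 ht0
      rw [pow_succ] at ht
      nlinarith

lemma taylor_bound {f : Ph → ℝ} (hf : Sm f) {x₀ : V} (hx : ‖x₀‖ = 1) (n : ℕ) (ρ : ℝ) :
    ∃ C ≥ 0, ∀ u P : V, ‖u‖ ≤ 1 / 2 → ‖P‖ ≤ ρ →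
      |f (x₀ + u, P) - ∑ i ∈ Finset.range (n + 1),
        (i.factorial : ℝ)⁻¹ * iteratedFDeriv ℝ i f (x₀, P) fun _ => (u, 0)| ≤ C * ‖u‖ ^ (n + 1) := by
  set B : Set Ph := closedBall x₀ (1 / 2) ×ˢ closedBall 0 ρ with hB
  have hBc : IsCompact B := (isCompact_closedBall _ _).prod (isCompact_closedBall _ _)
  have hBW : B ⊆ W := by
    intro z hz h0
    have := hz.1
    rw [h0, mem_closedBall, dist_zero_left, hx] at this
    norm_num at this
  have hcont : ContinuousOn (iteratedFDeriv ℝ (n + 1) f) B := fun z hz =>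
    (((hf.at (hBW hz)).iteratedFDeriv_right (i := n + 1) (m := 0)
      (by exact_mod_cast le_top)).continuousAt).continuousWithinAt
  obtain ⟨C, hC⟩ := hBc.exists_bound_of_continuousOn hcont
  refine ⟨max C 0, le_max_right _ _, fun u P hu hP => ?_⟩
  have hmem : ∀ t ∈ Icc (0 : ℝ) 1, ((x₀, P) : Ph) + t • ((u, 0) : Ph) ∈ B := by
    intro t ht
    refine ⟨?_, by simpa using hP⟩
    simp only [Prod.smul_mk, Prod.mk_add_mk, mem_closedBall, dist_self_add_left, norm_smul,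
      Real.norm_eq_abs, abs_of_nonneg ht.1]
    nlinarith [ht.1, ht.2, norm_nonneg u]
  have := map_add_eq_sum_add_integral_iteratedFDeriv (f := f) (x := ((x₀, P) : Ph))
    (y := ((u, 0) : Ph)) (n := n) fun t ht => (hf.at (hBW (hmem t ht))).of_le
      (by exact_mod_cast le_top)
  simp only [Prod.mk_add_mk, add_zero, smul_eq_mul] at this
  rw [this, add_sub_cancel_left, abs_mul]
  have h1 : |(n.factorial : ℝ)⁻¹| ≤ 1 := by
    rw [abs_of_pos (by positivity)]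
    exact inv_le_one_of_one_le₀ (by exact_mod_cast n.factorial_pos)
  rw [← one_mul (max C 0 * ‖u‖ ^ (n + 1))]
  refine mul_le_mul h1 ?_ (abs_nonneg _) zero_le_one
  rw [← Real.norm_eq_abs]
  refine (intervalIntegral.norm_integral_le_of_norm_le_const (C := max C 0 * ‖u‖ ^ (n + 1))
    fun t ht => ?_).trans (by simp)
  rw [uIoc_of_le zero_le_one] at ht
  rw [norm_mul, ← one_mul (max C 0 * ‖u‖ ^ (n + 1))]
  refine mul_le_mul ?_ ?_ (norm_nonneg _) zero_le_one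
  · rw [norm_pow, Real.norm_eq_abs, abs_of_nonneg (by linarith [ht.2])]
    exact pow_le_one₀ (by linarith [ht.2]) (by linarith [ht.1])
  · refine (ContinuousMultilinearMap.le_opNorm _ _).trans ?_
    simp only [Prod.norm_mk, norm_zero, norm_nonneg, sup_of_le_left, Finset.prod_const,
      Finset.card_univ, Fintype.card_fin]
    gcongr
    exact (hC _ (hmem t (Ioc_subset_Icc_self ht))).trans (le_max_left _ _)

/-- a Killing tensor of degree `k` whose `k`-jet in the base vanishes at a point is zero -/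
lemma Kill.jet {K : Ph → ℝ} (hK : Kin K) {k : ℕ} {f : Ph → ℝ} (hf : Kill K k f) {x₀ : V}
    (hx : ‖x₀‖ = 1)
    (h : ∀ i ≤ k, ∀ u P : V, iteratedFDeriv ℝ i f (x₀, P) (fun _ => (u, 0)) = 0) :
    ∀ z ∈ W, f z = 0 := by
  obtain ⟨X, ψ, L, M, hF⟩ := hK.exists_flo
  obtain ⟨δ, hδ, hδ'⟩ := geo_ball hK hF hx
  refine hf.uc hK hx ?_
  filter_upwards [ball_mem_nhds x₀ hδ] with y hy hy1 P
  have hy0 := ne_zero_of_norm_one hy1
  obtain ⟨P₀, -, hP₀⟩ := hδ' y x₀ hy1 hx hy (mem_ball_self hδ)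
  obtain ⟨C, hC0, hC⟩ := taylor_bound hf.ph.sm hx k (‖(ψ 1 (y, P₀)).2‖ + 1)
  obtain ⟨g, hg, hg'⟩ := hf.ph.line hy0 P₀ (P - P₀)
  have hc : Continuous fun t : ℝ => ψ 1 (y, P₀ + t • (P - P₀)) :=
    (hF.bf.continuous_space 1).comp (by fun_prop)
  have e1 : ∀ᶠ t : ℝ in 𝓝 0, ‖(ψ 1 (y, P₀ + t • (P - P₀))).1 - x₀‖ < 1 / 2 :=
    ((hc.fst.sub continuous_const).norm.continuousAt (x := 0)).eventually
      (gt_mem_nhds (by simp [hP₀]))
  have e2 : ∀ᶠ t : ℝ in 𝓝 0, ‖(ψ 1 (y, P₀ + t • (P - P₀))).2‖ < ‖(ψ 1 (y, P₀)).2‖ + 1 :=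
    (hc.snd.norm.continuousAt (x := 0)).eventually (gt_mem_nhds (by simp))
  have key := coeff_zero_of_bound (k + 1) g (C * (‖P - P₀‖ * Real.exp L) ^ (k + 1)) (by
    filter_upwards [nhdsWithin_le_nhds e1, nhdsWithin_le_nhds e2] with t t1 t2
    rw [← hg', ← hF.cons hf.ph.sm hf.int (z := (y, P₀ + t • (P - P₀))) hy0 1]
    have a := hC _ _ (le_of_lt t1) (le_of_lt t2)
    rw [Finset.sum_eq_zero (fun i hi => by
      rw [h i (Nat.lt_succ_iff.1 (Finset.mem_range.1 hi)), mul_zero]), add_sub_cancel,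
      sub_zero] at a
    refine a.trans ?_
    rw [mul_assoc, ← mul_pow]
    gcongr
    have b := hF.bf.dist_le (y, P₀ + t • (P - P₀)) (y, P₀) 1
    rw [← hP₀]
    refine (norm_fst_le (ψ 1 (y, P₀ + t • (P - P₀)) - ψ 1 (y, P₀))).trans (b.trans (le_of_eq ?_))
    simp only [Prod.mk_sub_mk, sub_self, add_sub_cancel_left, Prod.norm_mk, norm_zero,
      norm_nonneg, sup_of_le_right, abs_one, mul_one]
    rw [norm_smul, Real.norm_eq_abs]
    ring)
  have hg0 : g = 0 := by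
    ext i
    by_cases hi : i < k + 1
    · exact key i hi
    · exact coeff_eq_zero_of_natDegree_lt (by omega)
  have := hg' 1
  rw [hg0, eval_zero] at this
  simpa using this

end Pool.Agent.P.MP_75a63e_an
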