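import Mathlib

/-! Global flows of bounded Lipschitz vector fields. -/

open Set Filter Topology Metric
open scoped NNReal

namespace Pool.Agent.P.MP_75a63e_an

variable {E : Type*} [NormedAddCommGroup E] [NormedSpace ℝ E]

/-- `φ` is the global flow of the bounded Lipschitz vector field `X`. -/
structure BFlow (X : E → E) (φ : ℝ → E → E) (L M : ℝ≥0) : Prop where
  lip : LipschitzWith L X
  bdd : ∀ z, ‖X z‖ ≤ M
  zero : ∀ z, φ 0 z = z
  deriv : ∀ z t, HasDerivAt (fun s => φ s z) (X (φ t z)) t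

theorem exists_bflow [CompleteSpace E] {X : E → E} {L M : ℝ≥0} (hL : LipschitzWith L X)
    (hM : ∀ z, ‖X z‖ ≤ M) : ∃ φ, BFlow X φ L M := by
  have key : ∀ (z : E) (n : ℕ), ∃ α : ℝ → E, α 0 = z ∧
      ∀ t ∈ Ioo (-(n : ℝ) - 1) (n + 1), HasDerivAt α (X (α t)) t := by
    intro z n
    have h0 : (0 : ℝ) ∈ Icc (-(n : ℝ) - 1) (n + 1) := by
      constructor
      · have : (0 : ℝ) ≤ n := Nat.cast_nonneg n
        linarith
      · positivity
    have hp : IsPicardLindelof (fun _ => X) (tmin := -(n : ℝ) - 1) (tmax := n + 1) ⟨0, h0⟩ z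
        (M * (n + 1)) 0 M L := by
      refine ⟨fun _ _ => hL.lipschitzOnWith, fun _ _ => continuousOn_const, fun _ _ x _ => hM x, ?_⟩
      simp only [sub_zero, zero_sub, NNReal.coe_mul, NNReal.coe_add, NNReal.coe_natCast,
        NNReal.coe_one, NNReal.coe_zero]
      have : -(-(n : ℝ) - 1) = n + 1 := by ring
      rw [this, max_self]
    obtain ⟨α, h1, h2⟩ := hp.exists_eq_forall_mem_Icc_hasDerivWithinAt₀
    refine ⟨α, h1, fun t ht => ?_⟩
    exact (h2 t (Ioo_subset_Icc_self ht)).hasDerivAt (Icc_mem_nhds ht.1 ht.2)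
  choose α hα0 hα using key
  have agree : ∀ z (n m : ℕ), n ≤ m → EqOn (α z n) (α z m) (Ioo (-(n : ℝ) - 1) (n + 1)) := by
    intro z n m hnm
    have hnm' : (n : ℝ) ≤ m := by exact_mod_cast hnm
    have h0 : (0 : ℝ) ∈ Ioo (-(n : ℝ) - 1) (n + 1) := by
      constructor
      · have : (0 : ℝ) ≤ n := Nat.cast_nonneg n
        linarith
      · positivity
    refine ODE_solution_unique_of_mem_Ioo (v := fun _ => X) (s := fun _ => univ) (K := L)
      (fun _ _ => hL.lipschitzOnWith) h0 (fun t ht => ⟨hα z n t ht, trivial⟩)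
      (fun t ht => ⟨hα z m t ⟨by linarith [ht.1], by linarith [ht.2]⟩, trivial⟩) ?_
    rw [hα0, hα0]
  have agree' : ∀ z (n : ℕ) (t : ℝ), |t| < n + 1 → α z ⌊|t|⌋₊ t = α z n t := by
    intro z n t ht
    have h1 : ⌊|t|⌋₊ ≤ n := by
      have : ⌊|t|⌋₊ < n + 1 := by
        rw [Nat.floor_lt (abs_nonneg t)]; exact_mod_cast ht
      omega
    apply agree z _ _ h1
    have := Nat.lt_floor_add_one |t|
    constructor
    · linarith [neg_abs_le t]
    · linarith [le_abs_self t]
  refine ⟨fun t z => α z ⌊|t|⌋₊ t, hL, hM, fun z => by simp [hα0], fun z t => ?_⟩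
  have ht : |t| < (⌊|t|⌋₊ : ℝ) + 1 := Nat.lt_floor_add_one |t|
  have hev : (fun s => α z ⌊|s|⌋₊ s) =ᶠ[𝓝 t] α z ⌊|t|⌋₊ := by
    have : ∀ᶠ s in 𝓝 t, |s| < (⌊|t|⌋₊ : ℝ) + 1 :=
      (continuous_abs.tendsto t).eventually (gt_mem_nhds ht)
    filter_upwards [this] with s hs using agree' z _ s hs
  refine (hα z _ t ⟨?_, ?_⟩).congr_of_eventuallyEq hev
  · linarith [neg_abs_le t]
  · linarith [le_abs_self t]

namespace BFlow

variable {X : E → E} {φ : ℝ → E → E} {L M : ℝ≥0}

lemma unique (h : BFlow X φ L M) {γ : ℝ → E} (hγ : ∀ t, HasDerivAt γ (X (γ t)) t) (t : ℝ) :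
    γ t = φ t (γ 0) := by
  have := ODE_solution_unique_univ (v := fun _ => X) (s := fun _ => univ) (K := L) (t₀ := 0)
    (f := γ) (g := fun s => φ s (γ 0)) (fun _ => h.lip.lipschitzOnWith)
    (fun t => ⟨hγ t, trivial⟩) (fun t => ⟨h.deriv _ t, trivial⟩) (by simp [h.zero])
  exact congrFun this t

lemma add (h : BFlow X φ L M) (s t : ℝ) (z : E) : φ (s + t) z = φ s (φ t z) := by
  have := h.unique (γ := fun s => φ (s + t) z) (fun s => by
    simpa using (h.deriv z (s + t)).comp_add_const s t) s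
  simpa using this

lemma neg_apply (h : BFlow X φ L M) (t : ℝ) (z : E) : φ (-t) (φ t z) = z := by
  rw [← h.add]; simp [h.zero]

lemma apply_neg (h : BFlow X φ L M) (t : ℝ) (z : E) : φ t (φ (-t) z) = z := by
  rw [← h.add]; simp [h.zero]

lemma continuous_time (h : BFlow X φ L M) (z : E) : Continuous fun t => φ t z :=
  continuous_iff_continuousAt.2 fun t => (h.deriv z t).continuousAt

lemma fixed (h : BFlow X φ L M) {z : E} (hz : X z = 0) (t : ℝ) : φ t z = z := by
  have := h.unique (γ := fun _ => z) (fun s => by rw [hz]; exact hasDerivAt_const s z) t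
  exact this.symm

lemma dist_time (h : BFlow X φ L M) (z : E) (s t : ℝ) : ‖φ s z - φ t z‖ ≤ M * |s - t| := by
  have := (convex_univ (𝕜 := ℝ) (E := ℝ)).norm_image_sub_le_of_norm_hasDerivWithin_le
    (f := fun s => φ s z) (f' := fun s => X (φ s z)) (C := M)
    (fun x _ => (h.deriv z x).hasDerivWithinAt) (fun x _ => h.bdd _) (mem_univ t) (mem_univ s)
  simpa using this

/-- the time-reversed flow -/
lemma rev (h : BFlow X φ L M) : BFlow (fun z => -X z) (fun t z => φ (-t) z) L M where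
  lip := h.lip.neg
  bdd := fun z => by simpa using h.bdd z
  zero := fun z => by simp [h.zero]
  deriv := fun z t => by
    have := (h.deriv z (-t)).scomp t (hasDerivAt_neg t)
    simpa [Function.comp_def] using this

lemma dist_le_of_nonneg (h : BFlow X φ L M) (z w : E) {t : ℝ} (ht : 0 ≤ t) :
    ‖φ t z - φ t w‖ ≤ ‖z - w‖ * Real.exp (L * t) := by
  have := dist_le_of_trajectories_ODE (v := fun _ => X) (K := L) (a := 0) (b := t)
    (f := fun s => φ s z) (g := fun s => φ s w) (δ := ‖z - w‖) (fun _ => h.lip)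
    (h.continuous_time z).continuousOn (fun s _ => (h.deriv z s).hasDerivWithinAt)
    (h.continuous_time w).continuousOn (fun s _ => (h.deriv w s).hasDerivWithinAt)
    (by simp [h.zero, dist_eq_norm]) t ⟨ht, le_rfl⟩
  simpa [dist_eq_norm] using this

lemma dist_le (h : BFlow X φ L M) (z w : E) (t : ℝ) :
    ‖φ t z - φ t w‖ ≤ ‖z - w‖ * Real.exp (L * |t|) := by
  rcases le_total 0 t with ht | ht
  · rw [abs_of_nonneg ht]; exact h.dist_le_of_nonneg z w ht
  · rw [abs_of_nonpos ht]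
    have := h.rev.dist_le_of_nonneg z w (t := -t) (by linarith)
    simpa using this

lemma lipschitz (h : BFlow X φ L M) (t : ℝ) :
    LipschitzWith (Real.toNNReal (Real.exp (L * |t|))) (φ t) := by
  refine LipschitzWith.of_dist_le_mul fun z w => ?_
  rw [dist_eq_norm, dist_eq_norm, Real.coe_toNNReal _ (Real.exp_pos _).le, mul_comm]
  exact h.dist_le z w t

lemma continuous_space (h : BFlow X φ L M) (t : ℝ) : Continuous (φ t) :=
  (h.lipschitz t).continuous

lemma continuous (h : BFlow X φ L M) : Continuous fun p : ℝ × E => φ p.1 p.2 := by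
  rw [continuous_iff_continuousAt]
  rintro ⟨t, z⟩
  rw [ContinuousAt, tendsto_iff_norm_sub_tendsto_zero]
  have hb : ∀ p : ℝ × E, ‖φ p.1 p.2 - φ t z‖ ≤ M * |p.1 - t| + ‖p.2 - z‖ * Real.exp (L * |t|) := by
    intro p
    calc ‖φ p.1 p.2 - φ t z‖ = ‖(φ p.1 p.2 - φ t p.2) + (φ t p.2 - φ t z)‖ := by congr 1; abel
      _ ≤ ‖φ p.1 p.2 - φ t p.2‖ + ‖φ t p.2 - φ t z‖ := norm_add_le _ _
      _ ≤ _ := add_le_add (h.dist_time _ _ _) (h.dist_le _ _ _)
  refine squeeze_zero (fun _ => norm_nonneg _) hb ?_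
  have : Continuous fun p : ℝ × E => M * |p.1 - t| + ‖p.2 - z‖ * Real.exp (L * |t|) := by
    fun_prop
  simpa using this.tendsto (t, z)

lemma continuous_comp (h : BFlow X φ L M) {α : Type*} [TopologicalSpace α] {τ : α → ℝ}
    {z : α → E} (hτ : Continuous τ) (hz : Continuous z) : Continuous fun a => φ (τ a) (z a) :=
  h.continuous.comp (hτ.prodMk hz)

lemma conserved (h : BFlow X φ L M) {F : Type*} [NormedAddCommGroup F] [NormedSpace ℝ F]
    {f : E → F} {z : E} (hf : ∀ t, DifferentiableAt ℝ f (φ t z))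
    (h0 : ∀ t, fderiv ℝ f (φ t z) (X (φ t z)) = 0) (t : ℝ) : f (φ t z) = f z := by
  have hd : ∀ s, HasDerivAt (fun s => f (φ s z)) 0 s := fun s => by
    have := (hf s).hasFDerivAt.comp_hasDerivAt s (h.deriv z s)
    rwa [h0] at this
  have := is_const_of_deriv_eq_zero (f := fun s => f (φ s z))
    (fun s => (hd s).differentiableAt) (fun s => (hd s).deriv) t 0
  simpa [h.zero] using this

/-- time change -/
lemma time_change (h : BFlow X φ L M) {γ : ℝ → E} {ρ : ℝ → ℝ} (hρ : Continuous ρ)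
    (hγ : ∀ t, HasDerivAt γ (ρ t • X (γ t)) t) {t : ℝ} (ht : 0 ≤ t) :
    γ t = φ (∫ s in (0 : ℝ)..t, ρ s) (γ 0) := by
  obtain ⟨C, hC⟩ := (isCompact_Icc (a := (0 : ℝ)) (b := t)).exists_bound_of_continuousOn
    hρ.continuousOn
  have hw : ∀ u, HasDerivAt (fun u => φ (∫ s in (0 : ℝ)..u, ρ s) (γ 0))
      (ρ u • X (φ (∫ s in (0 : ℝ)..u, ρ s) (γ 0))) u := by
    intro u
    exact (h.deriv (γ 0) _).scomp u (hρ.deriv_integral ρ 0 u ▸
      (intervalIntegral.integral_hasDerivAt_right (hρ.intervalIntegrable _ _)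
        (hρ.stronglyMeasurableAtFilter _ _) hρ.continuousAt).differentiableAt.hasDerivAt)
  have hC0 : 0 ≤ C := le_trans (norm_nonneg _) (hC 0 ⟨le_rfl, ht⟩)
  refine ODE_solution_unique_of_mem_Icc_right (v := fun u z => ρ u • X z) (s := fun _ => univ)
    (K := C.toNNReal * L) (a := 0) (b := t) (f := γ)
    (g := fun u => φ (∫ s in (0 : ℝ)..u, ρ s) (γ 0)) ?_
    (fun u _ => (hγ u).continuousAt.continuousWithinAt) (fun u _ => (hγ u).hasDerivWithinAt)
    (fun _ _ => trivial) (fun u _ => (hw u).continuousAt.continuousWithinAt)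
    (fun u _ => (hw u).hasDerivWithinAt) (fun _ _ => trivial) (by simp [h.zero]) ⟨ht, le_rfl⟩
  intro u hu
  refine (LipschitzWith.of_dist_le_mul fun z w => ?_).lipschitzOnWith
  rw [dist_eq_norm, ← smul_sub, norm_smul, NNReal.coe_mul, Real.coe_toNNReal _ hC0, mul_assoc]
  refine mul_le_mul (hC u (Ico_subset_Icc_self hu)) ?_ (norm_nonneg _) hC0
  rw [← dist_eq_norm]; exact h.lip.dist_le_mul z w

/-- strict derivative of the time-one map at an equilibrium with nilpotent linearisation -/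
lemma hasStrictFDerivAt_one (h : BFlow X φ L M) {z₀ : E} (hz : X z₀ = 0) {N : E →L[ℝ] E}
    (hN : HasStrictFDerivAt X N z₀) (hNN : ∀ v, N (N v) = 0) :
    HasStrictFDerivAt (φ 1) (ContinuousLinearMap.id ℝ E + N) z₀ := by
  rw [hasStrictFDerivAt_iff_isLittleO, Asymptotics.isLittleO_iff]
  intro c hc
  set A : ℝ := Real.exp L with hA
  have hApos : 0 < A := Real.exp_pos _
  set B : ℝ := gronwallBound 0 ‖N‖₊ 1 1 + 1 with hB
  have hgb : ∀ ε : ℝ, gronwallBound 0 ‖N‖₊ ε 1 = ε * gronwallBound 0 ‖N‖₊ 1 1 := by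
    intro ε
    by_cases hK : ((‖N‖₊ : ℝ≥0) : ℝ) = 0
    · rw [hK, gronwallBound_K0, gronwallBound_K0]; simp
    · rw [gronwallBound_of_K_ne_0 hK, gronwallBound_of_K_ne_0 hK]; ring
  have hg0 : 0 ≤ gronwallBound 0 ‖N‖₊ 1 1 := by
    have := gronwallBound_mono (δ := 0) (K := ‖N‖₊) (ε := 1) le_rfl zero_le_one (by positivity)
      (zero_le_one (α := ℝ))
    rwa [gronwallBound_x0] at this
  have hBpos : 0 < B := by linarith
  have hc' : 0 < c / (A * B) := by positivity
  have h1 := (Asymptotics.isLittleO_iff.1 hN.isLittleO) hc'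
  rw [nhds_prod_eq] at h1
  obtain ⟨S, hS, hS'⟩ := (Filter.eventually_prod_self_iff
    (r := fun x y => ‖X x - X y - N (x - y)‖ ≤ c / (A * B) * ‖x - y‖)).1 h1
  obtain ⟨δ, hδ, hδS⟩ := Metric.mem_nhds_iff.1 hS
  have hball : ∀ᶠ z in 𝓝 z₀, ∀ t ∈ Icc (0 : ℝ) 1, φ t z ∈ S := by
    filter_upwards [ball_mem_nhds z₀ (show 0 < δ / A by positivity)] with z hz' t ht
    apply hδS
    rw [mem_ball, dist_eq_norm] at hz' ⊢
    have := h.dist_le_of_nonneg z z₀ ht.1
    rw [h.fixed hz] at this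
    have h2 : Real.exp (L * t) ≤ A := by
      apply Real.exp_le_exp.2
      nlinarith [ht.2, L.coe_nonneg]
    calc ‖φ t z - z₀‖ ≤ ‖z - z₀‖ * A := this.trans (by gcongr)
      _ < δ / A * A := by gcongr
      _ = δ := by field_simp
  rw [nhds_prod_eq]
  filter_upwards [hball.prod_mk hball] with p hp
  obtain ⟨hp1, hp2⟩ := hp
  set d := p.1 - p.2 with hd
  have key := dist_le_of_approx_trajectories_ODE (v := fun _ => N) (K := ‖N‖₊) (a := 0) (b := 1)
    (f := fun t => φ t p.1 - φ t p.2) (g := fun t => d + t • N d)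
    (f' := fun t => X (φ t p.1) - X (φ t p.2)) (g' := fun _ => N d) (δ := 0)
    (εf := c / (A * B) * (‖d‖ * A)) (εg := 0) (fun _ => N.lipschitz)
    ((h.continuous_time _).sub (h.continuous_time _)).continuousOn
    (fun t _ => ((h.deriv _ t).sub (h.deriv _ t)).hasDerivWithinAt) ?_ (by fun_prop) ?_ ?_
    (by simp [h.zero, hd]) 1 ⟨zero_le_one, le_rfl⟩
  · rw [dist_eq_norm, sub_zero, add_zero, hgb] at key
    simp only [one_smul] at key
    have : ‖φ 1 p.1 - φ 1 p.2 - (ContinuousLinearMap.id ℝ E + N) (p.1 - p.2)‖ =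
        ‖φ 1 p.1 - φ 1 p.2 - (d + N d)‖ := by simp [hd]
    rw [this]
    refine key.trans ?_
    have : c / (A * B) * (‖d‖ * A) * B = c * ‖d‖ := by field_simp
    rw [← this]
    gcongr
    linarith
  · intro t ht
    rw [dist_eq_norm]
    refine (hS' _ (hp1 t (Ico_subset_Icc_self ht)) _ (hp2 t (Ico_subset_Icc_self ht))).trans ?_
    gcongr
    refine (h.dist_le_of_nonneg _ _ ht.1).trans ?_
    gcongr
    apply Real.exp_le_exp.2
    nlinarith [ht.2, L.coe_nonneg]
  · intro t _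
    simpa using (((hasDerivAt_id t).smul_const (N d)).const_add d).hasDerivWithinAt
  · intro t _
    simp [hNN]

end BFlow

end Pool.Agent.P.MP_75a63e_an
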