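import Pool.Agent.P.MP_75a63e_an.Cutoff

/-! Local geodesic connectivity. -/

open Set Filter Topology Metric MeasureTheory
open scoped NNReal RealInnerProductSpace ContDiff

namespace Pool.Agent.P.MP_75a63e_an

lemma PH.Xf_zero {K : Ph → ℝ} (hK : PH 2 K) {q : V} (hq : q ≠ 0) : Xf K (q, 0) = 0 := by
  have h := hK.Xf_sc 2 (z := (q, 0)) hq
  simp only [sc_apply, smul_zero] at h
  have h1 := congrArg Prod.fst h
  have h2 := congrArg Prod.snd h
  simp only [Prod.smul_fst, Prod.smul_snd] at h1 h2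
  ext1
  · have : (2 : ℝ) • (Xf K (q, 0)).1 = 0 := by
      have e : ((2 : ℝ) ^ 2) • (Xf K (q, 0)).1 = (2 : ℝ) • (Xf K (q, 0)).1 +
        (2 : ℝ) • (Xf K (q, 0)).1 := by rw [← add_smul]; norm_num
      rw [e] at h1
      exact left_eq_add.1 h1
    simpa using this
  · have : (3 : ℝ) • (Xf K (q, 0)).2 = 0 := by
      have e : ((2 : ℝ) ^ 2) • (Xf K (q, 0)).2 = (Xf K (q, 0)).2 +
        (3 : ℝ) • (Xf K (q, 0)).2 := by
          conv_rhs => rw [← one_smul ℝ (Xf K (q, 0)).2, smul_smul, ← add_smul]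
          norm_num
      rw [e] at h2
      exact left_eq_add.1 h2
    simpa using this

lemma PH.Xf_sc_two {K : Ph → ℝ} (hK : PH 2 K) (s : ℝ) {z : Ph} (hz : z ∈ W) :
    Xf K (sc s z) = (s • (Xf K z).1, s ^ 2 • (Xf K z).2) := by
  by_cases hs : s = 0
  · subst hs
    simp only [sc_apply, zero_smul]
    rw [hK.Xf_zero hz]
    simp [Prod.ext_iff]
  · have h := hK.Xf_sc s hz
    have h1 := congrArg Prod.fst h
    have h2 := congrArg Prod.snd h
    simp only [Prod.smul_fst, Prod.smul_snd] at h1 h2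
    refine Prod.ext ?_ h2
    rw [pow_two, mul_smul] at h1
    exact smul_right_injective V hs h1

lemma PH.fderiv_Xf {K : Ph → ℝ} (hK : PH 2 K) {q : V} (hq : q ≠ 0) (v : Ph) :
    fderiv ℝ (Xf K) (q, 0) v = ((Xf K (q, v.2)).1, 0) := by
  have hd : HasFDerivAt (Xf K) (fderiv ℝ (Xf K) (q, 0)) (q, 0) :=
    ((hK.sm.Xf.contDiffAt (W_mem_nhds hq)).differentiableAt (by simp)).hasFDerivAt
  have h1 : fderiv ℝ (Xf K) (q, 0) (v.1, 0) = 0 := by
    have a : HasDerivAt (fun t : ℝ => ((q + t • v.1, 0) : Ph)) (v.1, 0) 0 := by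
      simpa using (((hasDerivAt_id (0 : ℝ)).smul_const v.1).const_add q).prodMk
        (hasDerivAt_const (0 : ℝ) (0 : V))
    have b := HasFDerivAt.comp_hasDerivAt_of_eq (0 : ℝ) hd a (by simp)
    have c : (Xf K ∘ fun t : ℝ => ((q + t • v.1, 0) : Ph)) =ᶠ[𝓝 0] fun _ => 0 := by
      have : ∀ᶠ t : ℝ in 𝓝 0, q + t • v.1 ≠ 0 :=
        (show ContinuousAt (fun t : ℝ => q + t • v.1) 0 by fun_prop).eventually_ne (by simpa)
      filter_upwards [this] with t ht using hK.Xf_zero ht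
    exact (b.congr_of_eventuallyEq c.symm).unique (hasDerivAt_const _ _)
  have h2 : fderiv ℝ (Xf K) (q, 0) (0, v.2) = ((Xf K (q, v.2)).1, 0) := by
    have a : HasDerivAt (fun t : ℝ => ((q, t • v.2) : Ph)) (0, v.2) 0 := by
      simpa using (hasDerivAt_const (0 : ℝ) q).prodMk ((hasDerivAt_id (0 : ℝ)).smul_const v.2)
    have b := HasFDerivAt.comp_hasDerivAt_of_eq (0 : ℝ) hd a (by simp)
    have c : (Xf K ∘ fun t : ℝ => ((q, t • v.2) : Ph)) =
        fun t => (t • (Xf K (q, v.2)).1, t ^ 2 • (Xf K (q, v.2)).2) :=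
      funext fun t => hK.Xf_sc_two t (z := (q, v.2)) hq
    rw [c] at b
    refine b.unique ?_
    simpa using ((hasDerivAt_id (0 : ℝ)).smul_const (Xf K (q, v.2)).1).prodMk
      ((hasDerivAt_pow 2 (0 : ℝ)).smul_const (Xf K (q, v.2)).2)
  have : v = (v.1, 0) + (0, v.2) := by simp
  conv_lhs => rw [this, map_add, h1, h2, zero_add]

lemma mem_Om_zero {K : Ph → ℝ} (hK : Kin K) {x : V} (hx : ‖x‖ = 1) : ((x, 0) : Ph) ∈ Om K 1 := by
  refine ⟨?_, ?_, ?_⟩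
  · simp only [hx]; norm_num
  · simp only [hx]; norm_num
  · simp [hK.zero (ne_zero_of_norm_one hx)]

lemma Kin.exists_flo {K : Ph → ℝ} (hK : Kin K) : ∃ X φ L M, Flo K 1 X φ L M := by
  simpa using MP_75a63e_an.exists_flo hK Pot.zero 1

lemma Flo.fix_zero {K : Ph → ℝ} (hK : Kin K) {X : Ph → Ph} {ψ : ℝ → Ph → Ph} {L M : ℝ≥0}
    (hF : Flo K 1 X ψ L M) {x : V} (hx : ‖x‖ = 1) (t : ℝ) : ψ t (x, 0) = (x, 0) :=
  hF.bf.fixed (by rw [hF.eq _ (mem_Om_zero hK hx), hK.ph.Xf_zero (ne_zero_of_norm_one hx)]) t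

theorem geo {K : Ph → ℝ} (hK : Kin K) {X : Ph → Ph} {ψ : ℝ → Ph → Ph} {L M : ℝ≥0}
    (hF : Flo K 1 X ψ L M) {x₀ : V} (hx : ‖x₀‖ = 1) :
    ∃ (T : Set Ph) (p : Ph → V), IsOpen T ∧ (x₀, x₀) ∈ T ∧ ContinuousOn p T ∧
      (∀ w ∈ T, ‖w.1‖ = 1 → ‖w.2‖ = 1 → ⟪w.1, p w⟫ = 0 ∧ (ψ 1 (w.1, p w)).1 = w.2) ∧
      ∀ᶠ P in 𝓝 (0 : V), ⟪x₀, P⟫ = 0 →
        (x₀, (ψ 1 (x₀, P)).1) ∈ T ∧ p (x₀, (ψ 1 (x₀, P)).1) = P := by
  have hx0 := ne_zero_of_norm_one hx
  set z₀ : Ph := (x₀, 0) with hz₀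
  have hzO := mem_Om_zero hK hx
  set N := fderiv ℝ (Xf K) z₀ with hN
  have hXN : HasStrictFDerivAt X N z₀ := by
    refine ((hK.ph.sm.Xf.contDiffAt (W_mem_nhds hx0)).hasStrictFDerivAt
      (by simp)).congr_of_eventuallyEq ?_
    filter_upwards [(isOpen_Om hK.ph.sm 1).mem_nhds hzO] with w hw using (hF.eq w hw).symm
  have hNv : ∀ v, N v = ((Xf K (x₀, v.2)).1, 0) := hK.ph.fderiv_Xf hx0
  have h1 := hF.bf.hasStrictFDerivAt_one (z₀ := z₀)
    (by rw [hF.eq _ hzO, hK.ph.Xf_zero hx0]) hXN (fun v => by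
      rw [hNv, hNv]; simp [hK.ph.Xf_zero hx0])
  have hfix : ψ 1 z₀ = z₀ := hF.fix_zero hK hx 1
  set Ξ : Ph → Ph := fun z => (z.1, Real.exp ⟪z.1, z.2⟫ • (ψ 1 z).1) with hΞ
  have hd : ContDiff ℝ ∞ fun z : Ph => ⟪z.1, z.2⟫ := contDiff_fst.inner ℝ contDiff_snd
  have h2 := (hasStrictFDerivAt_fst (𝕜 := ℝ) (p := z₀)).prodMk
    (((hd.contDiffAt (x := z₀)).hasStrictFDerivAt (by simp)).exp.fun_smul h1.fst)
  set D := (ContinuousLinearMap.fst ℝ V V).prod (Real.exp ⟪z₀.1, z₀.2⟫ •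
    (ContinuousLinearMap.fst ℝ V V).comp (ContinuousLinearMap.id ℝ Ph + N) +
    (Real.exp ⟪z₀.1, z₀.2⟫ • fderiv ℝ (fun z : Ph => ⟪z.1, z.2⟫) z₀).smulRight (ψ 1 z₀).1) with hD
  have hinj : Function.Injective (D : Ph →ₗ[ℝ] Ph) := by
    rw [← LinearMap.ker_eq_bot, LinearMap.ker_eq_bot']
    intro v hv
    have hv' : D v = 0 := hv
    simp only [hD, ContinuousLinearMap.prod_apply, ContinuousLinearMap.coe_fst', add_apply,
      ContinuousLinearMap.comp_apply, ContinuousLinearMap.id_apply,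
      ContinuousLinearMap.smulRight_apply, fderiv_dil, hF.fix_zero hK hx, hNv, Prod.mk_eq_zero, hz₀,
      inner_zero_right, Real.exp_zero, one_smul, add_zero, Prod.fst_add] at hv'
    obtain ⟨a, b⟩ := hv'
    rw [a, zero_add] at b
    refine Prod.ext a ?_
    by_contra hne
    have c := hK.pos' hx0 hne
    have d := congrArg (fun u => ⟪u, v.2⟫) b
    simp only [inner_add_left, real_inner_smul_left, inner_zero_left] at d
    have e := hK.ph.euler (z := (x₀, v.2)) hx0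
    rw [← om_Xf] at e
    simp only [om, inner_zero_right, sub_zero, Nat.cast_ofNat] at e
    have f := hK.nonneg (z := (x₀, v.2)) hx0
    nlinarith
  set D' : Ph ≃L[ℝ] Ph := (LinearEquiv.ofInjectiveEndo _ hinj).toContinuousLinearEquiv with hD'
  have h3 : HasStrictFDerivAt Ξ (D' : Ph →L[ℝ] Ph) z₀ := h2
  set E := h3.toOpenPartialHomeomorph Ξ with hE
  have hEc : ∀ z, E z = Ξ z := fun _ => rfl
  have hsrc : z₀ ∈ E.source := h3.mem_toOpenPartialHomeomorph_source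
  refine ⟨E.target, fun w => (E.symm w).2, E.open_target, ?_,
    continuous_snd.comp_continuousOn E.continuousOn_symm, ?_, ?_⟩
  · have := E.map_source hsrc
    rw [hEc] at this
    simpa [hΞ, hz₀, hF.fix_zero hK hx] using this
  · intro w hw hw1 hw2
    have a := E.right_inv hw
    rw [hEc] at a
    have a1 : (E.symm w).1 = w.1 := (Prod.ext_iff.1 a).1
    have a2 : Real.exp ⟪(E.symm w).1, (E.symm w).2⟫ • (ψ 1 (E.symm w)).1 = w.2 :=
      (Prod.ext_iff.1 a).2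
    have a3 := congrArg norm a2
    rw [norm_smul, hF.norm_eq, a1, hw1, hw2, mul_one, Real.norm_eq_abs,
      abs_of_pos (Real.exp_pos _), Real.exp_eq_one_iff] at a3
    refine ⟨a3, ?_⟩
    rw [a1, a3, Real.exp_zero, one_smul] at a2
    rw [← a2, ← a1]
  · have : ∀ᶠ P in 𝓝 (0 : V), ((x₀, P) : Ph) ∈ E.source :=
      (show ContinuousAt (fun P : V => ((x₀, P) : Ph)) 0 by fun_prop).eventually
        (E.open_source.mem_nhds hsrc)
    filter_upwards [this] with P hP hperp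
    have a : E (x₀, P) = (x₀, (ψ 1 (x₀, P)).1) := by simp [hEc, hΞ, hperp]
    rw [← a]
    exact ⟨E.map_source hP, by rw [E.left_inv hP]⟩

/-- any two points of the sphere near `x₀` are joined by a geodesic -/
theorem geo_ball {K : Ph → ℝ} (hK : Kin K) {X : Ph → Ph} {ψ : ℝ → Ph → Ph} {L M : ℝ≥0}
    (hF : Flo K 1 X ψ L M) {x₀ : V} (hx : ‖x₀‖ = 1) : ∃ δ > 0, ∀ y x : V, ‖y‖ = 1 → ‖x‖ = 1 →
      y ∈ ball x₀ δ → x ∈ ball x₀ δ → ∃ P, ⟪y, P⟫ = 0 ∧ (ψ 1 (y, P)).1 = x := by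
  obtain ⟨T, p, hT, h0, -, h1, -⟩ := geo hK hF hx
  obtain ⟨δ, hδ, hδT⟩ := Metric.isOpen_iff.1 hT _ h0
  refine ⟨δ, hδ, fun y x hy hx hyb hxb => ⟨p (y, x), h1 (y, x) (hδT ?_) hy hx⟩⟩
  rw [← ball_prod_same]
  exact ⟨hyb, hxb⟩

/-- propagation along the sphere -/
lemma sphere_spread {Z : Set V}
    (h : ∀ x₀ : V, ‖x₀‖ = 1 → ∃ δ > 0, (∃ w ∈ ball x₀ δ, ‖w‖ = 1 ∧ ∀ᶠ y in 𝓝 w, ‖y‖ = 1 → y ∈ Z) →
      ∀ y ∈ ball x₀ δ, ‖y‖ = 1 → y ∈ Z)
    {w : V} (hw : ‖w‖ = 1) (hZ : ∀ᶠ y in 𝓝 w, ‖y‖ = 1 → y ∈ Z) : ∀ y, ‖y‖ = 1 → y ∈ Z := by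
  set A : Set V := {w | ∀ᶠ y in 𝓝 w, ‖y‖ = 1 → y ∈ Z} with hA
  have hAo : IsOpen A := isOpen_setOfPred_eventually_nhds
  have hpre : IsPreconnected (sphere (0 : V) 1) :=
    isPreconnected_sphere (by rw [← Module.finrank_eq_rank]; simp) _ _
  have hsub : sphere (0 : V) 1 ⊆ A := by
    have hB : IsOpen (closure (A ∩ sphere 0 1))ᶜ := isClosed_closure.isOpen_compl
    have hcov : sphere (0 : V) 1 ⊆ A ∪ (closure (A ∩ sphere 0 1))ᶜ := by
      intro x hx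
      by_cases hc : x ∈ closure (A ∩ sphere 0 1)
      · left
        obtain ⟨δ, hδ, hδ'⟩ := h x (by simpa using hx)
        obtain ⟨u, hu, hu'⟩ := Metric.mem_closure_iff.1 hc δ hδ
        have := hδ' ⟨u, by rwa [mem_ball, dist_comm], by simpa using hu.2, hu.1⟩
        filter_upwards [ball_mem_nhds x hδ] with y hy using this y hy
      · exact Or.inr hc
    by_contra hn
    obtain ⟨x, hx, hxA⟩ := not_subset.1 hn
    obtain ⟨u, hu, hu1, hu2⟩ := hpre A _ hAo hB hcov ⟨w, by simpa using hw, hZ⟩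
      ⟨x, hx, (hcov hx).resolve_left hxA⟩
    exact hu2 (subset_closure ⟨hu1, hu⟩)
  intro y hy
  exact Filter.Eventually.self_of_nhds (hsub (by simpa using hy)) hy

lemma exists_frame {x : V} (hx : ‖x‖ = 1) : ∃ b : OrthonormalBasis (Fin 3) ℝ V, b 0 = x := by
  obtain ⟨b, hb⟩ := Orthonormal.exists_orthonormalBasis_extension_of_card_eq (𝕜 := ℝ) (E := V)
    (ι := Fin 3) (by simp) (v := fun _ => x) (s := {0}) (by
      constructor
      · intro i; simpa using hx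
      · intro i j hij
        exact absurd (Subsingleton.elim i j) hij)
  exact ⟨b, hb 0 rfl⟩

lemma frame_expand (b : OrthonormalBasis (Fin 3) ℝ V) (P : V) :
    P = ⟪b 0, P⟫ • b 0 + ⟪b 1, P⟫ • b 1 + ⟪b 2, P⟫ • b 2 := by
  conv_lhs => rw [← b.sum_repr' P, Fin.sum_univ_three]

end Pool.Agent.P.MP_75a63e_an
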