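import Pool.Agent.P.MP_75a63e_an.Symp

/-! Gordon's relation `dA = T dH` between action and period, and time averages. -/

open Set Filter Topology Metric Asymptotics
open scoped NNReal RealInnerProductSpace ContDiff

namespace Pool.Agent.P.MP_75a63e_an

lemma taylor_lip {E : Type*} [NormedAddCommGroup E] [NormedSpace ℝ E] {H : E → ℝ} {C : ℝ≥0}
    (hH : Differentiable ℝ H) (hl : LipschitzWith C (fderiv ℝ H)) (a b : E) :
    |H b - H a - fderiv ℝ H a (b - a)| ≤ C * ‖b - a‖ ^ 2 := by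
  have := (convex_closedBall a ‖b - a‖).norm_image_sub_le_of_norm_hasFDerivWithin_le'
    (𝕜 := ℝ) (f := H) (f' := fderiv ℝ H) (φ := fderiv ℝ H a) (C := C * ‖b - a‖)
    (fun x _ => (hH x).hasFDerivAt.hasFDerivWithinAt) (fun x hx => by
      rw [← dist_eq_norm]
      refine (hl.dist_le_mul _ _).trans ?_
      gcongr
      exact hx) (mem_closedBall_self (norm_nonneg _)) (y := b) (by simp [dist_eq_norm])
  rw [Real.norm_eq_abs] at this
  refine this.trans (le_of_eq ?_)
  ring

lemma loop_identity {g₀ g₁ d₀ d₁ : ℝ → Ph} (h₀ : ∀ t, HasDerivAt g₀ (d₀ t) t)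
    (h₁ : ∀ t, HasDerivAt g₁ (d₁ t) t) (c₀ : Continuous d₀) (c₁ : Continuous d₁)
    (p₀ : g₀ 1 = g₀ 0) (p₁ : g₁ 1 = g₁ 0) :
    (∫ t in (0 : ℝ)..1, ⟪(g₁ t).2, (d₁ t).1⟫) - ∫ t in (0 : ℝ)..1, ⟪(g₀ t).2, (d₀ t).1⟫ =
      ∫ t in (0 : ℝ)..1, (om (d₀ t) (g₁ t - g₀ t) + ⟪(g₁ t - g₀ t).2, (d₁ t - d₀ t).1⟫) := by
  have k₀ : Continuous g₀ := continuous_iff_continuousAt.2 fun t => (h₀ t).continuousAt
  have k₁ : Continuous g₁ := continuous_iff_continuousAt.2 fun t => (h₁ t).continuousAt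
  have hd : ∀ t, HasDerivAt (fun t => ⟪(g₀ t).2, (g₁ t - g₀ t).1⟫)
      (⟪(g₀ t).2, (d₁ t - d₀ t).1⟫ + ⟪(d₀ t).2, (g₁ t - g₀ t).1⟫) t := by
    intro t
    have a := (ContinuousLinearMap.snd ℝ V V).hasFDerivAt.comp_hasDerivAt t (h₀ t)
    have b := (ContinuousLinearMap.fst ℝ V V).hasFDerivAt.comp_hasDerivAt t ((h₁ t).sub (h₀ t))
    exact a.inner ℝ b
  have hz := intervalIntegral.integral_eq_sub_of_hasDerivAt (a := 0) (b := 1) (fun t _ => hd t)
    (Continuous.intervalIntegrable (by fun_prop) _ _)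
  rw [p₀, p₁, sub_self] at hz
  have hom : Continuous fun t => om (d₀ t) (g₁ t - g₀ t) := by unfold om; fun_prop
  rw [← intervalIntegral.integral_sub (Continuous.intervalIntegrable (by fun_prop) _ _)
    (Continuous.intervalIntegrable (by fun_prop) _ _), ← sub_eq_zero,
    ← intervalIntegral.integral_sub (Continuous.intervalIntegrable (by fun_prop) _ _)
    (Continuous.intervalIntegrable (by fun_prop) _ _), ← hz]
  congr 1
  ext t
  simp only [om, Prod.fst_sub, Prod.snd_sub, inner_sub_left, inner_sub_right]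
  rw [real_inner_comm (d₀ t).1, real_inner_comm (d₀ t).1]
  ring

namespace BFlow

variable {X : Ph → Ph} {φ : ℝ → Ph → Ph} {L M : ℝ≥0}

lemma period_lip (h : BFlow X φ L M) {T : Ph → ℝ} {w : Ph} (hT : ∀ᶠ z in 𝓝 w, φ (T z) z = z)
    (hTc : ContinuousAt T w) (hX0 : X w ≠ 0) :
    (fun z => T z - T w) =O[𝓝 w] fun z => z - w := by
  have hw := hT.self_of_nhds
  have h1 : HasDerivAt (fun s => φ s w) (X w) (T w) := by
    have := h.deriv w (T w)
    rwa [hw] at this
  have h2 : (fun s => s - T w) =O[𝓝 (T w)] fun s => φ s w - φ (T w) w := by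
    have hi : Topology.IsInducing (ContinuousLinearMap.toSpanSingleton ℝ (X w)) := by
      refine AntilipschitzWith.isInducing (K := ‖X w‖₊⁻¹) ?_ (map_continuous _)
      simp [antilipschitzWith_iff_le_mul_dist, dist_eq_norm, ← sub_smul, norm_smul, field]
    exact (h1.hasFDerivAt.isTheta_sub hi).isBigO_symm
  refine (h2.comp_tendsto hTc).trans ?_
  refine IsBigO.of_bound (Real.exp (L * (|T w| + 1)) + 1) ?_
  have h3 : ∀ᶠ z in 𝓝 w, |T z| < |T w| + 1 := hTc.abs.eventually (gt_mem_nhds (by simp))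
  filter_upwards [hT, h3] with z hz hz3
  simp only [Function.comp_apply, hw]
  have h4 := h.dist_le w z (T z)
  rw [hz] at h4
  have h5 : Real.exp (L * |T z|) ≤ Real.exp (L * (|T w| + 1)) := by gcongr
  calc ‖φ (T z) w - w‖ = ‖(φ (T z) w - z) + (z - w)‖ := by congr 1; abel
    _ ≤ ‖φ (T z) w - z‖ + ‖z - w‖ := norm_add_le _ _
    _ ≤ ‖z - w‖ * Real.exp (L * (|T w| + 1)) + ‖z - w‖ := by
      rw [norm_sub_rev w z] at h4
      gcongr
      refine h4.trans ?_
      gcongr
    _ = _ := by ring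

theorem gordon (h : BFlow X φ L M) {R : Set Ph} (hR : IsOpen R) (hinv : ∀ z ∈ R, ∀ t, φ t z ∈ R)
    {H : Ph → ℝ} {C : ℝ≥0} (hH : Differentiable ℝ H) (hl : LipschitzWith C (fderiv ℝ H))
    (hX : ∀ z ∈ R, X z = Xf H z) {T : Ph → ℝ} (hT : ∀ z ∈ R, φ (T z) z = z) {w : Ph}
    (hw : w ∈ R) (hTc : ContinuousAt T w) (hX0 : X w ≠ 0) :
    HasFDerivAt (fun z => ∫ t in (0 : ℝ)..T z, ⟪(φ t z).2, (X (φ t z)).1⟫)
      (T w • fderiv ℝ H w) w := by
  set A : Ph → ℝ := fun z => ∫ t in (0 : ℝ)..T z, ⟪(φ t z).2, (X (φ t z)).1⟫ with hA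
  have hcons : ∀ z ∈ R, ∀ t, H (φ t z) = H z := fun z hz t =>
    h.conserved (fun _ => hH _) (fun s => by rw [hX _ (hinv z hz s)]; exact pb_self _ _) t
  have hRw : ∀ᶠ z in 𝓝 w, z ∈ R := hR.mem_nhds hw
  obtain ⟨c₁, hc₁0, hc₁⟩ := (h.period_lip (hRw.mono hT) hTc hX0).exists_pos
  have hc₁' := hc₁.bound
  set g : Ph → ℝ → Ph := fun z τ => φ (τ * T z) z with hg
  set d : Ph → ℝ → Ph := fun z τ => T z • X (φ (τ * T z) z) with hd
  have hgd : ∀ z τ, HasDerivAt (g z) (d z τ) τ := fun z τ =>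
    HasDerivAt.scomp_of_eq τ (h.deriv z (τ * T z)) (hasDerivAt_mul_const (T z)) rfl
  have hgc : ∀ z, Continuous (g z) := fun z =>
    continuous_iff_continuousAt.2 fun t => (hgd z t).continuousAt
  have hdc : ∀ z, Continuous (d z) := fun z => (h.lip.continuous.comp (hgc z)).const_smul (T z)
  have hAg : ∀ z, A z = ∫ τ in (0 : ℝ)..1, ⟪(g z τ).2, (d z τ).1⟫ := by
    intro z
    have := intervalIntegral.smul_integral_comp_mul_right (a := 0) (b := 1)
      (fun t => ⟪(φ t z).2, (X (φ t z)).1⟫) (T z)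
    simp only [zero_mul, one_mul] at this
    simp only [hA]
    rw [← this, ← intervalIntegral.integral_smul]
    congr 1
    ext τ
    simp [hg, hd, real_inner_smul_right]
  set c₂ : ℝ := M * c₁ + Real.exp (L * |T w|) with hc₂
  set c₃ : ℝ := c₁ * M + |T w| * (L * c₂) with hc₃
  have key : ∀ᶠ z in 𝓝 w, ‖(A z - T w * H z) - (A w - T w * H w)‖ ≤
      (|T w| * (C * c₂ ^ 2) + c₂ * c₃) * ‖z - w‖ ^ 2 := by
    filter_upwards [hRw, hc₁'] with z hz hz1
    have hδ : ∀ τ ∈ Ioc (0 : ℝ) 1, ‖g z τ - g w τ‖ ≤ c₂ * ‖z - w‖ := by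
      intro τ hτ
      have a := h.dist_time z (τ * T z) (τ * T w)
      have b := h.dist_le z w (τ * T w)
      have hτ1 : |τ| ≤ 1 := by rw [abs_of_pos hτ.1]; exact hτ.2
      have a' : |τ * T z - τ * T w| ≤ c₁ * ‖z - w‖ := by
        rw [← mul_sub, abs_mul]
        calc |τ| * |T z - T w| ≤ 1 * (c₁ * ‖z - w‖) := by gcongr; exact hz1
          _ = _ := one_mul _
      have b' : Real.exp (L * |τ * T w|) ≤ Real.exp (L * |T w|) := by
        refine Real.exp_le_exp.2 (mul_le_mul_of_nonneg_left ?_ L.coe_nonneg)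
        rw [abs_mul]
        calc |τ| * |T w| ≤ 1 * |T w| := by gcongr
          _ = _ := one_mul _
      calc ‖g z τ - g w τ‖ = ‖(φ (τ * T z) z - φ (τ * T w) z) +
            (φ (τ * T w) z - φ (τ * T w) w)‖ := by simp only [hg]; congr 1; abel
        _ ≤ _ := norm_add_le _ _
        _ ≤ M * (c₁ * ‖z - w‖) + ‖z - w‖ * Real.exp (L * |T w|) := by
          refine add_le_add (a.trans (by gcongr)) (b.trans (by gcongr))
        _ = _ := by rw [hc₂]; ring
    have hc₂0 : 0 ≤ c₂ := by positivity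
    have hδ' : ∀ τ ∈ Ioc (0 : ℝ) 1, ‖d z τ - d w τ‖ ≤ c₃ * ‖z - w‖ := by
      intro τ hτ
      have e : d z τ - d w τ = (T z - T w) • X (g z τ) + T w • (X (g z τ) - X (g w τ)) := by
        simp only [hd, hg, sub_smul, smul_sub]; abel
      have a : ‖X (g z τ) - X (g w τ)‖ ≤ L * (c₂ * ‖z - w‖) := by
        rw [← dist_eq_norm]
        refine (h.lip.dist_le_mul _ _).trans ?_
        rw [dist_eq_norm]
        gcongr
        exact hδ τ hτ
      rw [e]
      refine (norm_add_le _ _).trans ?_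
      rw [norm_smul, norm_smul, Real.norm_eq_abs (T w)]
      calc _ ≤ c₁ * ‖z - w‖ * M + |T w| * (L * (c₂ * ‖z - w‖)) := by
            gcongr
            exact h.bdd _
        _ = _ := by rw [hc₃]; ring
    have e1 := loop_identity (hgd w) (hgd z) (hdc w) (hdc z) (by simp [hg, hT w hw, h.zero])
      (by simp [hg, hT z hz, h.zero])
    have hom : Continuous fun t => om (d w t) (g z t - g w t) := by
      have := hgc z; have := hgc w; have := hdc w
      unfold om; fun_prop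
    have e2 : (A z - T w * H z) - (A w - T w * H w) = ∫ τ in (0 : ℝ)..1,
        (om (d w τ) (g z τ - g w τ) + ⟪(g z τ - g w τ).2, (d z τ - d w τ).1⟫ -
          T w * (H z - H w)) := by
      rw [intervalIntegral.integral_sub, ← e1, ← hAg, ← hAg]
      · simp; ring
      · have := hgc z; have := hgc w; have := hdc w; have := hdc z
        exact Continuous.intervalIntegrable (by fun_prop) _ _
      · exact intervalIntegrable_const
    rw [e2]
    refine (intervalIntegral.norm_integral_le_of_norm_le_const (C := (|T w| * (C * c₂ ^ 2) +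
      c₂ * c₃) * ‖z - w‖ ^ 2) fun τ hτ => ?_).trans (by simp)
    rw [uIoc_of_le zero_le_one] at hτ
    have f1 : om (d w τ) (g z τ - g w τ) - T w * (H z - H w) =
        -(T w * (H (g z τ) - H (g w τ) - fderiv ℝ H (g w τ) (g z τ - g w τ))) := by
      simp only [hd, om_smul_left]
      rw [hX _ (hinv w hw _), om_Xf]
      simp only [hg]
      rw [hcons z hz, hcons w hw]
      ring
    have f2 := taylor_lip hH hl (g w τ) (g z τ)
    have f3 : |⟪(g z τ - g w τ).2, (d z τ - d w τ).1⟫| ≤ c₂ * ‖z - w‖ * (c₃ * ‖z - w‖) := by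
      refine (abs_real_inner_le_norm _ _).trans ?_
      gcongr
      · exact (norm_snd_le _).trans (hδ τ hτ)
      · exact (norm_fst_le _).trans (hδ' τ hτ)
    have f4 : |T w * (H (g z τ) - H (g w τ) - fderiv ℝ H (g w τ) (g z τ - g w τ))| ≤
        |T w| * (C * (c₂ * ‖z - w‖) ^ 2) := by
      rw [abs_mul]
      gcongr
      refine f2.trans ?_
      gcongr
      exact hδ τ hτ
    rw [Real.norm_eq_abs, add_sub_right_comm, f1]
    refine (abs_add_le _ _).trans ?_
    rw [abs_neg]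
    refine (add_le_add f4 f3).trans (le_of_eq ?_)
    ring
  have h0 : HasFDerivAt (fun z => A z - T w * H z) (0 : Ph →L[ℝ] ℝ) w := by
    rw [hasFDerivAt_iff_isLittleO]
    simp only [zero_apply, sub_zero]
    have : (fun z => (A z - T w * H z) - (A w - T w * H w)) =O[𝓝 w] fun z => ‖z - w‖ ^ 2 :=
      IsBigO.of_bound _ (key.mono fun z hz => by simpa using hz)
    exact this.trans_isLittleO (isLittleO_pow_sub_sub w one_lt_two)
  have := h0.add ((hH w).hasFDerivAt.const_mul (T w))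
  rw [zero_add] at this
  refine this.congr_of_eventuallyEq (Eventually.of_forall fun z => ?_)
  simp

end BFlow

/-- the long time average of `f` is `a` -/
def HasAvg (f : ℝ → ℝ) (a : ℝ) : Prop :=
  Tendsto (fun s : ℝ => s⁻¹ * ∫ t in (0 : ℝ)..s, f t) atTop (𝓝 a)

lemma HasAvg.unique {f : ℝ → ℝ} {a b : ℝ} (ha : HasAvg f a) (hb : HasAvg f b) : a = b :=
  tendsto_nhds_unique ha hb

lemma hasAvg_of_periodic {f : ℝ → ℝ} {T : ℝ} (hf : Continuous f) (hp : Function.Periodic f T)
    (hT : 0 < T) : HasAvg f (T⁻¹ * ∫ t in (0 : ℝ)..T, f t) := by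
  set a := T⁻¹ * ∫ t in (0 : ℝ)..T, f t with ha
  set g : ℝ → ℝ := fun s => (∫ t in (0 : ℝ)..s, f t) - a * s with hg
  have hgp : Function.Periodic g T := by
    intro s
    simp only [hg]
    rw [hp.intervalIntegral_add_eq_add 0 s (fun _ _ => hf.intervalIntegrable _ _), zero_add, ha]
    field_simp
    ring
  have hgc : Continuous g :=
    (intervalIntegral.continuous_primitive (fun _ _ => hf.intervalIntegrable _ _) 0).sub
      (continuous_const.mul continuous_id)
  obtain ⟨B, hB⟩ := (hgp.isBounded_of_continuous hT.ne' hgc).exists_norm_le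
  have h1 : Tendsto (fun s : ℝ => s⁻¹ * g s) atTop (𝓝 0) :=
    isBoundedUnder_le_mul_tendsto_zero (f := g) (g := fun s : ℝ => s⁻¹)
      ⟨B, eventually_map.2 (Eventually.of_forall fun s => hB _ (mem_range_self s))⟩
      tendsto_inv_atTop_zero |>.congr fun s => mul_comm _ _
  have h2 := h1.add_const a
  rw [zero_add] at h2
  refine h2.congr' ?_
  filter_upwards [eventually_gt_atTop 0] with s hs
  simp only [hg]
  field_simp
  ring

lemma HasAvg.shift_of_periodic {f : ℝ → ℝ} {T a : ℝ} (hf : Continuous f)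
    (hp : Function.Periodic f T) (hT : 0 < T) (ha : HasAvg f a) (s : ℝ) :
    HasAvg (fun t => f (t + s)) a := by
  have h1 := hasAvg_of_periodic (f := fun t => f (t + s)) (by fun_prop) (hp.add_const s) hT
  rw [intervalIntegral.integral_comp_add_right, zero_add, add_comm T s,
    hp.intervalIntegral_add_eq s 0, zero_add] at h1
  rwa [ha.unique (hasAvg_of_periodic hf hp hT)]

end Pool.Agent.P.MP_75a63e_an
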