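import Pool.Agent.P.MP_75a63e_an.Regular

/-! The time average of the potential is constant on the regular part of an energy level. -/

open Set Filter Topology Metric MeasureTheory
open scoped NNReal RealInnerProductSpace ContDiff

namespace Pool.Agent.P.MP_75a63e_an

lemma circle_param {K : Ph → ℝ} (hK : Kin K) {x : V} (hx : ‖x‖ = 1) {r : ℝ} (hr : 0 < r) :
    ∃ c : ℝ → V, (∀ θ, AnalyticAt ℝ c θ) ∧ (∀ θ, ⟪x, c θ⟫ = 0 ∧ K (x, c θ) = r) ∧
      ∀ P, ⟪x, P⟫ = 0 → K (x, P) = r → ∃ θ, c θ = P := by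
  obtain ⟨b, hb⟩ := exists_frame hx
  have hx0 := ne_zero_of_norm_one hx
  set u : ℝ → V := fun θ => Real.cos θ • b 1 + Real.sin θ • b 2 with hu
  have hua : ∀ θ, AnalyticAt ℝ u θ := fun θ =>
    (Real.analyticAt_cos.smul analyticAt_const).add (Real.analyticAt_sin.smul analyticAt_const)
  have hperp : ∀ θ, ⟪x, u θ⟫ = 0 := fun θ => by
    rw [← hb]
    simp [hu, inner_add_right, real_inner_smul_right, b.inner_eq_ite]
  have hne : ∀ θ, u θ ≠ 0 := fun θ h0 => by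
    have h1 : ⟪b 1, u θ⟫ = Real.cos θ := by
      simp [hu, inner_add_right, real_inner_smul_right, b.inner_eq_ite]
    have h2 : ⟪b 2, u θ⟫ = Real.sin θ := by
      simp [hu, inner_add_right, real_inner_smul_right, b.inner_eq_ite]
    rw [h0, inner_zero_right] at h1 h2
    have := Real.cos_sq_add_sin_sq θ
    rw [← h1, ← h2] at this
    norm_num at this
  have hpos : ∀ θ, 0 < K (x, u θ) := fun θ => hK.pos _ _ hx0 (hne θ) (hperp θ)
  refine ⟨fun θ => √(r / K (x, u θ)) • u θ, fun θ => ?_, fun θ => ⟨?_, ?_⟩, fun P hP hPr => ?_⟩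
  · refine AnalyticAt.fun_smul (f := fun θ => √(r / K (x, u θ))) ?_ (hua θ)
    have a : AnalyticAt ℝ (fun θ => r / K (x, u θ)) θ :=
      analyticAt_const.div ((hK.ph.analytic hx0 (u θ)).comp (hua θ)) (hpos θ).ne'
    exact (Real.contDiffAt_sqrt (n := ⊤) (div_pos hr (hpos θ)).ne').analyticAt.comp
      (f := fun θ => r / K (x, u θ)) a
  · rw [real_inner_smul_right, hperp, mul_zero]
  · rw [hK.smul hx0, Real.sq_sqrt (div_pos hr (hpos θ)).le, div_mul_cancel₀ _ (hpos θ).ne']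
  · set ζ : ℂ := ⟨⟪b 1, P⟫, ⟪b 2, P⟫⟩ with hζ
    have e : P = ‖ζ‖ • u ζ.arg := by
      simp only [hu, smul_add, smul_smul, Complex.norm_mul_cos_arg, Complex.norm_mul_sin_arg]
      conv_lhs => rw [frame_expand b P, hb, hP]
      simp [hζ]
    refine ⟨ζ.arg, ?_⟩
    have e2 : r = ‖ζ‖ ^ 2 * K (x, u ζ.arg) := by rw [← hK.smul hx0, ← e, hPr]
    simp only
    rw [e2, mul_div_cancel_right₀ _ (hpos _).ne', Real.sqrt_sq (norm_nonneg _), ← e]

namespace Setup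

variable {K U F₁ F₂ : Ph → ℝ} {N : ℕ} {m : ℝ} {X : Ph → Ph} {φ : ℝ → Ph → Ph} {L M : ℝ≥0}

lemma mem_Om_circle {x P : V} (hx : ‖x‖ = 1) (hP : ⟪x, P⟫ = 0) {e : ℝ} (he : e < m + 2)
    (hH : ham K U (x, P) = e) : ((x, P) : Ph) ∈ Om (ham K U) (m + 2) := by
  refine ⟨?_, ?_, ?_⟩
  · simp only [hx]; norm_num
  · simp only [hx]; norm_num
  · simp only [hP, hH]; linarith

lemma circle' (h : Setup K U F₁ F₂ N m X φ L M) {x : V} (hx : ‖x‖ = 1) {e : ℝ} (he : m < e) :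
    ∃ c : ℝ → V, Continuous c ∧ (∀ θ, AnalyticAt ℝ (fun θ => pb F₁ F₂ (x, c θ)) θ) ∧
      (∀ θ, ⟪x, c θ⟫ = 0 ∧ ham K U (x, c θ) = e) ∧
      ∀ P, ⟪x, P⟫ = 0 → ham K U (x, P) = e → ∃ θ, c θ = P := by
  have hx0 := ne_zero_of_norm_one hx
  obtain ⟨c, h1, h2, h3⟩ := circle_param h.kin hx (r := e - U (x, 0))
    (by linarith [h.max (x, 0) hx0])
  refine ⟨c, continuous_iff_continuousAt.2 fun θ => (h1 θ).continuousAt,
    fun θ => (h.integG.rp.analytic hx0 (c θ)).comp (h1 θ), fun θ => ⟨(h2 θ).1, ?_⟩,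
    fun P hP hPe => h3 P hP ?_⟩
  · simp only [ham]; rw [(h2 θ).2, h.pot.eq hx0 (c θ) 0]; ring
  · simp only [ham] at hPe; rw [h.pot.eq hx0 0 P]; linarith

lemma circle (h : Setup K U F₁ F₂ N m X φ L M) {x : V} (hx : ‖x‖ = 1) {e : ℝ} (he : m < e)
    (he' : e < m + 2) (hG : ∃ P, ⟪x, P⟫ = 0 ∧ ham K U (x, P) = e ∧ pb F₁ F₂ (x, P) ≠ 0) :
    ∃ κ, ∀ P, ⟪x, P⟫ = 0 → ham K U (x, P) = e → Good U φ (x, P) κ := by
  have hx0 := ne_zero_of_norm_one hx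
  obtain ⟨c, hc, h1, h2, h3⟩ := h.circle' hx he
  have hloc : ∀ θ₀, ∃ κ, ∀ᶠ θ in 𝓝 θ₀, Good U φ (x, c θ) κ := by
    intro θ₀
    have hne : ∀ᶠ θ in 𝓝[≠] θ₀, pb F₁ F₂ (x, c θ) ≠ 0 := by
      refine (h1 θ₀).eventually_eq_zero_or_eventually_ne_zero.resolve_left fun h0 => ?_
      obtain ⟨P, p1, p2, p3⟩ := hG
      obtain ⟨θ, rfl⟩ := h3 P p1 p2
      exact p3 (AnalyticOnNhd.eqOn_zero_of_preconnected_of_eventuallyEq_zero (U := univ)
        (fun θ _ => h1 θ) isPreconnected_univ (mem_univ θ₀) h0 (mem_univ θ))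
    obtain ⟨ε, hε, hε'⟩ := Metric.eventually_nhds_iff_ball.1 (eventually_nhdsWithin_iff.1 hne)
    rw [Real.ball_eq_Ioo] at hε'
    have hR : ∀ θ ∈ Ioo (θ₀ - ε) (θ₀ + ε), θ ≠ θ₀ → ((x, c θ) : Ph) ∈ RR K U F₁ F₂ m :=
      fun θ a b => ⟨mem_Om_circle hx (h2 θ).1 he' (h2 θ).2, by rw [(h2 θ).2]; exact he, hε' θ a b⟩
    obtain ⟨κ₁, k1⟩ := h.family (c := fun θ => (x, c θ)) (by fun_prop) (fun _ => hx0)
      (I := Ioo θ₀ (θ₀ + ε)) isPreconnected_Ioo (nonempty_Ioo.2 (by linarith))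
      (fun θ a => hR θ ⟨by linarith [a.1], a.2⟩ a.1.ne') (fun θ _ => (h2 θ).2)
    obtain ⟨κ₂, k2⟩ := h.family (c := fun θ => (x, c θ)) (by fun_prop) (fun _ => hx0)
      (I := Ioo (θ₀ - ε) θ₀) isPreconnected_Ioo (nonempty_Ioo.2 (by linarith))
      (fun θ a => hR θ ⟨a.1, by linarith [a.2]⟩ a.2.ne) (fun θ _ => (h2 θ).2)
    rw [closure_Ioo (by linarith)] at k1 k2
    have e12 : κ₂ = κ₁ := (k2 θ₀ ⟨by linarith, le_rfl⟩).2.unique (k1 θ₀ ⟨le_rfl, by linarith⟩).2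
    refine ⟨κ₁, ?_⟩
    filter_upwards [Ioo_mem_nhds (show θ₀ - ε < θ₀ by linarith) (show θ₀ < θ₀ + ε by linarith)]
      with θ hθ
    rcases le_total θ θ₀ with a | a
    · exact e12 ▸ k2 θ ⟨hθ.1.le, a⟩
    · exact k1 θ ⟨a, hθ.2.le⟩
  obtain ⟨κ, hκ⟩ := hloc 0
  refine ⟨κ, fun P p1 p2 => ?_⟩
  obtain ⟨θ, rfl⟩ := h3 P p1 p2
  refine isPreconnected_univ.induction₂' (fun a b : ℝ => ∀ κ, Good U φ (x, c a) κ →
    Good U φ (x, c b) κ) (fun a _ => ?_) (fun a b d _ _ _ h1 h2 κ hk => h2 κ (h1 κ hk))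
    (mem_univ 0) (mem_univ θ) κ hκ.self_of_nhds
  obtain ⟨κ', hκ'⟩ := hloc a
  filter_upwards [nhdsWithin_le_nhds hκ'] with b hb
  exact ⟨fun k hk => hκ'.self_of_nhds.2.unique hk.2 ▸ hb,
    fun k hk => hb.2.unique hk.2 ▸ hκ'.self_of_nhds⟩

/-- local connectivity by orbits of a fixed energy (Jacobi metric) -/
lemma reach (h : Setup K U F₁ F₂ N m X φ L M) {e : ℝ} (he : m < e) (he' : e < m + 2) {x₀ : V}
    (hx₀ : ‖x₀‖ = 1) : ∃ δ > 0, ∀ y x : V, ‖y‖ = 1 → ‖x‖ = 1 → y ∈ ball x₀ δ → x ∈ ball x₀ δ →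
      y ≠ x → ∃ P, ⟪y, P⟫ = 0 ∧ ham K U (y, P) = e ∧ ∃ t, (φ t (y, P)).1 = x := by
  have hU : ∀ z ∈ W, 0 < e - U z := fun z hz => by linarith [h.max z hz]
  set K' : Ph → ℝ := fun z => K z * (e - U z)⁻¹ with hK'
  have hinv : Sm fun z => (e - U z)⁻¹ :=
    (contDiffOn_const.sub h.pot.ph.sm).inv fun z hz => (hU z hz).ne'
  have hk : Kin K' := by
    refine ⟨⟨h.kin.ph.sm.mul hinv, fun z hz s => ?_⟩, fun l hl t z hz => ?_,
      fun q P hq hP hqP => ?_⟩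
    · simp only [hK']; rw [h.kin.ph.hom z hz, h.pot.ph.hom z hz]; ring
    · simp only [hK']; rw [h.kin.inv l hl t z hz, h.pot.inv l hl t z hz]
    · exact mul_pos (h.kin.pos q P hq hP hqP) (inv_pos.2 (hU (q, P) hq))
  have hX : ∀ z ∈ W, K' z = 1 → Xf K' z = (e - U z)⁻¹ • Xf (ham K U) z := by
    intro z hz h1
    have hKz : K z = e - U z := by
      have := (hU z hz).ne'
      simp only [hK'] at h1
      field_simp at h1
      exact h1
    have a := (h.kin.ph.sm.diffAt hz).hasFDerivAt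
    have b := (h.pot.ph.sm.diffAt hz).hasFDerivAt
    have c := (hasDerivAt_inv (hU z hz).ne').comp_hasFDerivAt z (b.const_sub e)
    have d := (a.fun_mul c).fderiv
    rw [Xf, Xf, ← map_smul, (a.fun_add b).fderiv]
    congr 1
    refine d.trans ?_
    refine ContinuousLinearMap.ext fun v => ?_
    have := (hU z hz).ne'
    simp only [add_apply, smul_apply, neg_apply, smul_eq_mul, Function.comp_apply, hKz]
    field_simp
    ring
  obtain ⟨X', ψ, L', M', hF⟩ := hk.exists_flo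
  obtain ⟨δ, hδ, hδ'⟩ := geo_ball hk hF hx₀
  refine ⟨δ, hδ, fun y x hy hx hyb hxb hne => ?_⟩
  obtain ⟨P, hP, hPx⟩ := hδ' y x hy hx hyb hxb
  have hy0 := ne_zero_of_norm_one hy
  have hP0 : P ≠ 0 := by
    rintro rfl
    rw [hF.fix_zero hk hy] at hPx
    exact hne hPx
  have hκ := hk.pos y P hy0 hP0 hP
  set s : ℝ := (√(K' (y, P)))⁻¹ with hs
  have hs0 : 0 < s := inv_pos.2 (Real.sqrt_pos.2 hκ)
  set γ : ℝ → Ph := fun t => sc s (ψ t (y, P)) with hγ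
  have hW : ∀ t, ψ t (y, P) ∈ W := fun t => hF.mem_W (z := (y, P)) hy0 t
  have hγW : ∀ t, γ t ∈ W := fun t => sc_mem_W s (hW t)
  have hγ1 : ∀ t, K' (γ t) = 1 := fun t => by
    simp only [hγ]
    rw [hk.ph.hom _ (hW t), hF.energy (z := (y, P)) hy0, hs, inv_pow, Real.sq_sqrt hκ.le,
      inv_mul_cancel₀ hκ.ne']
  have hγe : ∀ t, ham K U (γ t) = e := fun t => by
    have a := hγ1 t
    have b := (hU _ (hγW t)).ne'
    simp only [hK'] at a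
    field_simp at a
    simp only [ham]
    linarith
  have hγO : ∀ t, γ t ∈ Om (ham K U) (m + 2) := fun t =>
    mem_Om_circle (x := (ψ t (y, P)).1) (P := s • (ψ t (y, P)).2) (by rw [hF.norm_eq, hy])
      (by rw [real_inner_smul_right, hF.dil (z := (y, P)) hy0, hP, mul_zero]) he' (hγe t)
  obtain ⟨χ, hχc, hχ⟩ := hF.cut
  have hγc : Continuous γ := (sc s).continuous.comp (hF.bf.continuous_time _)
  have key := h.flo.bf.time_change (γ := γ)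
    (ρ := fun t => χ (ψ t (y, P)) * s⁻¹ * (e - U (γ t))⁻¹)
    (((hχc.comp (hF.bf.continuous_time _)).mul continuous_const).mul
      (hinv.continuousOn.comp_continuous hγc hγW)) (fun t => by
        have a := (sc s).hasFDerivAt.comp_hasDerivAt t (hF.bf.deriv (y, P) t)
        have b : ψ t (y, P) = sc s⁻¹ (γ t) := by
          simp only [hγ]; rw [sc_sc, inv_mul_cancel₀ hs0.ne', sc_one]
        have c : sc s (X' (ψ t (y, P))) =
            (χ (ψ t (y, P)) * s⁻¹ * (e - U (γ t))⁻¹) • X (γ t) := by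
          rw [hχ _ (hW t), map_smul, h.flo.eq _ (hγO t), mul_smul, mul_smul,
            ← hX _ (hγW t) (hγ1 t)]
          congr 1
          rw [b, hk.ph.Xf_sc_two _ (hγW t), sc_apply]
          refine Prod.ext rfl ?_
          simp only [Prod.smul_snd, smul_smul]
          congr 1
          field_simp
        rw [c] at a
        exact a) (t := 1) zero_le_one
  have g0 : γ 0 = (y, s • P) := by simp [hγ, hF.bf.zero]
  rw [g0] at key
  exact ⟨s • P, by rw [real_inner_smul_right, hP, mul_zero], by rw [← g0]; exact hγe 0, _,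
    (congrArg Prod.fst key).symm.trans hPx⟩

/-- the set of base points with a regular covector of energy `e` is dense in the sphere -/
lemma dense_good (h : Setup K U F₁ F₂ N m X φ L M) {e : ℝ} (he : m < e) (he' : e < m + 2)
    {x₁ : V} (hx₁ : ‖x₁‖ = 1)
    (hG : ∃ P, ⟪x₁, P⟫ = 0 ∧ ham K U (x₁, P) = e ∧ pb F₁ F₂ (x₁, P) ≠ 0) {w : V} (hw : ‖w‖ = 1) :
    ∃ᶠ y in 𝓝 w, ‖y‖ = 1 ∧ ∃ P, ⟪y, P⟫ = 0 ∧ ham K U (y, P) = e ∧ pb F₁ F₂ (y, P) ≠ 0 := by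
  intro h0
  refine sphere_spread (Z := {y | ¬∃ P, ⟪y, P⟫ = 0 ∧ ham K U (y, P) = e ∧ pb F₁ F₂ (y, P) ≠ 0})
    ?_ hw (h0.mono fun y hy hy1 h2 => hy ⟨hy1, h2⟩) x₁ hx₁ hG
  intro x₀ hx₀
  obtain ⟨δ, hδ, hδ'⟩ := h.reach he he' hx₀
  refine ⟨δ, hδ, ?_⟩
  rintro ⟨u, hu, hu1, hu2⟩ y hy hy1
  by_cases hyu : y = u
  · rw [hyu]; exact hu2.self_of_nhds hu1
  obtain ⟨P, p1, p2, t, p3⟩ := hδ' y u hy1 hu1 hy hu hyu
  obtain ⟨c, hc, h1, h2, h3⟩ := h.circle' hy1 he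
  obtain ⟨θ₀, rfl⟩ := h3 P p1 p2
  have hy0 := ne_zero_of_norm_one hy1
  have hcont : Continuous fun θ => (φ t (y, c θ)).1 :=
    continuous_fst.comp ((h.flo.bf.continuous_space t).comp (by fun_prop))
  rw [← p3] at hu2
  have hz : ∀ᶠ θ in 𝓝 θ₀, pb F₁ F₂ (y, c θ) = 0 := by
    filter_upwards [hcont.continuousAt.eventually hu2] with θ hθ
    rw [← h.flo.cons h.integG.rp.sm h.integG.int (z := (y, c θ)) hy0 t]
    by_contra hne
    refine hθ (by rw [h.flo.norm_eq, hy1]) ⟨(φ t (y, c θ)).2, ?_, ?_, hne⟩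
    · rw [h.flo.dil (z := (y, c θ)) hy0]; exact (h2 θ).1
    · exact (h.flo.energy (z := (y, c θ)) hy0 t).trans (h2 θ).2
  rintro ⟨P, q1, q2, q3⟩
  obtain ⟨θ, rfl⟩ := h3 P q1 q2
  exact q3 (AnalyticOnNhd.eqOn_zero_of_preconnected_of_eventuallyEq_zero (U := univ)
    (fun θ _ => h1 θ) isPreconnected_univ (mem_univ θ₀) hz (mem_univ θ))

lemma const_sphere (h : Setup K U F₁ F₂ N m X φ L M) {e : ℝ} (he : m < e) (he' : e < m + 2)
    {x₁ : V} (hx₁ : ‖x₁‖ = 1)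
    (hG : ∃ P, ⟪x₁, P⟫ = 0 ∧ ham K U (x₁, P) = e ∧ pb F₁ F₂ (x₁, P) ≠ 0) :
    ∃ κ, ∀ y P : V, ‖y‖ = 1 → ⟪y, P⟫ = 0 → ham K U (y, P) = e → pb F₁ F₂ (y, P) ≠ 0 →
      Good U φ (y, P) κ := by
  obtain ⟨κ, hκ⟩ := h.circle hx₁ he he' hG
  set Z : Set V := {y | (∃ P, ⟪y, P⟫ = 0 ∧ ham K U (y, P) = e ∧ pb F₁ F₂ (y, P) ≠ 0) →
    ∀ P, ⟪y, P⟫ = 0 → ham K U (y, P) = e → Good U φ (y, P) κ} with hZ
  have step : ∀ x₀ : V, ‖x₀‖ = 1 → ∃ δ > 0, ∀ u ∈ ball x₀ δ, ‖u‖ = 1 →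
      (∀ P, ⟪u, P⟫ = 0 → ham K U (u, P) = e → Good U φ (u, P) κ) →
      ∀ y ∈ ball x₀ δ, ‖y‖ = 1 → y ∈ Z := by
    intro x₀ hx₀
    obtain ⟨δ, hδ, hδ'⟩ := h.reach he he' hx₀
    refine ⟨δ, hδ, fun u hu hu1 hu2 y hy hy1 hyG => ?_⟩
    by_cases hyu : y = u
    · rw [hyu]; exact hu2
    obtain ⟨P, p1, p2, t, p3⟩ := hδ' y u hy1 hu1 hy hu hyu
    have hy0 := ne_zero_of_norm_one hy1
    obtain ⟨κ', hκ'⟩ := h.circle hy1 he he' hyG
    have g1 : Good U φ (φ t (y, P)) κ := by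
      rw [← Prod.mk.eta (p := φ t (y, P)), p3]
      refine hu2 _ ?_ ?_
      · rw [← p3, h.flo.dil (z := (y, P)) hy0]; exact p1
      · rw [← p3]; exact (h.flo.energy (z := (y, P)) hy0 t).trans p2
    have g2 := Good.back h (z := (y, P)) hy0 g1
    rw [g2.2.unique (hκ' P p1 p2).2]
    exact hκ'
  have main : ∀ y, ‖y‖ = 1 → y ∈ Z := by
    refine sphere_spread (fun x₀ hx₀ => ?_) hx₁ ?_
    · obtain ⟨δ, hδ, hδ'⟩ := step x₀ hx₀
      refine ⟨δ, hδ, ?_⟩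
      rintro ⟨w, hw, hw1, hw2⟩
      obtain ⟨u, ⟨hu1, hu2⟩, hu3, hu4⟩ := ((h.dense_good he he' hx₁ hG hw1).and_eventually
        (hw2.and (isOpen_ball.mem_nhds hw))).exists
      exact hδ' u hu4 hu1 (hu3 hu1 hu2)
    · obtain ⟨δ, hδ, hδ'⟩ := step x₁ hx₁
      filter_upwards [ball_mem_nhds x₁ hδ] with y hy using
        hδ' x₁ (mem_ball_self hδ) hx₁ hκ y hy
  exact ⟨κ, fun y P hy p1 p2 p3 => main y hy ⟨P, p1, p2, p3⟩ P p1 p2⟩

lemma normalize (h : Setup K U F₁ F₂ N m X φ L M) {z : Ph} (hz : z ∈ RR K U F₁ F₂ m) :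
    ∃ y P : V, ‖y‖ = 1 ∧ ⟪y, P⟫ = 0 ∧ ham K U (y, P) = ham K U z ∧ pb F₁ F₂ (y, P) ≠ 0 ∧
      ∃ κ, Good U φ z κ ∧ Good U φ (y, P) κ := by
  have hW := Om_sub_W hz.1
  have hn : 0 < ‖z.1‖ := norm_pos_iff.2 hW
  set l : Icc (0 : ℝ) 1 → ℝ := fun s => 1 + s * (‖z.1‖⁻¹ - 1) with hl
  have hl1 : ∀ s, l s * ‖z.1‖ = (1 - s) * ‖z.1‖ + s := fun s => by
    simp only [hl]; field_simp; ring
  have hl0 : ∀ s, 0 < l s := fun s => by
    have : 0 < l s * ‖z.1‖ := by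
      rw [hl1]
      rcases eq_or_lt_of_le s.2.2 with a | a
      · rw [a]; norm_num
      · have := s.2.1
        have : 0 < 1 - (s : ℝ) := by linarith
        positivity
    exact (mul_pos_iff_of_pos_right hn).1 this
  set t : Icc (0 : ℝ) 1 → ℝ := fun s => -(s * ⟪z.1, z.2⟫) / (l s * ‖z.1‖ ^ 2) with ht
  set c : Icc (0 : ℝ) 1 → Ph := fun s => S (l s) (t s) z with hc
  have hlc : Continuous l := by simp only [hl]; fun_prop
  have htc : Continuous t := Continuous.div (by fun_prop) (by fun_prop)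
    fun s => (mul_pos (hl0 s) (pow_pos hn 2)).ne'
  have hcc : Continuous c := by
    simp only [hc, S_apply]
    exact (hlc.smul continuous_const).prodMk
      (((hlc.inv₀ fun s => (hl0 s).ne').smul continuous_const).add (htc.smul continuous_const))
  have hD : ∀ s, ⟪(c s).1, (c s).2⟫ = (1 - s) * ⟪z.1, z.2⟫ := fun s => by
    simp only [hc, S_apply, inner_add_right, real_inner_smul_left, real_inner_smul_right,
      real_inner_self_eq_norm_sq, ht]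
    have := (hl0 s).ne'
    field_simp
    ring
  have hN : ∀ s, ‖(c s).1‖ = (1 - s) * ‖z.1‖ + s := fun s => by
    simp only [hc, S_apply, norm_smul, Real.norm_eq_abs, abs_of_pos (hl0 s), hl1]
  have hH : ∀ s, ham K U (c s) = ham K U z := fun s => h.flo.inv _ (hl0 s) _ z hW
  have hG : ∀ s, pb F₁ F₂ (c s) = pb F₁ F₂ z := fun s => h.integG.inv _ (hl0 s) _ z hW
  have hR : ∀ s, c s ∈ RR K U F₁ F₂ m := fun s => by
    have s0 := s.2.1
    have s1 := s.2.2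
    refine ⟨⟨?_, ?_, ?_⟩, by rw [hH]; exact hz.2.1, by rw [hG]; exact hz.2.2⟩
    · rw [hN]
      have a := hz.1.1
      rcases le_total ‖z.1‖ 1 with b | b
      · have : ‖z.1‖ ≤ (1 - s) * ‖z.1‖ + s := by nlinarith
        nlinarith
      · have : 1 ≤ (1 - s) * ‖z.1‖ + s := by nlinarith
        nlinarith
    · rw [hN]
      have a := hz.1.2.1
      have p : 0 ≤ (1 - s) * ‖z.1‖ + s := by rw [← hN]; exact norm_nonneg _
      rcases le_total ‖z.1‖ 1 with b | b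
      · have : (1 - s) * ‖z.1‖ + s ≤ 1 := by nlinarith
        nlinarith
      · have : (1 - s) * ‖z.1‖ + s ≤ ‖z.1‖ := by nlinarith
        nlinarith
    · rw [hH, hD, mul_pow]
      have a := hz.1.2.2
      have : (1 - (s : ℝ)) ^ 2 ≤ 1 := by nlinarith
      nlinarith [sq_nonneg ⟪z.1, z.2⟫]
  have : PreconnectedSpace (Icc (0 : ℝ) 1) := Subtype.preconnectedSpace isPreconnected_Icc
  obtain ⟨κ, hκ⟩ := h.family hcc (fun s => Om_sub_W (hR s).1) isPreconnected_univ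
    ⟨0, trivial⟩ (fun s _ => hR s) fun s _ => hH s
  refine ⟨(c 1).1, (c 1).2, by simp [hN], by simp [hD], hH 1, (hR 1).2.2, κ, ?_,
    hκ 1 (subset_closure trivial)⟩
  have := hκ 0 (subset_closure trivial)
  simpa [hc, hl, ht, S_apply] using this

theorem level_const (h : Setup K U F₁ F₂ N m X φ L M) {z w : Ph} (hz : z ∈ RR K U F₁ F₂ m)
    (hw : w ∈ RR K U F₁ F₂ m) (he : ham K U z = ham K U w) {κ : ℝ} (hκ : Good U φ z κ) :
    Good U φ w κ := by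
  obtain ⟨y, P, a1, a2, a3, a4, κ₁, a5, a6⟩ := h.normalize hz
  obtain ⟨y', P', b1, b2, b3, b4, κ₂, b5, b6⟩ := h.normalize hw
  have he' : ham K U z < m + 2 := by
    have := hz.1.2.2
    nlinarith [sq_nonneg ⟪z.1, z.2⟫]
  obtain ⟨κ₃, h3⟩ := h.const_sphere hz.2.1 he' a1 ⟨P, a2, a3, a4⟩
  rw [hκ.2.unique a5.2, a6.2.unique (h3 y P a1 a2 a3 a4).2,
    ← b6.2.unique (h3 y' P' b1 b2 (b3.trans he.symm) b4).2]
  exact b5

end Setup

end Pool.Agent.P.MP_75a63e_an
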