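import Pool.Agent.P.MP_75a63e_an.Chart

/-! Lifting functions on the cotangent bundle of the sphere to the cone. -/

open Set Filter Topology Metric
open scoped NNReal RealInnerProductSpace ContDiff Manifold

namespace Pool.Agent.P.MP_75a63e_an

lemma factV : Fact (Module.finrank ℝ V = 2 + 1) := ⟨by simp⟩

attribute [local instance] factV

open Classical in
/-- radial projection to the sphere -/
noncomputable def nz (q : V) : S2 :=
  if h : q = 0 then ⟨e 0, by simp [e]⟩ else ⟨‖q‖⁻¹ • q, by simpa using normalize_mem h⟩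

lemma nz_val {q : V} (hq : q ≠ 0) : (nz q : V) = ‖q‖⁻¹ • q := by rw [nz, dif_neg hq]

lemma norm_S2 (x : S2) : ‖(x : V)‖ = 1 := by simp

lemma nz_smul {q : V} (hq : q ≠ 0) {r : ℝ} (hr : 0 < r) : nz (r • q) = nz q := by
  apply Subtype.ext
  rw [nz_val hq, nz_val (smul_ne_zero hr.ne' hq), norm_smul, Real.norm_of_nonneg hr.le, smul_smul]
  congr 1
  field_simp

lemma nz_coe (x : S2) : nz x = x := by
  apply Subtype.ext
  rw [nz_val (ne_zero_of_norm_one (norm_S2 x)), norm_S2, inv_one, one_smul]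

lemma smul_nz {q : V} (hq : q ≠ 0) : ‖q‖ • (nz q : V) = q := by
  rw [nz_val hq, smul_smul, mul_inv_cancel₀ (norm_ne_zero_iff.2 hq), one_smul]

lemma contMDiffAt_nz {q : V} (hq : q ≠ 0) : ContMDiffAt 𝓘(ℝ, V) (𝓡 2) ∞ nz q := by
  let A : TopologicalSpace.Opens V := ⟨{q | q ≠ 0}, isOpen_ne⟩
  have h1 : ContMDiff 𝓘(ℝ, V) 𝓘(ℝ, V) ∞ fun x : A => (nz x : V) := fun x => by
    rw [contMDiffAt_subtype_iff (f := fun q : V => (nz q : V)), contMDiffAt_iff_contDiffAt]
    refine (((contDiffAt_norm ℝ x.2).inv (norm_ne_zero_iff.2 x.2)).smul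
      contDiffAt_id).congr_of_eventuallyEq ?_
    filter_upwards [isOpen_ne.mem_nhds x.2] with w hw using nz_val hw
  have h2 := h1.codRestrict_sphere (n := 2) fun x => (nz x).2
  exact (contMDiffAt_subtype_iff (U := A) (f := nz) (x := ⟨q, hq⟩)).1 (h2 ⟨q, hq⟩)

/-- the cone over the domain of a chart -/
def cone (c : OpenPartialHomeomorph S2 E2) : Set V := {q | q ≠ 0 ∧ nz q ∈ c.source}

lemma ch {c : OpenPartialHomeomorph S2 E2} (hc : c ∈ Charts S2) :
    Ch (cone c) c.target (fun q => c (nz q)) fun y => (c.symm y : V) where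
  oO := by
    rw [isOpen_iff_mem_nhds]
    intro q hq
    filter_upwards [isOpen_ne.mem_nhds hq.1,
      (contMDiffAt_nz hq.1).continuousAt.eventually (c.open_source.mem_nhds hq.2)] with w a b
      using ⟨a, b⟩
  oT := c.open_target
  ne := fun q hq => hq.1
  sτ := fun q hq => (contMDiffAt_iff_contDiffAt.1
    ((contMDiffAt_of_mem_maximalAtlas hc hq.2).comp q (contMDiffAt_nz hq.1))).contDiffWithinAt
  sσ := contMDiffOn_iff_contDiffOn.1
    ((contMDiff_coe_sphere (n := 2)).comp_contMDiffOn (contMDiffOn_symm_of_mem_maximalAtlas hc))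
  map := fun q hq => c.map_source hq.2
  norm := fun y _ => norm_S2 _
  right := fun y hy r hr => by
    have h0 := ne_zero_of_norm_one (norm_S2 (c.symm y))
    refine ⟨⟨smul_ne_zero hr.ne' h0, ?_⟩, ?_⟩
    · rw [nz_smul h0 hr, nz_coe]; exact c.map_target hy
    · rw [nz_smul h0 hr, nz_coe, c.right_inv hy]
  left := fun q hq => by rw [c.left_inv hq.2, smul_nz hq.1]

/-- differential of the inclusion of the sphere -/
noncomputable def dι (x : S2) : TangentSpace (𝓡 2) x →L[ℝ] V :=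
  mvfderiv (𝓡 2) (Subtype.val : S2 → V) x

/-- lift of a function on the cotangent bundle -/
noncomputable def lift (F : CotFun E2 S2) (z : Ph) : ℝ :=
  F (nz z.1) ((innerSL ℝ (‖z.1‖ • z.2)).comp (dι (nz z.1)))

lemma inner_dι (x : S2) (v : TangentSpace (𝓡 2) x) : ⟪(x : V), dι x v⟫ = 0 := by
  have : dι x v ∈ (ℝ ∙ (x : V))ᗮ := by
    rw [← range_mvfderiv_subtypeVal (n := 2) x]; exact ⟨v, rfl⟩
  exact Submodule.mem_orthogonal_singleton_iff_inner_right.1 this

lemma lift_inv (F : CotFun E2 S2) : Inv (lift F) := by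
  intro l hl t z hz
  have h1 : nz (l • z.1) = nz z.1 := nz_smul hz hl
  have h2 : ∀ x : S2, x = nz z.1 →
      F x ((innerSL ℝ (‖l • z.1‖ • (l⁻¹ • z.2 + t • z.1))).comp (dι x)) = lift F z := by
    rintro x rfl
    simp only [lift]
    congr 1
    ext v
    have h3 : ⟪z.1, dι (nz z.1) v⟫ = 0 := by
      conv_lhs => rw [← smul_nz hz, real_inner_smul_left, smul_nz hz, inner_dι]
      simp
    simp only [ContinuousLinearMap.comp_apply, innerSL_apply_apply, real_inner_smul_left,
      inner_add_left, h3, norm_smul, Real.norm_of_nonneg hl.le]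
    field_simp
    ring
  exact h2 _ h1

lemma mdiff {c : OpenPartialHomeomorph S2 E2} (hc : c ∈ Charts S2) :
    c.MDifferentiable (𝓡 2) (𝓡 2) :=
  ⟨(contMDiffOn_of_mem_maximalAtlas hc).mdifferentiableOn (by simp),
    (contMDiffOn_symm_of_mem_maximalAtlas hc).mdifferentiableOn (by simp)⟩

lemma covec_apply {c : OpenPartialHomeomorph S2 E2} (hc : c ∈ Charts S2) {x : S2}
    (hx : x ∈ c.source) (p : E2) (v : TangentSpace (𝓡 2) x) :
    mvfderiv (𝓡 2) (fun x => ∑ i, p i * c x i) x v = ⟪p, mvfderiv (𝓡 2) c x v⟫ := by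
  have h1 := ((innerSL ℝ p).hasMFDerivAt (x := c x)).comp x
    ((mdiff hc).mdifferentiableAt hx).hasMFDerivAt
  rw [show (fun x => ∑ i, p i * c x i) = innerSL ℝ p ∘ c by
    ext x; simp [PiLp.inner_apply, mul_comm]]
  exact congrArg (fun A : TangentSpace (𝓡 2) x →L[ℝ] ℝ => A v) h1.mfderiv

lemma dι_eq {c : OpenPartialHomeomorph S2 E2} (hc : c ∈ Charts S2) {x : S2} (hx : x ∈ c.source)
    (v : TangentSpace (𝓡 2) x) :
    dι x v = fderiv ℝ (fun y => (c.symm y : V)) (c x) (mvfderiv (𝓡 2) c x v) := by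
  have h1 := (((ch hc).atσ (c.map_source hx)).differentiableAt
    (by simp)).hasFDerivAt.hasMFDerivAt.comp x ((mdiff hc).mdifferentiableAt hx).hasMFDerivAt
  have h2 := h1.congr_of_eventuallyEq (f₁ := (Subtype.val : S2 → V)) (by
    filter_upwards [c.open_source.mem_nhds hx] with w hw
    simp [c.left_inv hw])
  exact congrArg (fun A : TangentSpace (𝓡 2) x →L[ℝ] V => A v) h2.mfderiv

lemma lift_eq {c : OpenPartialHomeomorph S2 E2} (hc : c ∈ Charts S2) (F : CotFun E2 S2) {z : Ph}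
    (hz : z.1 ∈ cone c) :
    lift F z = inChart c F (Psi (fun q => c (nz q)) (fun y => (c.symm y : V)) z) := by
  have h2 : ∀ x : S2, x = nz z.1 → ∀ p : E2,
      p = ∑ i, ⟪vf (fun q => c (nz q)) (fun y => (c.symm y : V)) i z.1, z.2⟫ • e2 i →
      lift F z = F x (mvfderiv (𝓡 2) (fun x => ∑ i, p i * c x i) x) := by
    rintro x rfl p rfl
    simp only [lift]
    congr 1
    ext v
    rw [covec_apply hc hz.2, ContinuousLinearMap.comp_apply, innerSL_apply_apply, dι_eq hc hz.2]
    conv_lhs => rw [← sum_e2 (mvfderiv (𝓡 2) c (nz z.1) v)]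
    simp only [map_sum, map_smul, inner_sum, sum_inner, real_inner_smul_left,
      real_inner_smul_right, vf, EuclideanSpace.inner_single_left, real_inner_comm z.2]
    simp only [map_one, one_mul]
    exact Finset.sum_congr rfl fun i _ => by ring
  exact h2 _ (c.left_inv hz.2) _ rfl

lemma lift_ev {c : OpenPartialHomeomorph S2 E2} (hc : c ∈ Charts S2) (F : CotFun E2 S2) {z : Ph}
    (hz : z.1 ∈ cone c) :
    lift F =ᶠ[𝓝 z] inChart c F ∘ Psi (fun q => c (nz q)) (fun y => (c.symm y : V)) := by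
  filter_upwards [continuous_fst.continuousAt.eventually ((ch hc).oO.mem_nhds hz)] with w hw
    using lift_eq hc F hw

lemma exists_chart {z : Ph} (hz : z ∈ W) : ∃ c ∈ Charts S2, z.1 ∈ cone c :=
  ⟨chartAt E2 (nz z.1), IsManifold.chart_mem_maximalAtlas _, hz, mem_chart_source _ _⟩

/-- smooth in the canonical coordinates of every chart -/
def SmC (F : CotFun E2 S2) : Prop :=
  ∀ c ∈ Charts S2, ∀ w : E2 × E2, w.1 ∈ c.target → ContDiffAt ℝ ∞ (inChart c F) w

lemma SmC.lift {F : CotFun E2 S2} (hF : SmC F) : Sm (lift F) := fun z hz => by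
  obtain ⟨c, hc, hz'⟩ := exists_chart hz
  exact (((hF c hc _ (c.map_source hz'.2)).comp z ((ch hc).atPsi hz')).congr_of_eventuallyEq
    (lift_ev hc F hz')).contDiffWithinAt

lemma SmC.pb {F G : CotFun E2 S2} (hF : SmC F) (hG : SmC G) {c : OpenPartialHomeomorph S2 E2}
    (hc : c ∈ Charts S2) {z : Ph} (hz : z.1 ∈ cone c) :
    pb (MP_75a63e_an.lift F) (MP_75a63e_an.lift G) z = bracket (inChart c F) (inChart c G)
      (Psi (fun q => c (nz q)) (fun y => (c.symm y : V)) z) :=
  (ch hc).pb_comp hz ((hF c hc _ (c.map_source hz.2)).differentiableAt (by simp))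
    ((hG c hc _ (c.map_source hz.2)).differentiableAt (by simp)) (lift_ev hc F hz) (lift_ev hc G hz)

lemma IsPolynomial.smC {d : ℕ} {F : CotFun E2 S2} (hF : IsPolynomial d F) : SmC F := by
  intro c hc w hw
  obtain ⟨a, ha, ha'⟩ := hF c hc
  have h1 : ∀ i j, ContDiffAt ℝ ∞ (fun w : E2 × E2 => a i j w.1) w := fun i j =>
    ((ha i j).contDiffAt (c.open_target.mem_nhds hw)).comp w contDiffAt_fst
  have h2 : ∀ i, ContDiffAt ℝ ∞ (fun w : E2 × E2 => w.2 i) w := fun i => by fun_prop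
  refine (ContDiffAt.sum (s := Finset.range (d + 1)) fun i _ =>
    ContDiffAt.sum (s := Finset.range (d + 1 - i)) fun j _ =>
    ((h1 i j).mul ((h2 0).pow i)).mul ((h2 1).pow j)).congr_of_eventuallyEq ?_
  filter_upwards [continuous_fst.continuousAt.eventually (c.open_target.mem_nhds hw)] with v hv
    using ha' v.1 hv v.2

lemma IsPolynomial.rp {d : ℕ} {F : CotFun E2 S2} (hF : IsPolynomial d F) : RP d (lift F) := by
  refine ⟨hF.smC.lift, fun z hz => ?_⟩
  obtain ⟨c, hc, hz'⟩ := exists_chart hz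
  obtain ⟨a, -, ha⟩ := hF c hc
  set p := (Psi (fun q => c (nz q)) (fun y => (c.symm y : V)) z).2 with hp
  refine ⟨∑ i ∈ Finset.range (d + 1), ∑ j ∈ Finset.range (d + 1 - i),
    Polynomial.C (a i j (c (nz z.1)) * p 0 ^ i * p 1 ^ j) * Polynomial.X ^ (i + j), ?_, fun s => ?_⟩
  · refine Polynomial.natDegree_sum_le_of_forall_le _ _ fun i hi =>
      Polynomial.natDegree_sum_le_of_forall_le _ _ fun j hj =>
        (Polynomial.natDegree_C_mul_X_pow_le _ _).trans ?_
    rw [Finset.mem_range] at hi hj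
    omega
  · have e : Psi (fun q => c (nz q)) (fun y => (c.symm y : V)) (sc s z) = (c (nz z.1), s • p) := by
      simp only [hp, Psi, sc_apply, real_inner_smul_right, Finset.smul_sum, smul_smul]
    rw [lift_eq hc F (z := sc s z) hz', e, ha _ (c.map_source hz'.2)]
    simp only [Polynomial.eval_finsetSum, Polynomial.eval_mul, Polynomial.eval_C,
      Polynomial.eval_pow, Polynomial.eval_X, PiLp.smul_apply, smul_eq_mul]
    exact Finset.sum_congr rfl fun i _ => Finset.sum_congr rfl fun j _ => by ring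

lemma isInvertible_of_pos {B : E2 →L[ℝ] E2 →L[ℝ] ℝ} (h : ∀ v, v ≠ 0 → 0 < B v v) :
    B.IsInvertible := by
  have h1 : Function.Injective (B : E2 →ₗ[ℝ] E2 →L[ℝ] ℝ) := by
    rw [← LinearMap.ker_eq_bot, LinearMap.ker_eq_bot']
    intro v hv
    by_contra h0
    have := h v h0
    rw [show B v = 0 from hv] at this
    simp at this
  have h2 : Module.finrank ℝ E2 = Module.finrank ℝ (E2 →L[ℝ] ℝ) := by
    rw [← (LinearMap.toContinuousLinearMap (𝕜 := ℝ) (E := E2) (F' := ℝ)).finrank_eq,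
      Subspace.dual_finrank_eq]
  exact ⟨(LinearMap.linearEquivOfInjective _ h1 h2).toContinuousLinearEquiv, by ext v; rfl⟩

lemma inner_inv (g : RMetric E2 S2) (x : S2) : (g.inner x).IsInvertible :=
  isInvertible_of_pos (B := g.inner x) (g.pos x)

/-- kinetic energy -/
noncomputable def kin (g : RMetric E2 S2) : CotFun E2 S2 :=
  fun x ξ => 1 / 2 * ξ ((g.inner x).inverse ξ)

/-- differential of the inverse of a chart -/
noncomputable def dσ (c : OpenPartialHomeomorph S2 E2) (y : E2) :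
    E2 →L[ℝ] TangentSpace (𝓡 2) (c.symm y) := mfderiv (𝓡 2) (𝓡 2) c.symm y

/-- the metric in a chart -/
noncomputable def gc (g : RMetric E2 S2) (c : OpenPartialHomeomorph S2 E2) (y : E2) :
    E2 →L[ℝ] E2 →L[ℝ] ℝ :=
  ContinuousLinearMap.bilinearComp (E := E2) (F := E2) (g.inner (c.symm y)) (dσ c y) (dσ c y)

lemma gc_apply (g : RMetric E2 S2) (c : OpenPartialHomeomorph S2 E2) (y v w : E2) :
    gc g c y v w = g.inner (c.symm y) (dσ c y v) (dσ c y w) := rfl

lemma dc_dσ {c : OpenPartialHomeomorph S2 E2} (hc : c ∈ Charts S2) {y : E2} (hy : y ∈ c.target)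
    (v : E2) : mvfderiv (𝓡 2) c (c.symm y) (dσ c y v) = v :=
  congrArg (fun A : E2 →L[ℝ] E2 => A v) ((mdiff hc).comp_symm_deriv hy)

lemma dσ_dc {c : OpenPartialHomeomorph S2 E2} (hc : c ∈ Charts S2) {y : E2} (hy : y ∈ c.target)
    (v : TangentSpace (𝓡 2) (c.symm y)) : dσ c y (mvfderiv (𝓡 2) c (c.symm y) v) = v := by
  have h1 : Function.Injective (mvfderiv (𝓡 2) c (c.symm y)) :=
    (mdiff hc).mfderiv_injective (c.map_target hy)
  exact h1 (dc_dσ hc hy _)

lemma gc_inv (g : RMetric E2 S2) {c : OpenPartialHomeomorph S2 E2} (hc : c ∈ Charts S2) {y : E2}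
    (hy : y ∈ c.target) : (gc g c y).IsInvertible :=
  isInvertible_of_pos fun v hv => g.pos _ (dσ c y v) fun h0 => hv (by
    rw [← dc_dσ hc hy v, h0, map_zero])

lemma gc_smooth (g : RMetric E2 S2) {c : OpenPartialHomeomorph S2 E2} (hc : c ∈ Charts S2) :
    ContDiffOn ℝ ∞ (gc g c) c.target := by
  have hs := contMDiffOn_symm_of_mem_maximalAtlas hc
  have h1 : ∀ v : E2, ContMDiffOn (𝓡 2) (𝓡 2).tangent ∞
      (fun y => Bundle.TotalSpace.mk' E2 (E := TangentSpace (𝓡 2)) (c.symm y) (dσ c y v))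
      c.target := fun v => by
    have a := (hs.contMDiffOn_tangentMapWithin (m := ∞) le_rfl
      c.open_target.uniqueMDiffOn).comp (s := c.target)
      ((contMDiff_vectorSpace_iff_contDiff (V := fun _ : E2 => v)).2
        contDiff_const).contMDiffOn fun y hy => hy
    refine a.congr fun y hy => ?_
    simp only [Function.comp_apply, tangentMapWithin,
      mfderivWithin_of_isOpen c.open_target hy]
    rfl
  rw [contDiffOn_clm_apply]
  intro v
  rw [contDiffOn_clm_apply]
  intro w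
  have h2 := (g.contMDiff.comp_contMDiffOn hs).clm_bundle_apply₂ (F₁ := E2) (F₂ := E2) (F₃ := ℝ)
    (E₃ := Bundle.Trivial S2 ℝ) (h1 v) (h1 w)
  refine contMDiffOn_iff_contDiffOn.1 fun y hy => ?_
  have h3 := h2 y hy
  simp only [Bundle.contMDiffWithinAt_totalSpace] at h3
  exact h3.2

lemma kin_chart (g : RMetric E2 S2) {c : OpenPartialHomeomorph S2 E2} (hc : c ∈ Charts S2) {w : E2 × E2}
    (hw : w.1 ∈ c.target) : inChart c (kin g) w =
      1 / 2 * ⟪w.2, (gc g c w.1).inverse (innerSL ℝ w.2)⟫ := by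
  have hx := c.map_target hw
  have h1 := ((gc_inv g hc hw).inverse_apply_eq (y := innerSL ℝ w.2)).1 rfl
  have h2 : (g.inner (c.symm w.1)).inverse
      (mvfderiv (𝓡 2) (fun x => ∑ i, w.2 i * c x i) (c.symm w.1)) =
      dσ c w.1 ((gc g c w.1).inverse (innerSL ℝ w.2)) := by
    rw [(inner_inv g _).inverse_apply_eq]
    ext u
    rw [covec_apply hc hx, ← innerSL_apply_apply ℝ]
    conv_lhs => rw [h1]
    rw [gc_apply, dσ_dc hc hw]
  simp only [inChart, kin]
  rw [h2, covec_apply hc hx, dc_dσ hc hw]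

lemma kin_smC (g : RMetric E2 S2) : SmC (kin g) := by
  intro c hc w hw
  have h1 : ContDiffAt ℝ ∞ (fun w : E2 × E2 => (gc g c w.1).inverse) w :=
    ((gc_inv g hc hw).contDiffAt_map_inverse.comp w.1
      ((gc_smooth g hc).contDiffAt (c.open_target.mem_nhds hw))).comp w contDiffAt_fst
  refine ((contDiffAt_const (c := 1 / 2)).mul (contDiffAt_snd.inner ℝ (h1.clm_apply
    ((innerSL ℝ (E := E2)).contDiff.contDiffAt.comp w contDiffAt_snd)))).congr_of_eventuallyEq ?_
  filter_upwards [continuous_fst.continuousAt.eventually (c.open_target.mem_nhds hw)] with v hv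
    using kin_chart g hc hv

lemma kin_lift (g : RMetric E2 S2) : Kin (lift (kin g)) := by
  refine ⟨⟨(kin_smC g).lift, fun z hz s => ?_⟩, lift_inv _, fun q P hq hP hqP => ?_⟩
  · rw [sc_apply]
    simp only [lift, kin, smul_comm _ s, map_smul, ContinuousLinearMap.smul_comp,
      smul_apply, smul_eq_mul]
    ring
  · simp only [lift, kin]
    set ξ := (innerSL ℝ (‖q‖ • P)).comp (dι (nz q)) with hξ
    have h1 := ((inner_inv g (nz q)).inverse_apply_eq (y := ξ)).1 rfl
    have h2 : ξ ≠ 0 := by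
      obtain ⟨v, hv⟩ : P ∈ (dι (nz q)).range := by
        rw [dι, range_mvfderiv_subtypeVal (n := 2),
          Submodule.mem_orthogonal_singleton_iff_inner_right, nz_val hq, real_inner_smul_left, hqP,
          mul_zero]
      intro h0
      have h3 : ξ v = ‖q‖ * ‖P‖ ^ 2 := by
        rw [hξ, ContinuousLinearMap.comp_apply, show dι (nz q) v = P from hv, innerSL_apply_apply,
          real_inner_smul_left, real_inner_self_eq_norm_sq]
      rw [h0, zero_apply] at h3
      exact (by positivity : 0 < ‖q‖ * ‖P‖ ^ 2).ne h3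
    have h3 := g.pos (nz q) ((g.inner (nz q)).inverse ξ) fun h0 => h2 (by rw [h1, h0, map_zero])
    rw [← h1] at h3
    positivity

lemma pot_smC {U : S2 → ℝ} (hU : ContMDiff (𝓡 2) 𝓘(ℝ, ℝ) ∞ U) : SmC fun x _ => U x :=
  fun c hc w hw => ((contMDiffOn_iff_contDiffOn.1 (hU.comp_contMDiffOn
    (contMDiffOn_symm_of_mem_maximalAtlas hc))).contDiffAt (c.open_target.mem_nhds hw)).comp w
      contDiffAt_fst

lemma pot_lift {U : S2 → ℝ} (hU : ContMDiff (𝓡 2) 𝓘(ℝ, ℝ) ∞ U) : Pot (lift fun x _ => U x) :=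
  ⟨⟨(pot_smC hU).lift, fun z hz s => by simp [lift]⟩, lift_inv _⟩

theorem potential_const (g : RMetric E2 S2) (U : S2 → ℝ) (hU : ContMDiff (𝓡 2) 𝓘(ℝ, ℝ) ∞ U)
    (h : Superintegrable (hamiltonian g U)) : ∃ a, ∀ x, U x = a := by
  obtain ⟨F, hF, c, hc, y, hy, p, hp⟩ := h
  choose d hd using fun k => (hF k).1
  have hH : SmC (hamiltonian g U) := fun c hc w hw =>
    (kin_smC g c hc w hw).add (pot_smC hU c hc w hw)
  have hi : ∀ k, Integ (ham (lift (kin g)) (lift fun x _ => U x)) (∑ k, d k) (lift (F k)) :=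
    fun k => ⟨(hd k).rp.mono (Finset.single_le_sum (fun _ _ => Nat.zero_le _) (Finset.mem_univ k)),
      lift_inv _, fun z hz => by
        obtain ⟨c, hc, hz'⟩ := exists_chart hz
        rw [pb_anti, neg_eq_zero]
        exact (hH.pb (hd k).smC hc hz').trans ((hF k).2 c hc _ (c.map_source hz'.2) _)⟩
  obtain ⟨i, j, hij⟩ := exists_bracket_ne
    (fun k => ((hd k).smC c hc (y, p) hy).differentiableAt (by simp)) hp
  obtain ⟨z, hz, hz'⟩ := (ch hc).surj hy p
  obtain ⟨a, ha⟩ := core (kin_lift g) (pot_lift hU) (hi i) (hi j)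
    ⟨z, hz.1, by rwa [(hd i).smC.pb (hd j).smC hc hz, hz']⟩
  refine ⟨a, fun x => ?_⟩
  rw [← ha (x, 0) (ne_zero_of_norm_one (norm_S2 x)), lift, nz_coe]

end Pool.Agent.P.MP_75a63e_an
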