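import Pool.Agent.P.MP_75a63e_an.Flow

/-! Periodic orbits at points where the level sets of the integrals are flow arcs. -/

open Set Filter Topology Metric
open scoped NNReal

namespace Pool.Agent.P.MP_75a63e_an

variable {E : Type*} [NormedAddCommGroup E] [NormedSpace ℝ E]
  {F : Type*} [NormedAddCommGroup F] [NormedSpace ℝ F]

/-- minimal period -/
noncomputable def per (φ : ℝ → E → E) (z : E) : ℝ := sInf {t | 0 < t ∧ φ t z = z}

/-- near `w` the level sets of `Φ` are short flow arcs -/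
structure Reg (φ : ℝ → E → E) (Φ : E → F) (w : E) : Prop where
  cons : ∀ᶠ z in 𝓝 w, ∀ s, Φ (φ s z) = Φ z
  arc : ∀ ε > 0, ∀ᶠ p : E × E in 𝓝 (w, w), Φ p.1 = Φ p.2 → ∃ s, |s| < ε ∧ p.2 = φ s p.1
  nosmall : ∃ τ > 0, ∀ᶠ z in 𝓝 w, ∀ t ∈ Ioc 0 τ, φ t z ≠ z

lemma injOn_nhds_of_strict [FiniteDimensional ℝ E] {f : E → F} {f' : E →L[ℝ] F} {w : E}
    (hf : HasStrictFDerivAt f f' w) (hinj : ∀ v, f' v = 0 → v = 0) :
    ∃ S ∈ 𝓝 w, InjOn f S := by
  obtain ⟨K, hK0, hK⟩ := (f' : E →ₗ[ℝ] F).exists_antilipschitzWith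
    (LinearMap.ker_eq_bot'.2 hinj)
  have hc : (0 : ℝ) < 1 / (2 * K) := by positivity
  have h1 := (Asymptotics.isLittleO_iff.1 hf.isLittleO) hc
  rw [nhds_prod_eq] at h1
  obtain ⟨S, hS, hS'⟩ := (Filter.eventually_prod_self_iff
    (r := fun x y => ‖f x - f y - f' (x - y)‖ ≤ 1 / (2 * K) * ‖x - y‖)).1 h1
  refine ⟨S, hS, fun x hx y hy hxy => ?_⟩
  have h2 := hS' x hx y hy
  rw [hxy, sub_self, zero_sub, norm_neg] at h2
  have h3 : ‖x - y‖ ≤ K * ‖f' (x - y)‖ := by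
    have := hK.le_mul_dist (x - y) 0
    simpa [dist_eq_norm] using this
  have h4 : (K : ℝ) * (1 / (2 * K) * ‖x - y‖) = ‖x - y‖ / 2 := by
    have : (K : ℝ) ≠ 0 := by positivity
    field_simp
  have h5 : ‖x - y‖ ≤ ‖x - y‖ / 2 := by
    rw [← h4]; refine h3.trans ?_; gcongr
  have : ‖x - y‖ = 0 := by linarith [norm_nonneg (x - y)]
  exact sub_eq_zero.1 (norm_eq_zero.1 this)

namespace BFlow

variable {X : E → E} {φ : ℝ → E → E} {L M : ℝ≥0}

lemma reg [FiniteDimensional ℝ E] (h : BFlow X φ L M) {Φ : E → F} {Φ' : E →L[ℝ] F} {w : E}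
    (hΦ : HasStrictFDerivAt Φ Φ' w) (l : E →L[ℝ] ℝ) (hl : 0 < l (X w))
    (hinj : ∀ v, Φ' v = 0 → l v = 0 → v = 0) (hc : ∀ᶠ z in 𝓝 w, ∀ s, Φ (φ s z) = Φ z) :
    Reg φ Φ w := by
  obtain ⟨S, hS, hSi⟩ := injOn_nhds_of_strict (f := fun z => (Φ z, l z)) (f' := Φ'.prod l)
    (hΦ.prodMk l.hasStrictFDerivAt) (fun v hv => by
      simp only [ContinuousLinearMap.prod_apply, Prod.mk_eq_zero] at hv
      exact hinj v hv.1 hv.2)
  set c := l (X w) / 2 with hcdef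
  have hcpos : 0 < c := by positivity
  have hS2 : ∀ᶠ z in 𝓝 w, c < l (X z) :=
    ((l.continuous.comp h.lip.continuous).tendsto w).eventually (lt_mem_nhds (by
      simp only [Function.comp_apply]; linarith))
  obtain ⟨δ, hδ, hδS⟩ := Metric.mem_nhds_iff.1 (inter_mem hS hS2)
  have main : ∀ τ > 0, M * τ < δ / 2 → ∀ z ∈ ball w (δ / 2), (∀ s ∈ Icc (-τ) τ, φ s z ∈ S) ∧
      ∀ s ∈ Icc (-τ) τ, ∀ t ∈ Icc (-τ) τ, s ≤ t → c * (t - s) ≤ l (φ t z) - l (φ s z) := by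
    intro τ hτ hMτ z hz
    have hin : ∀ s ∈ Icc (-τ) τ, φ s z ∈ ball w δ := by
      intro s hs
      rw [mem_ball, dist_eq_norm] at hz ⊢
      have h1 := h.dist_time z s 0
      rw [h.zero, sub_zero] at h1
      have h2 : |s| ≤ τ := abs_le.2 hs
      calc ‖φ s z - w‖ = ‖(φ s z - z) + (z - w)‖ := by congr 1; abel
        _ ≤ ‖φ s z - z‖ + ‖z - w‖ := norm_add_le _ _
        _ < δ := by
          have : (M : ℝ) * |s| ≤ M * τ := by gcongr
          linarith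
    refine ⟨fun s hs => (hδS (hin s hs)).1, ?_⟩
    have hd : ∀ s, HasDerivAt (fun s => l (φ s z)) (l (X (φ s z))) s := fun s =>
      l.hasFDerivAt.comp_hasDerivAt s (h.deriv z s)
    refine (convex_Icc (-τ) τ).mul_sub_le_image_sub_of_le_deriv (f := fun s => l (φ s z))
      (fun s _ => (hd s).continuousAt.continuousWithinAt)
      (fun s _ => (hd s).differentiableAt.differentiableWithinAt) fun s hs => ?_
    rw [(hd s).deriv]
    exact (hδS (hin s (interior_subset hs))).2.le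
  have hτex : ∀ ε > 0, ∃ τ > 0, τ < ε ∧ M * τ < δ / 2 := by
    intro ε hε
    have h1 : ∀ᶠ τ in 𝓝 (0 : ℝ), τ < ε := gt_mem_nhds hε
    have h2 : ∀ᶠ τ in 𝓝 (0 : ℝ), M * τ < δ / 2 :=
      ((continuous_const.mul continuous_id).tendsto (0 : ℝ)).eventually
        (gt_mem_nhds (by simp; positivity))
    obtain ⟨τ, h3, h4⟩ := ((h1.and h2).filter_mono (nhdsWithin_le_nhds (s := Ioi 0))).and
      self_mem_nhdsWithin |>.exists
    exact ⟨τ, h4, h3.1, h3.2⟩
  refine ⟨hc, fun ε hε => ?_, ?_⟩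
  · obtain ⟨τ, hτ, hτε, hMτ⟩ := hτex ε hε
    have e1 : ∀ᶠ p : E × E in 𝓝 (w, w), |l p.2 - l p.1| < c * τ := by
      have : Continuous fun p : E × E => |l p.2 - l p.1| := by fun_prop
      exact (this.tendsto (w, w)).eventually (gt_mem_nhds (by simp; positivity))
    have e2 : ∀ᶠ p : E × E in 𝓝 (w, w), p.1 ∈ ball w (δ / 2) :=
      (continuous_fst.tendsto (w, w)).eventually (ball_mem_nhds w (by positivity))
    have e3 : ∀ᶠ p : E × E in 𝓝 (w, w), p.2 ∈ S := (continuous_snd.tendsto (w, w)).eventually hS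
    have e4 : ∀ᶠ p : E × E in 𝓝 (w, w), ∀ s, Φ (φ s p.1) = Φ p.1 :=
      (continuous_fst.tendsto (w, w)).eventually hc
    filter_upwards [e1, e2, e3, e4] with p h1 h2 h3 h4 hΦp
    obtain ⟨m1, m2⟩ := main τ hτ hMτ p.1 h2
    have a1 := m2 (-τ) ⟨le_rfl, by linarith⟩ 0 ⟨by linarith, hτ.le⟩ (by linarith)
    have a2 := m2 0 ⟨by linarith, hτ.le⟩ τ ⟨by linarith, le_rfl⟩ hτ.le
    rw [h.zero] at a1 a2
    rw [abs_lt] at h1
    have hcont : ContinuousOn (fun s => l (φ s p.1)) (Icc (-τ) τ) :=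
      (l.continuous.comp (h.continuous_time _)).continuousOn
    obtain ⟨s, hs, hs'⟩ := intermediate_value_Icc (show -τ ≤ τ by linarith) hcont
      (show l p.2 ∈ Icc (l (φ (-τ) p.1)) (l (φ τ p.1)) from ⟨by linarith, by linarith⟩)
    refine ⟨s, lt_of_le_of_lt (abs_le.2 hs) hτε, (hSi (m1 s hs) h3 ?_).symm⟩
    simp only [Prod.mk.injEq]
    exact ⟨(h4 s).trans hΦp, hs'⟩
  · obtain ⟨τ, hτ, -, hMτ⟩ := hτex 1 one_pos
    refine ⟨τ, hτ, ?_⟩
    filter_upwards [ball_mem_nhds w (show 0 < δ / 2 by positivity)] with z hz t ht heq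
    have a2 := (main τ hτ hMτ z hz).2 0 ⟨by linarith, hτ.le⟩ t ⟨by linarith [ht.1], ht.2⟩ ht.1.le
    rw [h.zero, heq] at a2
    nlinarith [ht.1]

lemma periodic_of_cluster (h : BFlow X φ L M) {Φ : E → F} {z w : E} (hw : Reg φ Φ w)
    (hcl : MapClusterPt w atTop (fun n : ℕ => φ n z)) (hz : ∀ s, Φ (φ s z) = Φ z) :
    ∃ t > 0, φ t z = z := by
  have h1 := hw.arc (1 / 2) (by norm_num)
  rw [nhds_prod_eq] at h1
  obtain ⟨S, hS, hS'⟩ := (Filter.eventually_prod_self_iff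
    (r := fun x y => Φ x = Φ y → ∃ s, |s| < 1 / 2 ∧ y = φ s x)).1 h1
  have hf := mapClusterPt_iff_frequently.1 hcl S hS
  obtain ⟨n, hn⟩ := hf.exists
  obtain ⟨m, hm, hm'⟩ := frequently_atTop.1 hf (n + 1)
  obtain ⟨s, hs, hs'⟩ := hS' _ hn _ hm' ((hz _).trans (hz _).symm)
  have hnm : (n : ℝ) + 1 ≤ m := by exact_mod_cast hm
  refine ⟨m - n - s, by linarith [le_abs_self s], ?_⟩
  have : φ (-(s + n)) (φ m z) = φ (-(s + n)) (φ s (φ n z)) := by rw [← hs']
  rw [← h.add, ← h.add, ← h.add] at this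
  have e1 : -(s + n) + m = m - n - s := by ring
  have e2 : -(s + (n : ℝ)) + s + n = 0 := by ring
  rw [e1, e2, h.zero] at this
  exact this

lemma per_spec (h : BFlow X φ L M) {Φ : E → F} {w : E} (hw : Reg φ Φ w)
    (hp : ∃ t > 0, φ t w = w) : 0 < per φ w ∧ φ (per φ w) w = w := by
  obtain ⟨τ, hτ, hτ'⟩ := hw.nosmall
  have h1 := hτ'.self_of_nhds
  have e : {t | 0 < t ∧ φ t w = w} = Ici τ ∩ {t | φ t w = w} := by
    ext t
    constructor
    · rintro ⟨ht, ht'⟩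
      refine ⟨?_, ht'⟩
      by_contra hc
      exact h1 t ⟨ht, (not_le.1 hc).le⟩ ht'
    · rintro ⟨ht, ht'⟩
      exact ⟨lt_of_lt_of_le hτ ht, ht'⟩
  have hcl : IsClosed {t | 0 < t ∧ φ t w = w} := by
    rw [e]
    exact isClosed_Ici.inter (isClosed_eq (h.continuous_time w) continuous_const)
  exact hcl.csInf_mem hp ⟨0, fun t ht => ht.1.le⟩

lemma ne_of_lt_per {w : E} {t : ℝ} (ht : 0 < t) (ht' : t < per φ w) : φ t w ≠ w := by
  intro h
  have : per φ w ≤ t := csInf_le ⟨0, fun t ht => ht.1.le⟩ ⟨ht, h⟩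
  linarith

lemma continuousAt_per (h : BFlow X φ L M) {Φ : E → F} {w : E} (hw : Reg φ Φ w)
    (hp : ∃ t > 0, φ t w = w) : ContinuousAt (per φ) w := by
  obtain ⟨hT0, hT⟩ := h.per_spec hw hp
  set T := per φ w with hTdef
  rw [Metric.continuousAt_iff']
  intro ε hε
  set η := min ε T / 2 with hη
  have hηpos : 0 < η := by positivity
  have hηε : η < ε := by
    have := min_le_left ε T
    linarith
  have hηT : η < T := by
    have := min_le_right ε T
    linarith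
  have e1 : ∀ᶠ z in 𝓝 w, ∃ t, 0 < t ∧ φ t z = z ∧ t < T + η := by
    have ht : Tendsto (fun z => (z, φ T z)) (𝓝 w) (𝓝 (w, w)) := by
      have := (continuous_id.prodMk (h.continuous_space T)).tendsto w
      simpa [hT] using this
    filter_upwards [ht.eventually (hw.arc η hηpos), hw.cons] with z hz hz'
    obtain ⟨s, hs, hs'⟩ := hz (hz' T).symm
    rw [abs_lt] at hs
    refine ⟨T - s, by linarith, ?_, by linarith⟩
    have : φ (-s) (φ T z) = φ (-s) (φ s z) := congrArg _ hs'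
    rw [h.neg_apply, ← h.add] at this
    rw [← this]; congr 1; ring
  obtain ⟨τ, hτ, e2⟩ := hw.nosmall
  have e3 : ∀ᶠ z in 𝓝 w, ∀ t ∈ Icc τ (T - η), φ t z ≠ z := by
    refine isCompact_Icc.eventually_forall_of_forall_eventually fun t ht => ?_
    have hne : φ t w ≠ w := ne_of_lt_per (lt_of_lt_of_le hτ ht.1) (by linarith [ht.2])
    have hc : Continuous fun p : E × ℝ => φ p.2 p.1 :=
      h.continuous_comp continuous_snd continuous_fst
    exact (isOpen_ne_fun hc continuous_fst).mem_nhds hne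
  filter_upwards [e1, e2, e3] with z h1 h2 h3
  obtain ⟨t, ht0, ht, htT⟩ := h1
  have up : per φ z ≤ t := csInf_le ⟨0, fun t ht => ht.1.le⟩ ⟨ht0, ht⟩
  have lo : T - η ≤ per φ z := by
    refine le_csInf ⟨t, ht0, ht⟩ fun u hu => ?_
    by_contra hc
    push Not at hc
    rcases le_total u τ with h4 | h4
    · exact h2 u ⟨hu.1, h4⟩ hu.2
    · exact h3 u ⟨h4, hc.le⟩ hu.2
  rw [Real.dist_eq, abs_lt]
  constructor <;> linarith

end BFlow

end Pool.Agent.P.MP_75a63e_an
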