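import Pool.Agent.P.MP_75a63e_an.Symp

/-! Functions on phase space that are polynomial in the momenta. -/

open Set Filter Topology Metric Polynomial
open scoped NNReal RealInnerProductSpace ContDiff

namespace Pool.Agent.P.MP_75a63e_an

/-- scaling of the momenta -/
noncomputable def sc (s : ℝ) : Ph →L[ℝ] Ph :=
  (ContinuousLinearMap.fst ℝ V V).prod (s • ContinuousLinearMap.snd ℝ V V)

@[simp] lemma sc_apply (s : ℝ) (z : Ph) : sc s z = (z.1, s • z.2) := by simp [sc]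

lemma sc_mem_W (s : ℝ) {z : Ph} (hz : z ∈ W) : sc s z ∈ W := hz

lemma sc_sc (s t : ℝ) (z : Ph) : sc s (sc t z) = sc (s * t) z := by simp [smul_smul]

lemma sc_one (z : Ph) : sc 1 z = z := by simp

/-- smooth and homogeneous of degree `j` in the momenta -/
structure PH (j : ℕ) (f : Ph → ℝ) : Prop where
  sm : Sm f
  hom : ∀ z ∈ W, ∀ s, f (sc s z) = s ^ j * f z

/-- smooth and polynomial of degree at most `N` along rays in momentum space -/
structure RP (N : ℕ) (f : Ph → ℝ) : Prop where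
  sm : Sm f
  poly : ∀ z ∈ W, ∃ p : ℝ[X], p.natDegree ≤ N ∧ ∀ s, f (sc s z) = p.eval s

lemma PH.rp {j : ℕ} {f : Ph → ℝ} (h : PH j f) : RP j f :=
  ⟨h.sm, fun z hz => ⟨C (f z) * X ^ j, natDegree_C_mul_X_pow_le _ _, fun s => by
    rw [h.hom z hz, eval_mul, eval_C, eval_pow, eval_X, mul_comm]⟩⟩

lemma RP.mono {N N' : ℕ} {f : Ph → ℝ} (h : RP N f) (hN : N ≤ N') : RP N' f :=
  ⟨h.sm, fun z hz => let ⟨p, h1, h2⟩ := h.poly z hz; ⟨p, h1.trans hN, h2⟩⟩

lemma RP.const (c : ℝ) (N : ℕ) : RP N fun _ => c :=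
  ⟨contDiffOn_const, fun _ _ => ⟨C c, by simp, fun s => by simp⟩⟩

lemma RP.add {N : ℕ} {f g : Ph → ℝ} (hf : RP N f) (hg : RP N g) : RP N fun z => f z + g z :=
  ⟨hf.sm.add hg.sm, fun z hz => by
    obtain ⟨p, h1, h2⟩ := hf.poly z hz
    obtain ⟨q, h3, h4⟩ := hg.poly z hz
    exact ⟨p + q, natDegree_add_le_of_degree_le h1 h3, fun s => by rw [h2, h4, eval_add]⟩⟩

lemma RP.mul {N N' : ℕ} {f g : Ph → ℝ} (hf : RP N f) (hg : RP N' g) :
    RP (N + N') fun z => f z * g z :=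
  ⟨hf.sm.mul hg.sm, fun z hz => by
    obtain ⟨p, h1, h2⟩ := hf.poly z hz
    obtain ⟨q, h3, h4⟩ := hg.poly z hz
    exact ⟨p * q, natDegree_mul_le_of_le h1 h3, fun s => by rw [h2, h4, eval_mul]⟩⟩

lemma RP.pow {N : ℕ} {f : Ph → ℝ} (hf : RP N f) (k : ℕ) : RP (k * N) fun z => f z ^ k :=
  ⟨hf.sm.pow k, fun z hz => by
    obtain ⟨p, h1, h2⟩ := hf.poly z hz
    exact ⟨p ^ k, natDegree_pow_le_of_le k h1, fun s => by rw [h2, eval_pow]⟩⟩

lemma RP.sum {N : ℕ} {ι : Type*} (s : Finset ι) {f : ι → Ph → ℝ} (hf : ∀ i ∈ s, RP N (f i)) :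
    RP N fun z => ∑ i ∈ s, f i z := by
  classical
  induction s using Finset.induction_on with
  | empty => simpa using RP.const 0 N
  | insert a s ha ih =>
    simp only [Finset.sum_insert ha]
    exact (hf a (Finset.mem_insert_self _ _)).add
      (ih fun i hi => hf i (Finset.mem_insert_of_mem hi))

lemma Sm.comp_sc {f : Ph → ℝ} (hf : Sm f) (s : ℝ) : Sm fun z => f (sc s z) :=
  hf.comp (sc s).contDiff.contDiffOn fun _ hz => sc_mem_W s hz

/-- decomposition into homogeneous parts -/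
lemma RP.parts {N : ℕ} {f : Ph → ℝ} (hf : RP N f) : ∃ g : ℕ → Ph → ℝ, (∀ j, PH j (g j)) ∧
    (∀ z ∈ W, ∀ s, f (sc s z) = ∑ j ∈ Finset.range (N + 1), s ^ j * g j z) ∧
    (Inv f → ∀ j, Inv (g j)) := by
  set g : ℕ → Ph → ℝ := fun j z => ∑ i ∈ Finset.range (N + 1),
    f (sc (i : ℝ) z) * (Lagrange.basis (Finset.range (N + 1)) (fun k : ℕ => (k : ℝ)) i).coeff j
    with hg
  have key : ∀ z, ∀ p : ℝ[X], p.natDegree ≤ N → (∀ s, f (sc s z) = p.eval s) →
      ∀ j, g j z = p.coeff j := by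
    intro z p h1 h2 j
    have := Lagrange.eq_interpolate (s := Finset.range (N + 1)) (v := fun k : ℕ => (k : ℝ))
      (f := p) (Nat.cast_injective.injOn) (by
        rw [Finset.card_range]
        exact lt_of_le_of_lt degree_le_natDegree (by exact_mod_cast Nat.lt_succ_of_le h1))
    rw [this, Lagrange.interpolate_apply, finsetSum_coeff]
    simp only [hg, h2, coeff_C_mul]
  refine ⟨g, fun j => ⟨?_, fun z hz s => ?_⟩, fun z hz s => ?_, fun hi j l hl t z hz => ?_⟩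
  · exact ContDiffOn.sum fun i _ => (hf.sm.comp_sc _).mul contDiffOn_const
  · obtain ⟨p, h1, h2⟩ := hf.poly z hz
    rw [key z p h1 h2, key (sc s z) (p.comp (C s * X)) ?_ ?_, comp_C_mul_X_coeff, mul_comm]
    · refine natDegree_comp_le.trans ?_
      have : (C s * X : ℝ[X]).natDegree ≤ 1 := by simpa using natDegree_C_mul_X_pow_le s 1
      nlinarith
    · intro t
      rw [sc_sc, h2, eval_comp, eval_mul, eval_C, eval_X, mul_comm]
  · obtain ⟨p, h1, h2⟩ := hf.poly z hz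
    rw [h2, eval_eq_sum_range' (Nat.lt_succ_of_le h1)]
    exact Finset.sum_congr rfl fun j _ => by rw [key z p h1 h2, mul_comm]
  · simp only [hg]
    refine Finset.sum_congr rfl fun i _ => ?_
    rw [← hi l hl (i * t) (sc i z) (sc_mem_W _ hz)]
    congr 2
    simp only [sc_apply, S_apply, smul_add, smul_smul, mul_comm]

lemma fderiv_comp_sc {f : Ph → ℝ} (hf : Sm f) (s : ℝ) {z : Ph} (hz : z ∈ W) :
    fderiv ℝ (fun z => f (sc s z)) z = (fderiv ℝ f (sc s z)).comp (sc s) :=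
  ((hf.diffAt (sc_mem_W s hz)).hasFDerivAt.comp z (sc s).hasFDerivAt).fderiv

lemma J_comp_sc (α : Ph →L[ℝ] ℝ) (s : ℝ) : J (α.comp (sc s)) = (s • (J α).1, (J α).2) := by
  refine eq_of_om fun w => ?_
  rw [om_J, ContinuousLinearMap.comp_apply, ← om_J]
  simp [om, real_inner_smul_left, real_inner_smul_right]

lemma bracket_comp_sc (α β : Ph →L[ℝ] ℝ) (s : ℝ) :
    (α.comp (sc s)) (J (β.comp (sc s))) = s * α (J β) := by
  rw [← om_J, ← om_J α, J_comp_sc, J_comp_sc]
  simp only [om, real_inner_smul_left, real_inner_smul_right]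
  ring

lemma PH.fderiv_sc {j : ℕ} {f : Ph → ℝ} (hf : PH j f) (s : ℝ) {z : Ph} (hz : z ∈ W) :
    (fderiv ℝ f (sc s z)).comp (sc s) = s ^ j • fderiv ℝ f z := by
  rw [← fderiv_comp_sc hf.sm s hz, fderiv_congr_W (fun w hw => hf.hom w hw s) hz]
  exact ((hf.sm.diffAt hz).hasFDerivAt.const_mul (s ^ j)).fderiv

lemma PH.Xf_sc {j : ℕ} {f : Ph → ℝ} (hf : PH j f) (s : ℝ) {z : Ph} (hz : z ∈ W) :
    ((s • (Xf f (sc s z)).1, (Xf f (sc s z)).2) : Ph) = s ^ j • Xf f z := by
  rw [Xf, ← J_comp_sc, hf.fderiv_sc s hz, map_smul, Xf]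

lemma PH.euler {j : ℕ} {f : Ph → ℝ} (hf : PH j f) {z : Ph} (hz : z ∈ W) :
    fderiv ℝ f z (0, z.2) = j * f z := by
  have h1 : HasDerivAt (fun s : ℝ => sc s z) (0, z.2) 1 := by
    simp only [sc_apply]
    simpa using (hasDerivAt_const (1 : ℝ) z.1).prodMk ((hasDerivAt_id (1 : ℝ)).smul_const z.2)
  have h2 : HasFDerivAt f (fderiv ℝ f z) (sc 1 z) := by
    rw [sc_one]; exact (hf.sm.diffAt hz).hasFDerivAt
  have h3 := h2.comp_hasDerivAt (1 : ℝ) h1
  have h4 : (f ∘ fun s : ℝ => sc s z) = fun s => s ^ j * f z := funext fun s => hf.hom z hz s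
  rw [h4] at h3
  have h5 := h3.unique ((hasDerivAt_pow j (1 : ℝ)).mul_const (f z))
  simpa using h5

lemma fderiv_parts {N : ℕ} {f : Ph → ℝ} (hf : Sm f) {g : ℕ → Ph → ℝ} (hg : ∀ j, Sm (g j))
    (h : ∀ z ∈ W, ∀ s, f (sc s z) = ∑ j ∈ Finset.range N, s ^ j * g j z) (s : ℝ) {z : Ph}
    (hz : z ∈ W) :
    (fderiv ℝ f (sc s z)).comp (sc s) = ∑ j ∈ Finset.range N, s ^ j • fderiv ℝ (g j) z := by
  rw [← fderiv_comp_sc hf s hz, fderiv_congr_W (fun w hw => h w hw s) hz]
  exact (HasFDerivAt.fun_sum fun j _ =>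
    ((hg j).diffAt hz).hasFDerivAt.const_mul (s ^ j)).fderiv

lemma poly_of_mul {h : ℝ → ℝ} (hc : Continuous h) {p : ℝ[X]} (hp : ∀ s, s * h s = p.eval s) :
    ∃ q : ℝ[X], q.natDegree ≤ p.natDegree ∧ ∀ s, h s = q.eval s := by
  refine ⟨p.divX, natDegree_divX_le, fun s => ?_⟩
  have h0 : p.coeff 0 = 0 := by rw [coeff_zero_eq_eval_zero, ← hp, zero_mul]
  refine congrFun (Continuous.ext_on (dense_compl_singleton (0 : ℝ)) hc p.divX.continuous
    fun s hs => ?_) s
  have := hp s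
  rw [← X_mul_divX_add p, h0] at this
  simp only [map_zero, add_zero, eval_mul, eval_X] at this
  exact mul_left_cancel₀ hs this

lemma RP.pb {N N' : ℕ} {f g : Ph → ℝ} (hf : RP N f) (hg : RP N' g) : RP (N + N') (pb f g) := by
  refine ⟨hf.sm.pb hg.sm, fun z hz => ?_⟩
  obtain ⟨a, ha, ha', -⟩ := hf.parts
  obtain ⟨b, hb, hb', -⟩ := hg.parts
  have hc : Continuous fun s => MP_75a63e_an.pb f g (sc s z) :=
    (hf.sm.pb hg.sm).continuousOn.comp_continuous (by simp only [sc_apply]; fun_prop)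
      fun s => sc_mem_W s hz
  obtain ⟨q, h1, h2⟩ := poly_of_mul hc (p := ∑ j ∈ Finset.range (N + 1),
    ∑ k ∈ Finset.range (N' + 1), C (MP_75a63e_an.pb (a j) (b k) z) * X ^ (j + k)) (fun s => by
      rw [MP_75a63e_an.pb, Xf, ← bracket_comp_sc, fderiv_parts hf.sm (fun j => (ha j).sm) ha' s hz,
        fderiv_parts hg.sm (fun j => (hb j).sm) hb' s hz]
      simp only [map_sum, map_smul, sum_apply, smul_apply, smul_eq_mul, eval_finsetSum, eval_mul,
        eval_C, eval_pow, eval_X, Finset.mul_sum]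
      rw [Finset.sum_comm]
      refine Finset.sum_congr rfl fun j _ => Finset.sum_congr rfl fun k _ => ?_
      simp only [MP_75a63e_an.pb, Xf]
      ring)
  refine ⟨q, h1.trans ?_, h2⟩
  refine natDegree_sum_le_of_forall_le _ _ fun j hj => natDegree_sum_le_of_forall_le _ _
    fun k hk => (natDegree_C_mul_X_pow_le _ _).trans ?_
  rw [Finset.mem_range] at hj hk
  omega

/-- the top homogeneous part of an integral of `K + U` is an integral of `K` -/
lemma top_part {K U f : Ph → ℝ} (hK : PH 2 K) (hU : PH 0 U) {N : ℕ} (hf : Sm f)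
    {g : ℕ → Ph → ℝ} (hg : ∀ j, Sm (g j))
    (h : ∀ z ∈ W, ∀ s, f (sc s z) = ∑ j ∈ Finset.range (N + 1), s ^ j * g j z)
    (hi : ∀ z ∈ W, pb f (fun z => K z + U z) z = 0) : ∀ z ∈ W, pb (g N) K z = 0 := by
  intro z hz
  set p : ℝ[X] := ∑ j ∈ Finset.range (N + 1),
    (C (pb (g j) K z) * X ^ (j + 2) + C (pb (g j) U z) * X ^ j) with hp
  have h0 : p = 0 := by
    refine Polynomial.funext fun s => ?_
    have e := bracket_comp_sc (fderiv ℝ f (sc s z)) (fderiv ℝ (fun z => K z + U z) (sc s z)) s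
    have e2 := hi _ (sc_mem_W s hz)
    rw [pb, Xf] at e2
    rw [e2, mul_zero, fderiv_parts hf hg h s hz, fderiv_fun_add (hK.sm.diffAt (sc_mem_W s hz))
      (hU.sm.diffAt (sc_mem_W s hz)), ContinuousLinearMap.add_comp, hK.fderiv_sc s hz,
      hU.fderiv_sc s hz] at e
    rw [eval_zero, ← e]
    simp only [hp, map_add, map_smul, sum_apply, smul_apply, smul_eq_mul, eval_finsetSum, eval_mul,
      eval_C, eval_pow, eval_X, eval_add, Finset.mul_sum, ← Finset.sum_add_distrib]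
    refine Finset.sum_congr rfl fun j _ => ?_
    simp only [pb, Xf]
    ring
  have h1 := congrArg (fun q : ℝ[X] => q.coeff (N + 2)) h0
  simp only [hp, finsetSum_coeff, coeff_add, coeff_C_mul, coeff_X_pow, coeff_zero] at h1
  rw [Finset.sum_eq_single N] at h1
  · simpa using h1
  · intro j hj hjN
    rw [Finset.mem_range] at hj
    rw [if_neg (by omega), if_neg (by omega)]; simp
  · simp

lemma parts_eq_zero {N : ℕ} {c : ℕ → ℝ}
    (h : ∀ s : ℝ, ∑ j ∈ Finset.range N, s ^ j * c j = 0) : ∀ j < N, c j = 0 := by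
  intro j hj
  have h0 : (∑ j ∈ Finset.range N, C (c j) * X ^ j : ℝ[X]) = 0 := by
    refine Polynomial.funext fun s => ?_
    rw [eval_zero, ← h s]
    simp only [eval_finsetSum, eval_mul, eval_C, eval_pow, eval_X, mul_comm]
  have h1 := congrArg (fun q : ℝ[X] => q.coeff j) h0
  simp only [finsetSum_coeff, coeff_C_mul, coeff_X_pow, coeff_zero] at h1
  rw [Finset.sum_eq_single j] at h1
  · simpa using h1
  · intro k _ hk
    rw [if_neg (Ne.symm hk)]; simp
  · simp [hj]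

lemma homog_repr {f : V → ℝ} (hf : ContDiff ℝ ∞ f) {j : ℕ} (h : ∀ s P, f (s • P) = s ^ j * f P) :
    ∃ M : ContinuousMultilinearMap ℝ (fun _ : Fin j => V) ℝ, ∀ P, f P = M fun _ => P := by
  refine ⟨(j.factorial : ℝ)⁻¹ • iteratedFDeriv ℝ j f 0, fun P => ?_⟩
  have e1 := (ContinuousLinearMap.toSpanSingleton ℝ P).iteratedFDeriv_comp_right hf 0 (i := j)
    (by exact_mod_cast le_top)
  have e2 : f ∘ ContinuousLinearMap.toSpanSingleton ℝ P = fun s => s ^ j * f P := by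
    ext s; simp [h]
  have e3 : iteratedDeriv j (fun s : ℝ => s ^ j * f P) 0 = j.factorial * f P := by
    rw [iteratedDeriv_mul_const_field, iteratedDeriv_fun_pow_zero]; simp
  rw [iteratedDeriv_eq_iteratedFDeriv, ← e2, e1] at e3
  simp only [ContinuousMultilinearMap.compContinuousLinearMap_apply, map_zero,
    ContinuousLinearMap.toSpanSingleton_apply, one_smul] at e3
  simp only [smul_apply, e3, smul_eq_mul]
  have : (j.factorial : ℝ) ≠ 0 := by positivity
  field_simp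

lemma Sm.fibre {f : Ph → ℝ} (hf : Sm f) {q : V} (hq : q ≠ 0) : ContDiff ℝ ∞ fun P => f (q, P) :=
  hf.comp_contDiff (by fun_prop) fun _ => hq

lemma PH.repr {j : ℕ} {f : Ph → ℝ} (hf : PH j f) {q : V} (hq : q ≠ 0) :
    ∃ M : ContinuousMultilinearMap ℝ (fun _ : Fin j => V) ℝ, ∀ P, f (q, P) = M fun _ => P :=
  homog_repr (hf.sm.fibre hq) fun s P => hf.hom (q, P) hq s

lemma PH.analytic {j : ℕ} {f : Ph → ℝ} (hf : PH j f) {q : V} (hq : q ≠ 0) (P : V) :
    AnalyticAt ℝ (fun P => f (q, P)) P := by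
  obtain ⟨M, hM⟩ := hf.repr hq
  simp only [hM]
  exact M.cpolynomialAt.analyticAt.comp (f := fun P : V => fun _ : Fin j => P)
    ((ContinuousLinearMap.pi fun _ : Fin j => ContinuousLinearMap.id ℝ V).analyticAt P)

lemma PH.line {j : ℕ} {f : Ph → ℝ} (hf : PH j f) {q : V} (hq : q ≠ 0) (u v : V) :
    ∃ p : ℝ[X], p.natDegree ≤ j ∧ ∀ t : ℝ, f (q, u + t • v) = p.eval t := by
  classical
  obtain ⟨M, hM⟩ := hf.repr hq
  refine ⟨∑ s : Finset (Fin j), C (M (s.piecewise (fun _ => v) fun _ => u)) * X ^ s.card, ?_,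
    fun t => ?_⟩
  · refine natDegree_sum_le_of_forall_le _ _ fun s _ => (natDegree_C_mul_X_pow_le _ _).trans ?_
    simpa using s.card_le_univ
  · rw [hM, show (fun _ : Fin j => u + t • v) = (fun _ => t • v) + fun _ => u from
      funext fun _ => add_comm _ _, M.map_add_univ, eval_finsetSum]
    refine Finset.sum_congr rfl fun s _ => ?_
    have := M.map_piecewise_smul (fun _ => t) (s.piecewise (fun _ => v) fun _ => u) s
    rw [Finset.prod_const, smul_eq_mul] at this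
    rw [eval_mul, eval_C, eval_pow, eval_X, mul_comm, ← this]
    congr 1
    ext1 i
    by_cases hi : i ∈ s <;> simp [hi]

lemma RP.analytic {N : ℕ} {f : Ph → ℝ} (hf : RP N f) {q : V} (hq : q ≠ 0) (P : V) :
    AnalyticAt ℝ (fun P => f (q, P)) P := by
  obtain ⟨g, hg, hg', -⟩ := hf.parts
  have : (fun P => f (q, P)) = fun P => ∑ j ∈ Finset.range (N + 1), g j (q, P) := by
    ext P
    simpa using hg' (q, P) hq 1
  rw [this]
  exact Finset.analyticAt_fun_sum _ fun j _ => (hg j).analytic hq P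

lemma RP.line {N : ℕ} {f : Ph → ℝ} (hf : RP N f) {q : V} (hq : q ≠ 0) (u v : V) :
    ∃ p : ℝ[X], p.natDegree ≤ N ∧ ∀ t : ℝ, f (q, u + t • v) = p.eval t := by
  obtain ⟨g, hg, hg', -⟩ := hf.parts
  choose p hp hp' using fun j => (hg j).line hq u v
  refine ⟨∑ j ∈ Finset.range (N + 1), p j, natDegree_sum_le_of_forall_le _ _ fun j hj =>
    (hp j).trans (Nat.lt_succ_iff.1 (Finset.mem_range.1 hj)), fun t => ?_⟩
  have := hg' (q, u + t • v) hq 1
  rw [sc_one] at this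
  rw [this, eval_finsetSum]
  exact Finset.sum_congr rfl fun j _ => by rw [hp', one_pow, one_mul]

/-- a fibrewise polynomial vanishing on a nonempty open set of a fibre vanishes on the fibre -/
lemma RP.fibre_eq_zero {N : ℕ} {f : Ph → ℝ} (hf : RP N f) {q : V} (hq : q ≠ 0) {P₀ : V}
    (h : ∀ᶠ P in 𝓝 P₀, f (q, P) = 0) (P : V) : f (q, P) = 0 :=
  AnalyticOnNhd.eqOn_zero_of_preconnected_of_eventuallyEq_zero (U := univ)
    (f := fun P => f (q, P)) (fun P _ => hf.analytic hq P) isPreconnected_univ (mem_univ P₀) h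
    (mem_univ P)

end Pool.Agent.P.MP_75a63e_an
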