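import Pool.Agent.P.MP_75a63e_an.Determ
import Pool.Agent.P.MP_75a63e_an.Period
import Pool.Agent.P.MP_75a63e_an.Gordon

/-! The regular set of a superintegrable natural system: periods and actions. -/

open Set Filter Topology Metric MeasureTheory
open scoped NNReal RealInnerProductSpace ContDiff

namespace Pool.Agent.P.MP_75a63e_an

/-- the Hamiltonian -/
abbrev ham (K U : Ph → ℝ) : Ph → ℝ := fun z => K z + U z

/-- the data of a natural system with two polynomial integrals and its cut-off flow -/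
structure Setup (K U F₁ F₂ : Ph → ℝ) (N : ℕ) (m : ℝ) (X : Ph → Ph) (φ : ℝ → Ph → Ph)
    (L M : ℝ≥0) : Prop where
  kin : Kin K
  pot : Pot U
  f1 : Integ (ham K U) N F₁
  f2 : Integ (ham K U) N F₂
  max : ∀ z ∈ W, U z ≤ m
  flo : Flo (ham K U) (m + 2) X φ L M

/-- the regular set -/
def RR (K U F₁ F₂ : Ph → ℝ) (m : ℝ) : Set Ph :=
  {z | z ∈ Om (ham K U) (m + 2) ∧ m < ham K U z ∧ pb F₁ F₂ z ≠ 0}

/-- the action of the closed orbit through `z` -/
noncomputable def act (X : Ph → Ph) (φ : ℝ → Ph → Ph) (z : Ph) : ℝ :=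
  ∫ t in (0 : ℝ)..per φ z, ⟪(φ t z).2, (X (φ t z)).1⟫

/-- `z` is periodic and the time average of the potential along its orbit is `a` -/
def Good (U : Ph → ℝ) (φ : ℝ → Ph → Ph) (z : Ph) (a : ℝ) : Prop :=
  (∃ t > 0, φ t z = z) ∧ HasAvg (fun t => U (φ t z)) a

lemma eq_zero_of_six {y : Fin 6 → Ph} (hy : LinearIndependent ℝ y) {v : Ph}
    (h : ∀ i, om (y i) v = 0) : v = 0 := by
  have hs := hy.span_eq_top_of_card_eq_finrank' (by simp)
  have : (omL v : Ph →ₗ[ℝ] ℝ) = 0 := LinearMap.ext_on_range hs fun i => by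
    simp only [ContinuousLinearMap.coe_coe, omL_apply, LinearMap.zero_apply]
    rw [om_anti, h, neg_zero]
  exact eq_zero_of_om fun w => by simpa using LinearMap.congr_fun this w

lemma eq_of_cluster {α β : Type*} [TopologicalSpace α] [TopologicalSpace β] [T1Space β]
    {w : α} {u : ℕ → α} (h : MapClusterPt w atTop u) {f : α → β} (hf : ContinuousAt f w) {c : β}
    (hc : ∀ n, f (u n) = c) : f w = c := by
  by_contra hne
  obtain ⟨n, hn⟩ := (mapClusterPt_iff_frequently.1 h _ (hf.eventually_ne hne)).exists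
  exact hn (hc n)

namespace Setup

variable {K U F₁ F₂ : Ph → ℝ} {N : ℕ} {m : ℝ} {X : Ph → Ph} {φ : ℝ → Ph → Ph} {L M : ℝ≥0}

lemma smH (h : Setup K U F₁ F₂ N m X φ L M) : Sm (ham K U) := h.flo.sm

lemma integG (h : Setup K U F₁ F₂ N m X φ L M) : Integ (ham K U) (N + N) (pb F₁ F₂) :=
  ⟨h.f1.rp.pb h.f2.rp, h.f1.inv.pb h.f2.inv h.f1.rp.sm h.f2.rp.sm,
    pb_pb_eq_zero h.f1.rp.sm h.f2.rp.sm h.smH h.f1.int h.f2.int⟩

lemma isOpen_RR (h : Setup K U F₁ F₂ N m X φ L M) : IsOpen (RR K U F₁ F₂ m) := by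
  rw [isOpen_iff_mem_nhds]
  intro z hz
  have hW := Om_sub_W hz.1
  filter_upwards [(isOpen_Om h.smH _).mem_nhds hz.1,
    (h.smH.contAt hW).eventually (lt_mem_nhds hz.2.1),
    (h.integG.rp.sm.contAt hW).eventually_ne hz.2.2] with w a b c using ⟨a, b, c⟩

lemma inv_RR (h : Setup K U F₁ F₂ N m X φ L M) {z : Ph} (hz : z ∈ RR K U F₁ F₂ m) (t : ℝ) :
    φ t z ∈ RR K U F₁ F₂ m := by
  have hW := Om_sub_W hz.1
  refine ⟨h.flo.mem_Om hz.1 t, ?_, ?_⟩
  · rw [h.flo.energy hW]; exact hz.2.1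
  · rw [h.flo.cons h.integG.rp.sm h.integG.int hW]; exact hz.2.2

lemma K_pos (h : Setup K U F₁ F₂ N m X φ L M) {z : Ph} (hz : z ∈ W) (hm : m < ham K U z) :
    0 < K z := by
  have := h.max z hz
  simp only [ham] at hm
  linarith

lemma euler (h : Setup K U F₁ F₂ N m X φ L M) {z : Ph} (hz : z ∈ W) :
    ⟪z.2, (Xf (ham K U) z).1⟫ = 2 * K z := by
  have e : fderiv ℝ (ham K U) z (0, z.2) = 2 * K z := by
    rw [fderiv_fun_add (h.kin.ph.sm.diffAt hz) (h.pot.ph.sm.diffAt hz), add_apply,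
      h.kin.ph.euler hz, h.pot.ph.euler hz]
    simp
  rw [← om_Xf] at e
  simpa [om, real_inner_comm] using e

lemma X_ne (h : Setup K U F₁ F₂ N m X φ L M) {z : Ph} (hz : z ∈ RR K U F₁ F₂ m) : X z ≠ 0 := by
  intro h0
  have a := h.euler (Om_sub_W hz.1)
  rw [← h.flo.eq z hz.1, h0] at a
  have b := h.K_pos (Om_sub_W hz.1) hz.2.1
  simp only [Prod.fst_zero, inner_zero_right] at a
  linarith

/-- all five integrals -/
noncomputable def Phi (K U F₁ F₂ : Ph → ℝ) (z : Ph) : ℝ × ℝ × ℝ × ℝ × ℝ :=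
  (ham K U z, F₁ z, F₂ z, ‖z.1‖ ^ 2, ⟪z.1, z.2⟫)

lemma Phi_cons (h : Setup K U F₁ F₂ N m X φ L M) {z : Ph} (hz : z ∈ W) (s : ℝ) :
    Phi K U F₁ F₂ (φ s z) = Phi K U F₁ F₂ z := by
  simp only [Phi, h.flo.normsq, h.flo.dil hz, h.flo.cons h.f1.rp.sm h.f1.int hz,
    h.flo.cons h.f2.rp.sm h.f2.int hz]
  rw [h.flo.energy hz]

lemma reg (h : Setup K U F₁ F₂ N m X φ L M) {z : Ph} (hz : z ∈ RR K U F₁ F₂ m) :
    Reg φ (Phi K U F₁ F₂) z := by
  have hW := Om_sub_W hz.1
  have hn : ContDiff ℝ ∞ fun z : Ph => ‖z.1‖ ^ 2 := contDiff_fst.norm_sq ℝ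
  have hd : ContDiff ℝ ∞ fun z : Ph => ⟪z.1, z.2⟫ := contDiff_fst.inner ℝ contDiff_snd
  have s1 := (h.smH.at hW).hasStrictFDerivAt (by simp)
  have s2 := (h.f1.rp.sm.at hW).hasStrictFDerivAt (by simp)
  have s3 := (h.f2.rp.sm.at hW).hasStrictFDerivAt (by simp)
  have s4 := (hn.contDiffAt (x := z)).hasStrictFDerivAt (by simp)
  have s5 := (hd.contDiffAt (x := z)).hasStrictFDerivAt (by simp)
  have hK := h.K_pos hW hz.2.1
  have he := h.euler hW
  refine h.flo.bf.reg (s1.prodMk (s2.prodMk (s3.prodMk (s4.prodMk s5))))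
    ((innerSL ℝ z.2).comp (ContinuousLinearMap.fst ℝ V V)) ?_ ?_ ?_
  · rw [h.flo.eq z hz.1]
    simp only [ContinuousLinearMap.comp_apply, ContinuousLinearMap.coe_fst', innerSL_apply_apply]
    linarith
  · intro v hv hl
    simp only [ContinuousLinearMap.prod_apply, Prod.mk_eq_zero, fderiv_normsq, fderiv_dil] at hv
    simp only [ContinuousLinearMap.comp_apply, ContinuousLinearMap.coe_fst',
      innerSL_apply_apply] at hl
    obtain ⟨v1, v2, v3, v4, v5⟩ := hv
    refine eq_zero_of_six (y := ![Xf (ham K U) z, Xf F₁ z, Xf F₂ z, (0, z.1), (z.1, -z.2),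
      (0, z.2)]) ?_ ?_
    · rw [Fintype.linearIndependent_iff]
      intro c hc
      rw [Fin.sum_univ_six] at hc
      simp only [Matrix.cons_val] at hc
      have P : ∀ w, c 0 * om (Xf (ham K U) z) w + c 1 * om (Xf F₁ z) w + c 2 * om (Xf F₂ z) w +
          c 3 * om (0, z.1) w + c 4 * om (z.1, -z.2) w + c 5 * om (0, z.2) w = 0 := by
        intro w
        have := congrArg (fun u => om u w) hc
        simpa only [om_add_left, om_smul_left, om_zero_left] using this
      have rad : ∀ f, Inv f → Sm f → om (Xf f z) (0, z.1) = 0 := fun f a b => by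
        rw [om_Xf]; exact a.fderiv_rad b hW
      have dil : ∀ f, Inv f → Sm f → om (Xf f z) (z.1, -z.2) = 0 := fun f a b => by
        rw [om_Xf]; exact a.fderiv_dil b hW
      have r0 := rad _ h.flo.inv h.smH
      have r1 := rad _ h.f1.inv h.f1.rp.sm
      have r2 := rad _ h.f2.inv h.f2.rp.sm
      have d0 := dil _ h.flo.inv h.smH
      have d1 := dil _ h.f1.inv h.f1.rp.sm
      have d2 := dil _ h.f2.inv h.f2.rp.sm
      have i1 : om (Xf F₁ z) (Xf (ham K U) z) = 0 := by rw [← pb_eq_om]; exact h.f1.int z hW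
      have i2 : om (Xf F₂ z) (Xf (ham K U) z) = 0 := by rw [← pb_eq_om]; exact h.f2.int z hW
      have hG : om (Xf F₁ z) (Xf F₂ z) ≠ 0 := by rw [← pb_eq_om]; exact hz.2.2
      have hq : ‖z.1‖ ^ 2 ≠ 0 := pow_ne_zero _ (norm_ne_zero_iff.2 hW)
      have k1 : om (Xf (ham K U) z) (0, z.2) = 2 * K z := by
        simpa [om, real_inner_comm] using he
      have c5 : c 5 = 0 := by
        have := P (Xf (ham K U) z)
        rw [om_self, i1, i2, om_anti (0, z.1), r0, om_anti (z.1, -z.2), d0, om_anti (0, z.2),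
          k1] at this
        have h2 : c 5 * K z = 0 := by linarith
        exact (mul_eq_zero.1 h2).resolve_right hK.ne'
      have c4 : c 4 = 0 := by
        have := P (0, z.1)
        rw [r0, r1, r2, om_self, c5] at this
        have e : om (z.1, -z.2) (0, z.1) = ‖z.1‖ ^ 2 := by simp [om]
        rw [e] at this
        have h2 : c 4 * ‖z.1‖ ^ 2 = 0 := by linarith
        exact (mul_eq_zero.1 h2).resolve_right hq
      have c3 : c 3 = 0 := by
        have := P (z.1, -z.2)
        rw [d0, d1, d2, om_self, c5] at this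
        have e : om (0, z.1) (z.1, -z.2) = -‖z.1‖ ^ 2 := by simp [om]
        rw [e] at this
        have h2 : c 3 * ‖z.1‖ ^ 2 = 0 := by linarith
        exact (mul_eq_zero.1 h2).resolve_right hq
      have c1 : c 1 = 0 := by
        have := P (Xf F₂ z)
        rw [om_anti (Xf (ham K U) z), i2, om_self, c3, c4, c5] at this
        have h2 : c 1 * om (Xf F₁ z) (Xf F₂ z) = 0 := by linarith
        exact (mul_eq_zero.1 h2).resolve_right hG
      have c2 : c 2 = 0 := by
        have := P (Xf F₁ z)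
        rw [om_anti (Xf (ham K U) z), i1, om_self, c3, c4, c5, om_anti (Xf F₂ z)] at this
        have h2 : c 2 * om (Xf F₁ z) (Xf F₂ z) = 0 := by linarith
        exact (mul_eq_zero.1 h2).resolve_right hG
      have c0 : c 0 = 0 := by
        have := P (0, z.2)
        rw [k1, c1, c2, c3, c4, c5] at this
        have h2 : c 0 * K z = 0 := by linarith
        exact (mul_eq_zero.1 h2).resolve_right hK.ne'
      intro i
      fin_cases i <;> assumption
    · intro i
      fin_cases i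
      · simpa [om_Xf] using v1
      · simpa [om_Xf] using v2
      · simpa [om_Xf] using v3
      · simp only [om]; simp; linarith
      · simp only [om]; simp; rw [real_inner_comm v.1]; linarith
      · simp only [om]; simp; linarith
  · filter_upwards [W_mem_nhds hW] with w hw using h.Phi_cons hw

lemma periodic (h : Setup K U F₁ F₂ N m X φ L M) {z : Ph} (hz : z ∈ RR K U F₁ F₂ m) :
    ∃ t > 0, φ t z = z := by
  have hW := Om_sub_W hz.1
  obtain ⟨B, hB, hB'⟩ := h.flo.bdd
  obtain ⟨w, -, hw⟩ := hB.exists_mapClusterPt_of_frequently (l := atTop)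
    (f := fun n : ℕ => φ n z) (Frequently.of_forall fun n => hB' (h.flo.mem_Om hz.1 _))
  have e1 : ‖w.1‖ ^ 2 = ‖z.1‖ ^ 2 :=
    eq_of_cluster hw (f := fun w => ‖w.1‖ ^ 2) (by fun_prop) fun n => h.flo.normsq z _
  have hwW : w ∈ W := by
    intro h0
    rw [h0, norm_zero] at e1
    exact hW (norm_eq_zero.1 (pow_eq_zero_iff two_ne_zero |>.1 (by simpa using e1.symm)))
  have e2 : ⟪w.1, w.2⟫ = ⟪z.1, z.2⟫ :=
    eq_of_cluster hw (f := fun w => ⟪w.1, w.2⟫) (by fun_prop) fun n => h.flo.dil hW _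
  have e3 : ham K U w = ham K U z :=
    eq_of_cluster hw (h.smH.contAt hwW) fun n => h.flo.energy hW _
  have e4 : pb F₁ F₂ w = pb F₁ F₂ z :=
    eq_of_cluster hw (h.integG.rp.sm.contAt hwW) fun n =>
      h.flo.cons h.integG.rp.sm h.integG.int hW _
  have hwR : w ∈ RR K U F₁ F₂ m := by
    simp only [RR, Om, mem_ofPred_eq, e1, e2, e3, e4]
    exact hz
  exact h.flo.bf.periodic_of_cluster (h.reg hwR) hw (h.Phi_cons hW)

lemma per_pos (h : Setup K U F₁ F₂ N m X φ L M) {z : Ph} (hz : z ∈ RR K U F₁ F₂ m) :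
    0 < per φ z := (h.flo.bf.per_spec (h.reg hz) (h.periodic hz)).1

lemma per_eq (h : Setup K U F₁ F₂ N m X φ L M) {z : Ph} (hz : z ∈ RR K U F₁ F₂ m) :
    φ (per φ z) z = z := (h.flo.bf.per_spec (h.reg hz) (h.periodic hz)).2

lemma gordon (h : Setup K U F₁ F₂ N m X φ L M) {w : Ph} (hw : w ∈ RR K U F₁ F₂ m) :
    HasFDerivAt (act X φ) (per φ w • fderiv ℝ (ham K U) w) w := by
  obtain ⟨H', C, h1, h2, h3⟩ := h.flo.ext
  rw [← h3 w hw.1]
  exact h.flo.bf.gordon h.isOpen_RR (fun z hz t => h.inv_RR hz t) h1 h2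
    (fun z hz => by rw [h.flo.eq z hz.1, Xf, Xf, h3 z hz.1]) (fun z hz => h.per_eq hz) hw
    (h.flo.bf.continuousAt_per (h.reg hw) (h.periodic hw)) (h.X_ne hw)

lemma deriv_act (h : Setup K U F₁ F₂ N m X φ L M) {γ : ℝ → Ph} {s η : ℝ}
    (hγ : DifferentiableAt ℝ γ s) (hR : γ s ∈ RR K U F₁ F₂ m)
    (hη : HasDerivAt (fun s => ham K U (γ s)) η s) :
    HasDerivAt (fun s => act X φ (γ s)) (per φ (γ s) * η) s := by
  have a := (h.gordon hR).comp_hasDerivAt s hγ.hasDerivAt
  have b := (h.smH.diffAt (Om_sub_W hR.1)).hasFDerivAt.comp_hasDerivAt s hγ.hasDerivAt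
  rw [hη.unique b]
  exact a

lemma cont_U (h : Setup K U F₁ F₂ N m X φ L M) {α : Type*} [TopologicalSpace α] {τ : α → ℝ}
    {z : α → Ph} (hτ : Continuous τ) (hz : Continuous z) (hW : ∀ a, z a ∈ W) :
    Continuous fun a => U (φ (τ a) (z a)) :=
  h.pot.ph.sm.continuousOn.comp_continuous (h.flo.bf.continuous_comp hτ hz)
    fun a => h.flo.mem_W (hW a) _

lemma act_eq (h : Setup K U F₁ F₂ N m X φ L M) {z : Ph} (hz : z ∈ RR K U F₁ F₂ m) :
    act X φ z = 2 * (per φ z * ham K U z - ∫ t in (0 : ℝ)..per φ z, U (φ t z)) := by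
  have hW := Om_sub_W hz.1
  have e : ∀ t, ⟪(φ t z).2, (X (φ t z)).1⟫ = 2 * (ham K U z - U (φ t z)) := by
    intro t
    rw [h.flo.eq _ (h.flo.mem_Om hz.1 t), h.euler (h.flo.mem_W hW t), ← h.flo.energy hW t]
    simp [ham]
  simp only [act, e]
  rw [intervalIntegral.integral_const_mul, intervalIntegral.integral_sub intervalIntegrable_const
    ((h.cont_U continuous_id' continuous_const fun _ => hW).intervalIntegrable _ _),
    intervalIntegral.integral_const, sub_zero, smul_eq_mul]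

lemma good_of_period (h : Setup K U F₁ F₂ N m X φ L M) {z : Ph} (hz : z ∈ W) {T : ℝ} (hT : 0 < T)
    (hp : φ T z = z) : Good U φ z (T⁻¹ * ∫ t in (0 : ℝ)..T, U (φ t z)) :=
  ⟨⟨T, hT, hp⟩, hasAvg_of_periodic (h.cont_U continuous_id' continuous_const fun _ => hz)
    (fun t => by simp only [h.flo.bf.add, hp]) hT⟩

lemma Good.back (h : Setup K U F₁ F₂ N m X φ L M) {z : Ph} (hz : z ∈ W) {t a : ℝ}
    (hg : Good U φ (φ t z) a) : Good U φ z a := by
  obtain ⟨⟨T, hT, hp⟩, ha⟩ := hg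
  refine ⟨⟨T, hT, ?_⟩, ?_⟩
  · have := congrArg (φ (-t)) hp
    rw [h.flo.bf.neg_apply, ← h.flo.bf.add, ← h.flo.bf.add] at this
    simpa using this
  · have := ha.shift_of_periodic
      (h.cont_U continuous_id' continuous_const fun _ => h.flo.mem_W hz t)
      (fun s => by simp only [h.flo.bf.add, hp]) hT (-t)
    simpa [← h.flo.bf.add] using this

/-- period and action are locally functions of the energy -/
lemma loc (h : Setup K U F₁ F₂ N m X φ L M) {w : Ph} (hw : w ∈ RR K U F₁ F₂ m) :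
    ∀ᶠ z in 𝓝 w, ham K U z = ham K U w → per φ z = per φ w ∧ act X φ z = act X φ w := by
  have hW := Om_sub_W hw.1
  set n : Ph × ℝ → Ph := fun p => (p.1.1, √((p.2 - U p.1) / K p.1) • p.1.2) with hn
  have hdiff : ∀ p : Ph × ℝ, p.1 ∈ W → 0 < K p.1 → 0 < p.2 - U p.1 → DifferentiableAt ℝ n p := by
    intro p h1 h2 h3
    have a : DifferentiableAt ℝ (fun p : Ph × ℝ => K p.1) p :=
      (h.kin.ph.sm.diffAt h1).comp p differentiableAt_fst
    have b : DifferentiableAt ℝ (fun p : Ph × ℝ => U p.1) p :=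
      (h.pot.ph.sm.diffAt h1).comp p differentiableAt_fst
    refine differentiableAt_fst.fst.prodMk (DifferentiableAt.fun_smul ?_ differentiableAt_fst.snd)
    refine DifferentiableAt.sqrt ?_ (div_pos h3 h2).ne'
    simp only [div_eq_mul_inv]
    exact (differentiableAt_snd.sub b).mul (a.fun_inv h2.ne')
  have hH : ∀ p : Ph × ℝ, p.1 ∈ W → 0 < K p.1 → 0 < p.2 - U p.1 → ham K U (n p) = p.2 := by
    intro p h1 h2 h3
    simp only [ham, hn]
    rw [h.kin.smul h1, Real.sq_sqrt (div_pos h3 h2).le,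
      h.pot.eq h1 (√((p.2 - U p.1) / K p.1) • p.1.2) p.1.2, div_mul_cancel₀ _ h2.ne']
    simp
  have hfix : ∀ z ∈ W, 0 < K z → n (z, ham K U z) = z := by
    intro z _ h2
    simp [hn, ham, h2.ne']
  have hKw := h.K_pos hW hw.2.1
  have hUw : 0 < ham K U w - U w := by simpa [ham] using hKw
  have hev : ∀ᶠ p : Ph × ℝ in 𝓝 (w, ham K U w),
      p.1 ∈ W ∧ 0 < K p.1 ∧ 0 < p.2 - U p.1 ∧ n p ∈ RR K U F₁ F₂ m := by
    have a : ContinuousAt (fun p : Ph × ℝ => K p.1) (w, ham K U w) :=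
      (h.kin.ph.sm.contAt hW).comp_of_eq continuousAt_fst rfl
    have b : ContinuousAt (fun p : Ph × ℝ => p.2 - U p.1) (w, ham K U w) :=
      continuousAt_snd.sub ((h.pot.ph.sm.contAt hW).comp_of_eq continuousAt_fst rfl)
    have c := (hdiff (w, ham K U w) hW hKw hUw).continuousAt.eventually
      (h.isOpen_RR.mem_nhds (by rw [hfix w hW hKw]; exact hw))
    filter_upwards [continuousAt_fst.eventually (p := (· ∈ W)) (W_mem_nhds hW),
      a.eventually (lt_mem_nhds hKw), b.eventually (lt_mem_nhds hUw), c] with p p1 p2 p3 p4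
      using ⟨p1, p2, p3, p4⟩
  obtain ⟨δ, hδ, hδ'⟩ := Metric.eventually_nhds_iff_ball.1 hev
  have hδ'' : ∀ z ∈ ball w δ, ∀ e ∈ ball (ham K U w) δ,
      z ∈ W ∧ 0 < K z ∧ 0 < e - U z ∧ n (z, e) ∈ RR K U F₁ F₂ m := fun z hz e he =>
    hδ' (z, e) (by rw [← ball_prod_same]; exact ⟨hz, he⟩)
  filter_upwards [ball_mem_nhds w hδ] with z hz hzw
  have step1 : ∀ e ∈ ball (ham K U w) δ, act X φ (n (z, e)) = act X φ (n (w, e)) := by
    intro e he
    have hseg : ∀ s ∈ Icc (0 : ℝ) 1, w + s • (z - w) ∈ ball w δ := fun s hs =>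
      (convex_ball w δ).add_smul_sub_mem (mem_ball_self hδ) hz hs
    have hder : ∀ s ∈ Icc (0 : ℝ) 1,
        HasDerivAt (fun s : ℝ => act X φ (n (w + s • (z - w), e))) 0 s := by
      intro s hs
      obtain ⟨p1, p2, p3, p4⟩ := hδ'' _ (hseg s hs) e he
      have hc : ContinuousAt (fun s : ℝ => w + s • (z - w)) s := by fun_prop
      have := h.deriv_act (γ := fun s : ℝ => n (w + s • (z - w), e)) (s := s) (η := 0)
        (DifferentiableAt.comp s (g := n) (hdiff _ p1 p2 p3) (by fun_prop)) p4 (by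
          refine (hasDerivAt_const s e).congr_of_eventuallyEq ?_
          filter_upwards [hc.eventually (isOpen_ball.mem_nhds (hseg s hs))] with u hu
          obtain ⟨q1, q2, q3, -⟩ := hδ'' _ hu e he
          exact hH (_, e) q1 q2 q3)
      simpa using this
    have := constant_of_has_deriv_right_zero (f := fun s : ℝ => act X φ (n (w + s • (z - w), e)))
      (a := 0) (b := 1) (fun s hs => (hder s hs).continuousAt.continuousWithinAt)
      (fun s hs => (hder s (Ico_subset_Icc_self hs)).hasDerivWithinAt) 1 ⟨zero_le_one, le_rfl⟩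
    simpa using this
  have step2 : ∀ y ∈ ball w δ, ham K U y = ham K U w →
      HasDerivAt (fun e => act X φ (n (y, e))) (per φ y) (ham K U w) := by
    intro y hy hyw
    obtain ⟨p1, p2, p3, p4⟩ := hδ'' y hy _ (mem_ball_self hδ)
    have := h.deriv_act (γ := fun e => n (y, e)) (s := ham K U w) (η := 1)
      (DifferentiableAt.comp _ (g := n) (hdiff _ p1 p2 p3) (by fun_prop)) p4 (by
        refine (hasDerivAt_id _).congr_of_eventuallyEq ?_
        filter_upwards [ball_mem_nhds _ hδ] with e he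
        obtain ⟨q1, q2, q3, -⟩ := hδ'' y hy e he
        exact hH (y, e) q1 q2 q3)
    rw [← hyw, hfix y p1 p2, mul_one] at this
    rwa [← hyw]
  constructor
  · refine (step2 z hz hzw).unique ((step2 w (mem_ball_self hδ) rfl).congr_of_eventuallyEq ?_)
    filter_upwards [ball_mem_nhds _ hδ] with e he using step1 e he
  · have := step1 _ (mem_ball_self hδ)
    obtain ⟨p1, p2, -, -⟩ := hδ'' z hz _ (mem_ball_self hδ)
    rw [hfix w hW hKw, ← hzw, hfix z p1 p2] at this
    exact this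

/-- along a connected family of regular points of one energy level, and at its limit points,
the time average of the potential is constant -/
lemma family (h : Setup K U F₁ F₂ N m X φ L M) {α : Type*} [TopologicalSpace α] {c : α → Ph}
    (hc : Continuous c) (hW : ∀ a, c a ∈ W) {I : Set α} (hI : IsPreconnected I) (hne : I.Nonempty)
    (hR : ∀ a ∈ I, c a ∈ RR K U F₁ F₂ m) {e : ℝ} (he : ∀ a ∈ I, ham K U (c a) = e) :
    ∃ κ, ∀ a ∈ closure I, Good U φ (c a) κ := by
  obtain ⟨a₀, ha₀⟩ := hne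
  have hconst : ∀ a ∈ I, per φ (c a) = per φ (c a₀) ∧ act X φ (c a) = act X φ (c a₀) := by
    intro a ha
    refine hI.induction₂ (fun x y => per φ (c y) = per φ (c x) ∧ act X φ (c y) = act X φ (c x))
      (fun x hx => ?_) (fun x y z _ _ _ h1 h2 => ⟨h2.1.trans h1.1, h2.2.trans h1.2⟩)
      (fun x y _ _ h1 => ⟨h1.1.symm, h1.2.symm⟩) ha₀ ha
    filter_upwards [nhdsWithin_le_nhds (hc.continuousAt.eventually (h.loc (hR x hx))),
      self_mem_nhdsWithin] with y hy hyI
    exact hy ((he y hyI).trans (he x hx).symm)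
  set T := per φ (c a₀) with hT
  have hT0 : 0 < T := h.per_pos (hR a₀ ha₀)
  refine ⟨T⁻¹ * (T * e - act X φ (c a₀) / 2), fun a ha => ?_⟩
  have c1 : IsClosed {a | φ T (c a) = c a} :=
    isClosed_eq ((h.flo.bf.continuous_space T).comp hc) hc
  have c2 : IsClosed {a | ∫ t in (0 : ℝ)..T, U (φ t (c a)) = T * e - act X φ (c a₀) / 2} := by
    refine isClosed_eq ?_ continuous_const
    refine intervalIntegral.continuous_parametric_intervalIntegral_of_continuous'
      (f := fun a t => U (φ t (c a))) ?_ _ _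
    exact h.cont_U continuous_snd (hc.comp continuous_fst) fun p => hW p.1
  have m1 : a ∈ {a | φ T (c a) = c a} := closure_minimal (fun y hy => by
    have := h.per_eq (hR y hy)
    rwa [(hconst y hy).1] at this) c1 ha
  have m2 : a ∈ {a | ∫ t in (0 : ℝ)..T, U (φ t (c a)) = T * e - act X φ (c a₀) / 2} :=
    closure_minimal (fun y hy => by
      have := h.act_eq (hR y hy)
      rw [(hconst y hy).1, (hconst y hy).2, he y hy] at this
      simp only [mem_ofPred_eq]
      linarith) c2 ha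
  have := h.good_of_period (hW a) hT0 m1
  rwa [show ∫ t in (0 : ℝ)..T, U (φ t (c a)) = _ from m2] at this

end Setup

end Pool.Agent.P.MP_75a63e_an
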