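import Pool.Agent.P.MP_75a63e_an.Flow

/-! The standard symplectic space `ℝ³ × ℝ³`, Hamiltonian vector fields, Poisson brackets. -/

open Set Filter Topology Metric
open scoped NNReal RealInnerProductSpace ContDiff

namespace Pool.Agent.P.MP_75a63e_an

abbrev V := EuclideanSpace ℝ (Fin 3)
abbrev Ph := V × V

/-- standard basis vectors -/
noncomputable def e (i : Fin 3) : V := EuclideanSpace.single i 1

/-- the symplectic form -/
noncomputable def om (v w : Ph) : ℝ := ⟪v.1, w.2⟫ - ⟪v.2, w.1⟫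

/-- covector to vector -/
noncomputable def J : (Ph →L[ℝ] ℝ) →L[ℝ] Ph :=
  ∑ i : Fin 3, ((ContinuousLinearMap.apply ℝ ℝ ((0, e i) : Ph)).smulRight ((e i, 0) : Ph) -
    (ContinuousLinearMap.apply ℝ ℝ ((e i, 0) : Ph)).smulRight ((0, e i) : Ph))

lemma J_apply (α : Ph →L[ℝ] ℝ) :
    J α = ∑ i : Fin 3, (α (0, e i) • ((e i, 0) : Ph) - α (e i, 0) • ((0, e i) : Ph)) := by
  simp [J]

lemma sum_e (v : V) : ∑ i, v i • e i = v := by
  ext j
  simp [e, Finset.sum_apply, Pi.single_apply]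

lemma inner_e (i : Fin 3) (v : V) : ⟪e i, v⟫ = v i := by simp [e, EuclideanSpace.inner_single_left]

lemma om_add_left (u v w : Ph) : om (u + v) w = om u w + om v w := by
  simp only [om, Prod.fst_add, Prod.snd_add, inner_add_left]; ring
lemma om_add_right (u v w : Ph) : om u (v + w) = om u v + om u w := by
  simp only [om, Prod.fst_add, Prod.snd_add, inner_add_right]; ring
lemma om_sub_left (u v w : Ph) : om (u - v) w = om u w - om v w := by
  simp only [om, Prod.fst_sub, Prod.snd_sub, inner_sub_left]; ring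
lemma om_sub_right (u v w : Ph) : om u (v - w) = om u v - om u w := by
  simp only [om, Prod.fst_sub, Prod.snd_sub, inner_sub_right]; ring
lemma om_smul_left (c : ℝ) (v w : Ph) : om (c • v) w = c * om v w := by
  simp only [om, Prod.smul_fst, Prod.smul_snd, real_inner_smul_left]; ring
lemma om_smul_right (c : ℝ) (v w : Ph) : om v (c • w) = c * om v w := by
  simp only [om, Prod.smul_fst, Prod.smul_snd, real_inner_smul_right]; ring
lemma om_anti (v w : Ph) : om v w = -om w v := by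
  simp only [om, real_inner_comm v.1, real_inner_comm v.2]; ring
lemma om_self (v : Ph) : om v v = 0 := by have := om_anti v v; linarith
@[simp] lemma om_zero_left (v : Ph) : om 0 v = 0 := by simp [om]
@[simp] lemma om_zero_right (v : Ph) : om v 0 = 0 := by simp [om]

lemma eq_zero_of_om {v : Ph} (h : ∀ w, om v w = 0) : v = 0 := by
  have h1 := h (0, v.1)
  have h2 := h (v.2, 0)
  simp only [om, inner_zero_right, sub_zero, zero_sub, neg_eq_zero, inner_self_eq_zero] at h1 h2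
  exact Prod.ext h1 h2

lemma eq_of_om {v v' : Ph} (h : ∀ w, om v w = om v' w) : v = v' :=
  sub_eq_zero.1 (eq_zero_of_om fun w => by rw [om_sub_left, h, sub_self])

lemma om_J (α : Ph →L[ℝ] ℝ) (w : Ph) : om (J α) w = α w := by
  have hw : w = ∑ i, (w.2 i • ((0, e i) : Ph) + w.1 i • ((e i, 0) : Ph)) := by
    ext1
    · simp [Prod.fst_sum, sum_e]
    · simp [Prod.snd_sum, sum_e]
  conv_rhs => rw [hw]
  rw [J_apply, Fin.sum_univ_three, Fin.sum_univ_three]
  simp only [om_add_left, om_sub_left, om_smul_left, map_add, map_smul, smul_eq_mul]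
  simp only [om, inner_e, inner_zero_left]
  ring

/-- the symplectic form as a continuous linear functional of its second argument -/
noncomputable def omL (v : Ph) : Ph →L[ℝ] ℝ :=
  (innerSL ℝ v.1).comp (ContinuousLinearMap.snd ℝ V V) -
    (innerSL ℝ v.2).comp (ContinuousLinearMap.fst ℝ V V)

@[simp] lemma omL_apply (v w : Ph) : omL v w = om v w := by simp [omL, om]

/-- Hamiltonian vector field -/
noncomputable def Xf (f : Ph → ℝ) (z : Ph) : Ph := J (fderiv ℝ f z)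

/-- Poisson bracket -/
noncomputable def pb (f g : Ph → ℝ) (z : Ph) : ℝ := fderiv ℝ f z (Xf g z)

lemma om_Xf (f : Ph → ℝ) (z w : Ph) : om (Xf f z) w = fderiv ℝ f z w := om_J _ _

lemma pb_eq_om (f g : Ph → ℝ) (z : Ph) : pb f g z = om (Xf f z) (Xf g z) := (om_Xf _ _ _).symm

lemma pb_anti (f g : Ph → ℝ) (z : Ph) : pb f g z = -pb g f z := by
  rw [pb_eq_om, pb_eq_om, om_anti]

lemma pb_self (f : Ph → ℝ) (z : Ph) : pb f f z = 0 := by rw [pb_eq_om, om_self]

/-- the punctured phase space -/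
def W : Set Ph := {z | z.1 ≠ 0}

lemma isOpen_W : IsOpen W := isOpen_ne_fun continuous_fst continuous_const

lemma W_mem_nhds {z : Ph} (hz : z ∈ W) : W ∈ 𝓝 z := isOpen_W.mem_nhds hz

/-- smooth on the punctured phase space -/
abbrev Sm (f : Ph → ℝ) : Prop := ContDiffOn ℝ ∞ f W

lemma Sm.at {f : Ph → ℝ} (hf : Sm f) {z : Ph} (hz : z ∈ W) : ContDiffAt ℝ ∞ f z :=
  hf.contDiffAt (W_mem_nhds hz)

lemma Sm.diffAt {f : Ph → ℝ} (hf : Sm f) {z : Ph} (hz : z ∈ W) : DifferentiableAt ℝ f z :=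
  (hf.at hz).differentiableAt (by simp)

lemma Sm.contAt {f : Ph → ℝ} (hf : Sm f) {z : Ph} (hz : z ∈ W) : ContinuousAt f z :=
  (hf.at hz).continuousAt

lemma Sm.fderiv {f : Ph → ℝ} (hf : Sm f) : ContDiffOn ℝ ∞ (fderiv ℝ f) W :=
  hf.fderiv_of_isOpen isOpen_W (by simp)

lemma Sm.Xf {f : Ph → ℝ} (hf : Sm f) : ContDiffOn ℝ ∞ (Xf f) W :=
  J.contDiff.comp_contDiffOn hf.fderiv

lemma Sm.pb {f g : Ph → ℝ} (hf : Sm f) (hg : Sm g) : Sm (pb f g) :=
  hf.fderiv.clm_apply hg.Xf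

lemma fderiv_congr_W {f g : Ph → ℝ} (h : ∀ z ∈ W, f z = g z) {z : Ph} (hz : z ∈ W) :
    fderiv ℝ f z = fderiv ℝ g z :=
  Filter.EventuallyEq.fderiv_eq (by filter_upwards [W_mem_nhds hz] with w hw using h w hw)

lemma pb_congr_left {f f' : Ph → ℝ} (g : Ph → ℝ) (h : ∀ z ∈ W, f z = f' z) {z : Ph} (hz : z ∈ W) :
    pb f g z = pb f' g z := by
  rw [pb, pb, fderiv_congr_W h hz]

lemma fderiv_pb {f g : Ph → ℝ} (hf : Sm f) (hg : Sm g) {z : Ph} (hz : z ∈ W) (v : Ph) :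
    fderiv ℝ (pb f g) z v =
      fderiv ℝ (fderiv ℝ f) z v (Xf g z) - fderiv ℝ (fderiv ℝ g) z v (Xf f z) := by
  have h1 : HasFDerivAt (fderiv ℝ f) (fderiv ℝ (fderiv ℝ f) z) z :=
    ((hf.fderiv.contDiffAt (W_mem_nhds hz)).differentiableAt (by simp)).hasFDerivAt
  have h2 : HasFDerivAt (fderiv ℝ g) (fderiv ℝ (fderiv ℝ g) z) z :=
    ((hg.fderiv.contDiffAt (W_mem_nhds hz)).differentiableAt (by simp)).hasFDerivAt
  have h3 : HasFDerivAt (Xf g) (J.comp (fderiv ℝ (fderiv ℝ g) z)) z := J.hasFDerivAt.comp z h2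
  have h4 := (h1.clm_apply h3).fderiv
  have : pb f g = fun y => fderiv ℝ f y (Xf g y) := rfl
  rw [this, h4]
  simp only [add_apply, ContinuousLinearMap.comp_apply,
    ContinuousLinearMap.flip_apply]
  rw [← om_Xf f, om_anti, om_J]
  ring

lemma Sm.symm {f : Ph → ℝ} (hf : Sm f) {z : Ph} (hz : z ∈ W) (v w : Ph) :
    _root_.fderiv ℝ (_root_.fderiv ℝ f) z v w = _root_.fderiv ℝ (_root_.fderiv ℝ f) z w v :=
  (hf.at hz).isSymmSndFDerivAt (by
    simp only [minSmoothness_of_isRCLikeNormedField]; exact WithTop.coe_le_coe.2 le_top) v w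

/-- Poisson's theorem -/
lemma pb_pb_eq_zero {f g H : Ph → ℝ} (hf : Sm f) (hg : Sm g) (hH : Sm H)
    (h1 : ∀ z ∈ W, pb f H z = 0) (h2 : ∀ z ∈ W, pb g H z = 0) :
    ∀ z ∈ W, pb (pb f g) H z = 0 := by
  intro z hz
  have e1 : fderiv ℝ (pb f H) z = 0 := by
    rw [fderiv_congr_W h1 hz]; simp
  have e2 : fderiv ℝ (pb g H) z = 0 := by
    rw [fderiv_congr_W h2 hz]; simp
  have a1 := fderiv_pb hf hH hz (Xf g z)
  have a2 := fderiv_pb hg hH hz (Xf f z)
  rw [e1] at a1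
  rw [e2] at a2
  simp only [zero_apply] at a1 a2
  rw [pb, fderiv_pb hf hg hz, hf.symm hz, hg.symm hz (Xf H z)]
  have := hH.symm hz (Xf g z) (Xf f z)
  linarith

/-- the linear symplectic symmetries `(q, P) ↦ (l q, P / l + t q)` -/
noncomputable def S (l t : ℝ) : Ph →L[ℝ] Ph :=
  (l • ContinuousLinearMap.fst ℝ V V).prod
    (l⁻¹ • ContinuousLinearMap.snd ℝ V V + t • ContinuousLinearMap.fst ℝ V V)

lemma S_apply (l t : ℝ) (z : Ph) : S l t z = (l • z.1, l⁻¹ • z.2 + t • z.1) := by simp [S]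

lemma om_S {l : ℝ} (hl : l ≠ 0) (t : ℝ) (v w : Ph) : om (S l t v) (S l t w) = om v w := by
  simp only [om, S_apply, inner_add_left, inner_add_right, real_inner_smul_left,
    real_inner_smul_right]
  field_simp
  ring

lemma S_surj {l : ℝ} (hl : l ≠ 0) (t : ℝ) (w : Ph) : S l t (S l⁻¹ (-t) w) = w := by
  simp only [S_apply, inv_inv, smul_add, smul_smul]
  ext1
  · simp [hl]
  · simp only [inv_mul_cancel₀ hl, one_smul]
    rw [add_assoc, ← add_smul]
    have : l⁻¹ * -t + t * l⁻¹ = 0 := by ring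
    rw [this]; simp

lemma S_mem_W {l : ℝ} (hl : l ≠ 0) (t : ℝ) {z : Ph} (hz : z ∈ W) : S l t z ∈ W := by
  simp only [W, mem_ofPred_eq, S_apply]
  exact smul_ne_zero hl hz

/-- invariance under the symmetries -/
def Inv (f : Ph → ℝ) : Prop := ∀ l > 0, ∀ t, ∀ z ∈ W, f (S l t z) = f z

lemma Inv.fderiv {f : Ph → ℝ} (hf : Inv f) (hs : Sm f) {l : ℝ} (hl : 0 < l) (t : ℝ) {z : Ph}
    (hz : z ∈ W) (v : Ph) : fderiv ℝ f (S l t z) (S l t v) = fderiv ℝ f z v := by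
  have h1 := ((hs.diffAt (S_mem_W hl.ne' t hz)).hasFDerivAt.comp z (S l t).hasFDerivAt).fderiv
  rw [fderiv_congr_W (f := f ∘ S l t) (g := f) (fun w hw => hf l hl t w hw) hz] at h1
  rw [h1]; rfl

lemma Inv.Xf {f : Ph → ℝ} (hf : Inv f) (hs : Sm f) {l : ℝ} (hl : 0 < l) (t : ℝ) {z : Ph}
    (hz : z ∈ W) : Xf f (S l t z) = S l t (Xf f z) := by
  refine eq_of_om fun w => ?_
  rw [← S_surj hl.ne' t w, om_S hl.ne', om_Xf, om_Xf, hf.fderiv hs hl t hz]

lemma Inv.pb {f g : Ph → ℝ} (hf : Inv f) (hg : Inv g) (hfs : Sm f) (hgs : Sm g) :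
    Inv (pb f g) := by
  intro l hl t z hz
  rw [pb_eq_om, pb_eq_om, hf.Xf hfs hl t hz, hg.Xf hgs hl t hz, om_S hl.ne']

lemma Inv.fderiv_rad {f : Ph → ℝ} (hf : Inv f) (hs : Sm f) {z : Ph} (hz : z ∈ W) :
    _root_.fderiv ℝ f z (0, z.1) = 0 := by
  have h1 : HasDerivAt (fun t : ℝ => z + t • ((0, z.1) : Ph)) (0, z.1) 0 := by
    simpa using ((hasDerivAt_id (0 : ℝ)).smul_const ((0, z.1) : Ph)).const_add z
  have h2 : HasFDerivAt f (_root_.fderiv ℝ f z) (z + (0 : ℝ) • ((0, z.1) : Ph)) := by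
    simpa using (hs.diffAt hz).hasFDerivAt
  have h3 := h2.comp_hasDerivAt (0 : ℝ) h1
  have h4 : (f ∘ fun t : ℝ => z + t • ((0, z.1) : Ph)) = fun _ => f z := by
    ext t
    rw [← hf 1 one_pos t z hz, S_apply]
    simp only [Function.comp_apply]
    congr 1
    ext1 <;> simp
  rw [h4] at h3
  exact h3.unique (hasDerivAt_const _ _)

lemma Inv.fderiv_dil {f : Ph → ℝ} (hf : Inv f) (hs : Sm f) {z : Ph} (hz : z ∈ W) :
    _root_.fderiv ℝ f z (z.1, -z.2) = 0 := by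
  have h1 : HasDerivAt (fun l : ℝ => ((l • z.1, l⁻¹ • z.2) : Ph)) (z.1, -z.2) 1 := by
    have a := (hasDerivAt_id (1 : ℝ)).smul_const z.1
    have b := (hasDerivAt_inv (x := (1 : ℝ)) one_ne_zero).smul_const z.2
    simpa using a.prodMk b
  have h2 : HasFDerivAt f (_root_.fderiv ℝ f z) (((1 : ℝ) • z.1, (1 : ℝ)⁻¹ • z.2) : Ph) := by
    simpa using (hs.diffAt hz).hasFDerivAt
  have h3 := h2.comp_hasDerivAt (1 : ℝ) h1
  have h4 : (f ∘ fun l : ℝ => ((l • z.1, l⁻¹ • z.2) : Ph)) =ᶠ[𝓝 1] fun _ => f z := by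
    filter_upwards [lt_mem_nhds (zero_lt_one' ℝ)] with l hl
    rw [← hf l hl 0 z hz, S_apply]
    simp
  exact (h3.congr_of_eventuallyEq h4.symm).unique (hasDerivAt_const _ _)

lemma Inv.inner_Xf_fst {f : Ph → ℝ} (hf : Inv f) (hs : Sm f) {z : Ph} (hz : z ∈ W) :
    ⟪z.1, (_root_.Pool.Agent.P.MP_75a63e_an.Xf f z).1⟫ = 0 := by
  have := hf.fderiv_rad hs hz
  rw [← om_Xf] at this
  simpa [om, real_inner_comm] using this

lemma Inv.inner_Xf_dil {f : Ph → ℝ} (hf : Inv f) (hs : Sm f) {z : Ph} (hz : z ∈ W) :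
    ⟪z.1, (_root_.Pool.Agent.P.MP_75a63e_an.Xf f z).2⟫ +
      ⟪(_root_.Pool.Agent.P.MP_75a63e_an.Xf f z).1, z.2⟫ = 0 := by
  have := hf.fderiv_dil hs hz
  rw [← om_Xf] at this
  simp only [om, inner_neg_right] at this
  rw [real_inner_comm]
  linarith

lemma Inv.add_rad {f : Ph → ℝ} (hf : Inv f) {q : V} (hq : q ≠ 0) (P : V) (t : ℝ) :
    f (q, P + t • q) = f (q, P) := by
  have := hf 1 one_pos t (q, P) hq
  simpa [S_apply] using this

lemma Inv.normalize {f : Ph → ℝ} (hf : Inv f) {z : Ph} (hz : z ∈ W) :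
    f (‖z.1‖⁻¹ • z.1, ‖z.1‖ • z.2) = f z := by
  have h0 : 0 < ‖z.1‖ := norm_pos_iff.2 hz
  have := hf ‖z.1‖⁻¹ (by positivity) 0 z hz
  simpa [S_apply] using this

end Pool.Agent.P.MP_75a63e_an
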