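import Pool.Agent.P.MP_75a63e_an.Level

/-! A volume estimate: above the maximum of the potential some closed orbits have a time average
of the potential that stays away from the maximum. -/

open Set Filter Topology Metric MeasureTheory
open scoped NNReal ENNReal RealInnerProductSpace ContDiff

namespace Pool.Agent.P.MP_75a63e_an

lemma avg_bound {α : Type*} [MeasurableSpace α] {μ : Measure α} [IsFiniteMeasure μ]
    {φ : ℝ → α → α} (hφ : Measurable fun p : ℝ × α => φ p.1 p.2)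
    (hmp : ∀ t, MeasurePreserving (φ t) μ μ) {f : α → ℝ} (hf : Measurable f) {C : ℝ}
    (hC : ∀ z, ‖f z‖ ≤ C) {δ : ℝ} (hδ : 0 ≤ δ)
    (h : ∀ᵐ z ∂μ, ∃ a ≤ δ, HasAvg (fun t => f (φ t z)) a) : ∫ z, f z ∂μ ≤ δ * μ.real univ := by
  classical
  set A : ℕ → α → ℝ := fun n z => ((n : ℝ) + 1)⁻¹ * ∫ t in (0 : ℝ)..(n + 1), f (φ t z) with hA
  have hn : ∀ n : ℕ, (0 : ℝ) < n + 1 := fun n => by positivity
  have hint : ∀ n : ℕ, Integrable (Function.uncurry fun t z => f (φ t z))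
      ((volume.restrict (uIoc (0 : ℝ) (n + 1))).prod μ) := fun n => by
    have : IsFiniteMeasure (volume.restrict (uIoc (0 : ℝ) (n + 1))) := by
      rw [uIoc_of_le (hn n).le]; infer_instance
    exact Integrable.of_bound (hf.comp hφ).aestronglyMeasurable C (ae_of_all _ fun p => hC _)
  have h1 : ∀ n, ∫ z, A n z ∂μ = ∫ z, f z ∂μ := fun n => by
    simp only [hA]
    rw [integral_const_mul, ← intervalIntegral_integral_swap (hint n)]
    have : ∀ t, ∫ z, f (φ t z) ∂μ = ∫ z, f z ∂μ := fun t => by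
      conv_rhs => rw [← (hmp t).map_eq]
      rw [integral_map (hmp t).measurable.aemeasurable hf.aestronglyMeasurable]
    simp only [this, intervalIntegral.integral_const, sub_zero, smul_eq_mul]
    field_simp
  have h2 : ∀ n, AEStronglyMeasurable (A n) μ := fun n => by
    simp only [hA, intervalIntegral.integral_of_le (hn n).le]
    have := (hint n).swap.aestronglyMeasurable.integral_prod_right'
    rw [uIoc_of_le (hn n).le] at this
    exact this.const_mul _
  have h3 : ∀ n z, ‖A n z‖ ≤ C := fun n z => by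
    simp only [hA]
    rw [norm_mul, Real.norm_of_nonneg (inv_nonneg.2 (hn n).le), inv_mul_le_iff₀ (hn n), mul_comm]
    refine (intervalIntegral.norm_integral_le_of_norm_le_const fun t _ => hC _).trans ?_
    rw [sub_zero, abs_of_pos (hn n)]
  set g : α → ℝ := fun z =>
    if hz : ∃ a ≤ δ, HasAvg (fun t => f (φ t z)) a then hz.choose else δ with hg
  have h4 : ∀ z, g z ≤ δ := fun z => by
    simp only [hg]
    split_ifs with hz
    · exact hz.choose_spec.1
    · exact le_rfl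
  have h5 : ∀ᵐ z ∂μ, Tendsto (fun n => A n z) atTop (𝓝 (g z)) := h.mono fun z hz => by
    simp only [hg, dif_pos hz]
    exact hz.choose_spec.2.comp
      (tendsto_atTop_add_const_right _ 1 tendsto_natCast_atTop_atTop)
  have h6 := tendsto_integral_of_dominated_convergence (fun _ => C) h2 (integrable_const C)
    (fun n => ae_of_all _ (h3 n)) h5
  simp only [h1] at h6
  rw [tendsto_nhds_unique tendsto_const_nhds h6]
  by_cases hi : Integrable g μ
  · refine (integral_mono hi (integrable_const δ) h4).trans (le_of_eq ?_)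
    simp [mul_comm]
  · rw [integral_undef hi]; positivity

lemma null_zero {f : V → ℝ} (hf : Continuous f)
    (hp : ∀ u v, ∃ p : Polynomial ℝ, ∀ t : ℝ, f (u + t • v) = p.eval t) {P₁ : V} (h1 : f P₁ ≠ 0) :
    volume {P | f P = 0} = 0 := by
  have hm : MeasurableSet {x : V × ℝ | f (P₁ + x.2 • x.1) ≠ 0} :=
    (isOpen_ne_fun (by fun_prop) continuous_const).measurableSet
  have h2 : ∀ᵐ v : V, ∀ᵐ t : ℝ, f (P₁ + t • v) ≠ 0 := ae_of_all _ fun v => by
    obtain ⟨p, hp⟩ := hp P₁ v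
    have hp0 : p ≠ 0 := by
      rintro rfl
      simpa [h1] using hp 0
    have := (p.rootSet_finite ℝ).measure_zero volume
    rw [ae_iff]
    refine measure_mono_null (fun t ht => ?_) this
    simp only [mem_ofPred_eq, not_not, hp] at ht
    simpa [Polynomial.mem_rootSet, hp0] using ht
  rw [Measure.ae_ae_comm (p := fun (v : V) (t : ℝ) => f (P₁ + t • v) ≠ 0) hm] at h2
  obtain ⟨t, ht, ht0⟩ := (h2.and (Measure.ae_ne volume 0)).exists
  rw [ae_iff] at ht
  have e : {v : V | ¬f (P₁ + t • v) ≠ 0} = (t • ·) ⁻¹' ((P₁ + ·) ⁻¹' {P | f P = 0}) := by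
    ext v; simp
  rw [e, Measure.addHaar_preimage_smul _ ht0, measure_preimage_add] at ht
  refine (mul_eq_zero.1 ht).resolve_left ?_
  rw [ENNReal.ofReal_eq_zero, not_le]
  positivity

/-- sublevel sets of the kinetic energy in a fibre -/
def fib (K : Ph → ℝ) (q : V) (a : ℝ) : Set V := {P | ⟪q, P⟫ ^ 2 < 1 ∧ K (q, P) < a}

lemma isOpen_fib {K : Ph → ℝ} (hK : Kin K) {q : V} (hq : q ≠ 0) (a : ℝ) : IsOpen (fib K q a) :=
  (isOpen_lt (f := fun P : V => ⟪q, P⟫ ^ 2) (by fun_prop) continuous_const).inter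
    (isOpen_lt (hK.ph.sm.fibre hq).continuous continuous_const)

lemma vol_fib {K : Ph → ℝ} (hK : Kin K) {q : V} (hq : q ≠ 0) {a : ℝ} (ha : 0 < a) :
    volume (fib K q a) = ENNReal.ofReal a * volume (fib K q 1) := by
  obtain ⟨b, hb⟩ := exists_frame (normalize_mem hq)
  have hn : ‖q‖ ≠ 0 := norm_ne_zero_iff.2 hq
  have hqb : q = ‖q‖ • b 0 := by rw [hb, smul_smul, mul_inv_cancel₀ hn, one_smul]
  set s : ℝ := (√a)⁻¹ with hs
  have hs2 : s ^ 2 = a⁻¹ := by rw [hs, inv_pow, Real.sq_sqrt ha.le]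
  set T : V →ₗ[ℝ] V := Matrix.toLin b.toBasis b.toBasis (Matrix.diagonal ![1, s, s]) with hT
  have hdet : LinearMap.det T = a⁻¹ := by
    rw [hT, LinearMap.det_toLin, Matrix.det_diagonal, Fin.prod_univ_three, ← hs2]
    simp [sq]
  have hTP : ∀ P, T P = s • P + ((1 - s) * ⟪b 0, P⟫ * ‖q‖⁻¹) • q := fun P => by
    rw [hT, Matrix.toLin_apply, Fin.sum_univ_three]
    simp only [Matrix.mulVec_diagonal, OrthonormalBasis.coe_toBasis_repr_apply,
      OrthonormalBasis.repr_apply_apply, OrthonormalBasis.coe_toBasis]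
    rw [mul_smul _ (‖q‖⁻¹), ← hb]
    conv_rhs => rw [frame_expand b P]
    simp only [Matrix.cons_val_zero, Matrix.cons_val_one, Matrix.cons_val, inner_add_right,
      real_inner_smul_right, b.inner_eq_ite]
    simp only [Fin.isValue, ↓reduceIte, Fin.reduceEq, mul_one, mul_zero, add_zero]
    module
  have e : fib K q a = T ⁻¹' fib K q 1 := by
    ext P
    have e1 : ⟪q, T P⟫ = ⟪q, P⟫ := by
      have : ⟪q, P⟫ = ‖q‖ * ⟪b 0, P⟫ := by
        conv_lhs => rw [hqb]
        rw [real_inner_smul_left]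
      rw [hTP, inner_add_right, real_inner_smul_right, real_inner_smul_right,
        real_inner_self_eq_norm_sq, this]
      field_simp
      ring
    simp only [fib, mem_preimage, mem_ofPred_eq, e1]
    rw [hTP, hK.inv.add_rad hq, hK.smul hq, hs2, inv_mul_lt_iff₀ ha, mul_one]
  rw [e, Measure.addHaar_preimage_linearMap _ (by rw [hdet]; positivity), hdet, inv_inv,
    abs_of_pos ha]

lemma vol_fib_bounds {K : Ph → ℝ} (hK : Kin K) : ∃ a₀ a₁ : ℝ≥0∞, 0 < a₀ ∧ a₁ < ⊤ ∧
    ∀ q ∈ Shell, a₀ ≤ volume (fib K q 1) ∧ volume (fib K q 1) ≤ a₁ := by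
  obtain ⟨c, hc, C, hC, h⟩ := hK.bounds
  refine ⟨volume (ball (0 : V) (√C)⁻¹), volume (closedBall (0 : V) (√(2 / c))),
    measure_ball_pos _ _ (by positivity), measure_closedBall_lt_top, fun q hq => ⟨?_, ?_⟩⟩
  · refine measure_mono fun P hP => ?_
    rw [mem_ball_zero_iff] at hP
    have h1 : ‖P‖ ^ 2 < C⁻¹ := by
      rw [← Real.sq_sqrt hC.le, ← inv_pow]
      gcongr
    have h2 := (h q hq P).2
    have h3 := hK.nonneg (z := (q, P)) (ne_zero_of_mem_Shell hq)
    rw [← mul_one C⁻¹, lt_inv_mul_iff₀ hC] at h1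
    exact ⟨by linarith, by nlinarith [sq_nonneg ⟪q, P⟫]⟩
  · refine measure_mono fun P hP => ?_
    rw [mem_closedBall_zero_iff]
    apply Real.le_sqrt_of_sq_le
    rw [le_div_iff₀ hc]
    linarith [(h q hq P).1, hP.1, hP.2]

lemma vol_fib_sdiff {K : Ph → ℝ} (hK : Kin K) {q : V} (hq : q ≠ 0) {a b : ℝ} (ha : 0 < a)
    (hab : a < b) (hfin : volume (fib K q 1) ≠ ⊤) :
    volume (fib K q b \ fib K q a) = ENNReal.ofReal (b - a) * volume (fib K q 1) := by
  rw [measure_sdiff (show fib K q a ⊆ fib K q b from fun P hP => ⟨hP.1, hP.2.trans hab⟩)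
    (isOpen_fib hK hq a).measurableSet.nullMeasurableSet
    (by rw [vol_fib hK hq ha]; finiteness), vol_fib hK hq ha, vol_fib hK hq (ha.trans hab),
    ← ENNReal.sub_mul fun _ _ => hfin, ENNReal.ofReal_sub _ ha.le]

variable {K U F₁ F₂ : Ph → ℝ} {N : ℕ} {m : ℝ} {X : Ph → Ph} {φ : ℝ → Ph → Ph} {L M : ℝ≥0}

set_option maxHeartbeats 400000 in
theorem Setup.low_avg (h : Setup K U F₁ F₂ N m X φ L M) (hU : ∃ z ∈ W, U z < m)
    (hG : ∃ z ∈ W, pb F₁ F₂ z ≠ 0) : ∃ δ > 0, ∀ e₁ e₂, m < e₁ → e₁ < e₂ → e₂ < m + 1 →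
      ∃ z ∈ RR K U F₁ F₂ m, e₁ ≤ ham K U z ∧ ham K U z < e₂ ∧ ∃ κ ≤ m - δ, Good U φ z κ := by
  classical
  obtain ⟨z₀, hz₀, hU⟩ := hU
  rw [h.pot.normalize hz₀] at hU
  set x := ‖z₀.1‖⁻¹ • z₀.1 with hx
  have hx1 : ‖x‖ = 1 := normalize_mem hz₀
  have hxW : ((x, 0) : Ph) ∈ W := ne_zero_of_norm_one hx1
  set δ₁ := (m - U (x, 0)) / 2 with hδ₁
  have hδ₁0 : 0 < δ₁ := by linarith
  set Sh : Set V := {q | 1 / 3 < ‖q‖ ^ 2 ∧ ‖q‖ ^ 2 < 3} with hSh
  have hShO : IsOpen Sh :=
    (isOpen_lt continuous_const (g := fun q : V => ‖q‖ ^ 2) (by fun_prop)).inter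
      (isOpen_lt (f := fun q : V => ‖q‖ ^ 2) (by fun_prop) continuous_const)
  have hShS : Sh ⊆ Shell := fun q hq => ⟨by linarith [hq.1], by linarith [hq.2]⟩
  have hSh0 : ∀ q ∈ Sh, q ≠ 0 := fun q hq => ne_zero_of_mem_Shell (hShS hq)
  have hGs := h.integG.rp.sm
  obtain ⟨z₁, a1, a2, a3⟩ : ∃ z₁, pb F₁ F₂ z₁ ≠ 0 ∧ U z₁ < m - δ₁ ∧ z₁.1 ∈ Sh := by
    refine ((h.integG.frequently_ne h.kin h.pot hG hxW).and_eventually (Eventually.and
      ((h.pot.ph.sm.contAt hxW).eventually (gt_mem_nhds (by linarith))) ?_)).exists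
    exact continuous_fst.continuousAt.eventually (hShO.mem_nhds (by
      simp only [hSh, mem_ofPred_eq, hx1]; norm_num))
  obtain ⟨r, hr, hB⟩ : ∃ r > 0, ∀ q ∈ ball z₁.1 r,
      pb F₁ F₂ (q, z₁.2) ≠ 0 ∧ U (q, z₁.2) < m - δ₁ ∧ q ∈ Sh := by
    have hc : ContinuousAt (fun q : V => ((q, z₁.2) : Ph)) z₁.1 := by fun_prop
    have hW : z₁ ∈ W := hSh0 _ a3
    exact eventually_nhds_iff_ball.1 ((hc.eventually ((hGs.contAt hW).eventually_ne a1)).and
      ((hc.eventually ((h.pot.ph.sm.contAt hW).eventually (gt_mem_nhds a2))).and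
        (hShO.mem_nhds a3)))
  obtain ⟨a₀, a₁, ha₀, ha₁, ha⟩ := vol_fib_bounds h.kin
  have hfin : ∀ q ∈ Sh, volume (fib K q 1) ≠ ⊤ := fun q hq =>
    ((ha q (hShS hq)).2.trans_lt ha₁).ne
  have ha₀' : a₀ ≠ ⊤ := ((ha _ (hShS a3)).1.trans_lt (hfin _ a3).lt_top).ne
  have hShv : volume Sh ≠ ⊤ := ((measure_mono hShS).trans_lt isCompact_Shell.measure_lt_top).ne
  set A₀ := (a₀ * volume (ball z₁.1 r)).toReal with hA₀
  set A₁ := (a₁ * volume Sh).toReal with hA₁
  have hA₀0 : 0 < A₀ := ENNReal.toReal_pos (mul_ne_zero ha₀.ne' (measure_ball_pos _ _ hr).ne')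
    (ENNReal.mul_ne_top ha₀' measure_ball_lt_top.ne)
  have hA₁0 : 0 ≤ A₁ := ENNReal.toReal_nonneg
  refine ⟨δ₁ * A₀ / (A₁ + 1), by positivity, fun e₁ e₂ he₁ he he₂ => ?_⟩
  set δ := δ₁ * A₀ / (A₁ + 1) with hδ
  by_contra hcon
  push Not at hcon
  set O : ℝ → Set Ph := fun e =>
    {z | z.1 ∈ Sh ∧ ⟪z.1, z.2⟫ ^ 2 < 1 ∧ ham K U z < e ∧ pb F₁ F₂ z ≠ 0} with hO
  have hOo : ∀ e, IsOpen (O e) := fun e => by
    rw [isOpen_iff_mem_nhds]
    intro z hz
    have hW : z ∈ W := hSh0 _ hz.1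
    have h2 : ContinuousAt (fun z : Ph => ⟪z.1, z.2⟫ ^ 2) z := by fun_prop
    filter_upwards [continuous_fst.continuousAt.eventually (hShO.mem_nhds hz.1),
      h2.eventually (gt_mem_nhds hz.2.1), (h.smH.contAt hW).eventually (gt_mem_nhds hz.2.2.1),
      (hGs.contAt hW).eventually_ne hz.2.2.2] with w a b c d using ⟨a, b, c, d⟩
  have hOi : ∀ e t, φ t ⁻¹' O e = O e := fun e t => by
    ext z
    by_cases hW : z ∈ W
    · simp only [hO, hSh, mem_preimage, mem_ofPred_eq, h.flo.normsq, h.flo.dil hW,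
        h.flo.energy hW, h.flo.cons hGs h.integG.int hW]
    · refine iff_of_false (fun hz => hW ?_) fun hz => hW (hSh0 _ hz.1)
      rw [← h.flo.bf.neg_apply t z]
      exact h.flo.mem_W (hSh0 _ hz.1) _
  set S := O e₂ \ O e₁ with hS
  have hSm : MeasurableSet S := (hOo _).measurableSet.diff (hOo _).measurableSet
  have hSi : ∀ t, φ t ⁻¹' S = S := fun t => by rw [hS, preimage_sdiff, hOi, hOi]
  have hSe : ∀ z ∈ S, e₁ ≤ ham K U z := fun z hz =>
    not_lt.1 fun hlt => hz.2 ⟨hz.1.1, hz.1.2.1, hlt, hz.1.2.2.2⟩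
  have hSR : ∀ z ∈ S, z ∈ RR K U F₁ F₂ m := fun z hz =>
    ⟨⟨hz.1.1.1, hz.1.1.2, by linarith [hz.1.2.1, hz.1.2.2.1]⟩, he₁.trans_le (hSe z hz),
      hz.1.2.2.2⟩
  have hslice : ∀ q ∈ Sh, Prod.mk q ⁻¹' S =
      (fib K q (e₂ - U (q, 0)) \ fib K q (e₁ - U (q, 0))) \ {P | pb F₁ F₂ (q, P) = 0} := by
    intro q hq
    ext P
    simp only [hS, hO, fib, mem_preimage, Set.mem_sdiff, mem_ofPred_eq, hq, true_and, ham,
      h.pot.eq (hSh0 q hq) P 0, lt_sub_iff_add_lt]
    exact ⟨fun a => ⟨⟨⟨a.1.1, a.1.2.1⟩, fun b => a.2 ⟨b.1, b.2, a.1.2.2⟩⟩, a.1.2.2⟩,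
      fun a => ⟨⟨a.1.1.1, a.1.1.2, a.2⟩, fun b => a.1.2 ⟨b.1, b.2.1⟩⟩⟩
  have hfs : ∀ q ∈ Sh, volume (fib K q (e₂ - U (q, 0)) \ fib K q (e₁ - U (q, 0))) =
      ENNReal.ofReal (e₂ - e₁) * volume (fib K q 1) := fun q hq => by
    rw [vol_fib_sdiff h.kin (hSh0 q hq) (by linarith [h.max (q, 0) (hSh0 q hq)]) (by linarith)
      (hfin q hq), sub_sub_sub_cancel_right]
  have up : volume S ≤ ENNReal.ofReal (e₂ - e₁) * (a₁ * volume Sh) := by
    rw [Measure.volume_eq_prod, Measure.prod_apply hSm, ← mul_assoc,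
      ← lintegral_indicator_const hShO.measurableSet]
    refine lintegral_mono fun q => ?_
    by_cases hq : q ∈ Sh
    · rw [indicator_of_mem hq, hslice q hq]
      refine (measure_mono sdiff_subset).trans ?_
      rw [hfs q hq]
      gcongr
      exact (ha q (hShS hq)).2
    · rw [show Prod.mk q ⁻¹' S = ∅ from eq_empty_of_forall_notMem fun P hP => hq hP.1.1]
      simp
  have lo : ENNReal.ofReal (e₂ - e₁) * (a₀ * volume (ball z₁.1 r)) ≤
      volume (S ∩ ball z₁.1 r ×ˢ univ) := by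
    rw [Measure.volume_eq_prod, Measure.prod_apply (hSm.inter (measurableSet_ball.prod .univ)),
      ← mul_assoc, ← lintegral_indicator_const measurableSet_ball]
    refine lintegral_mono fun q => ?_
    by_cases hq : q ∈ ball z₁.1 r
    · have hq' := (hB q hq).2.2
      rw [indicator_of_mem hq, preimage_inter, mk_preimage_prod_right hq, inter_univ,
        hslice q hq', measure_sdiff_null, hfs q hq']
      · gcongr
        exact (ha q (hShS hq')).1
      · exact null_zero (hGs.fibre (hSh0 q hq')).continuous (fun u v =>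
          (h.integG.rp.line (hSh0 q hq') u v).imp fun p hp => hp.2) (hB q hq).1
    · simp [hq]
  have hSv : volume S ≠ ⊤ := (up.trans_lt (by finiteness)).ne
  have up' : volume.real S ≤ (e₂ - e₁) * A₁ := by
    have := ENNReal.toReal_mono (by finiteness) up
    rwa [ENNReal.toReal_mul, ENNReal.toReal_ofReal (by linarith)] at this
  have hSv' : volume (S ∩ ball z₁.1 r ×ˢ univ) ≠ ⊤ :=
    ((measure_mono inter_subset_left).trans_lt hSv.lt_top).ne
  have lo' : (e₂ - e₁) * A₀ ≤ volume.real (S ∩ ball z₁.1 r ×ˢ univ) := by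
    have := ENNReal.toReal_mono hSv' lo
    rwa [ENNReal.toReal_mul, ENNReal.toReal_ofReal (by linarith)] at this
  obtain ⟨m₀, hm₀⟩ := h.pot.exists_min
  set f : Ph → ℝ := W.piecewise (fun z => m - U z) fun _ => 0 with hf
  have hfm : Measurable f :=
    (continuousOn_const.sub h.pot.ph.sm.continuousOn).measurable_piecewise continuousOn_const
      (isOpen_iff_mem_nhds.2 fun z hz => W_mem_nhds hz).measurableSet
  have hfW : ∀ z ∈ W, f z = m - U z := fun z hz => piecewise_eq_of_mem _ _ _ hz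
  have hf0 : ∀ z, 0 ≤ f z ∧ f z ≤ |m - m₀| := fun z => by
    by_cases hz : z ∈ W
    · rw [hfW z hz]
      exact ⟨by linarith [h.max z hz], le_trans (by linarith [hm₀ z hz]) (le_abs_self _)⟩
    · rw [hf, piecewise_eq_of_notMem _ _ _ hz]
      exact ⟨le_rfl, abs_nonneg _⟩
  have hfb : ∀ z, ‖f z‖ ≤ |m - m₀| := fun z => by
    rw [Real.norm_of_nonneg (hf0 z).1]; exact (hf0 z).2
  have : IsFiniteMeasure (volume.restrict S) := isFiniteMeasure_restrict.2 hSv
  have hfi : IntegrableOn f S :=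
    Integrable.of_bound hfm.aestronglyMeasurable _ (ae_of_all _ hfb)
  have k1 := avg_bound (μ := volume.restrict S) h.flo.bf.continuous.measurable (fun t => by
    have := (h.flo.mp t).restrict_preimage hSm
    rwa [hSi] at this) hfm hfb (δ := δ) (by positivity) (by
      refine (ae_restrict_iff' hSm).2 (ae_of_all _ fun z hz => ?_)
      have hR := hSR z hz
      have hW := Om_sub_W hR.1
      have hT := h.per_pos hR
      have hc := h.cont_U continuous_id' continuous_const fun _ : ℝ => hW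
      have b1 := hcon z hR (hSe z hz) hz.1.2.2.1
      simp only [hfW _ (h.flo.mem_W hW _)]
      refine ⟨_, ?_, hasAvg_of_periodic (continuous_const.sub hc)
        (fun t => by simp only [h.flo.bf.add, h.per_eq hR]) hT⟩
      rw [intervalIntegral.integral_sub (by simp) (hc.intervalIntegrable _ _),
        intervalIntegral.integral_const, sub_zero, smul_eq_mul, mul_sub, ← mul_assoc,
        inv_mul_cancel₀ hT.ne', one_mul]
      by_contra hlt
      exact b1 _ (by linarith) (h.good_of_period hW hT (h.per_eq hR)))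
  have k2 : δ₁ * volume.real (S ∩ ball z₁.1 r ×ˢ univ) ≤ ∫ z in S, f z := by
    refine (setIntegral_ge_of_const_le_real (hSm.inter (measurableSet_ball.prod .univ)) hSv'
      (fun z hz => ?_) (hfi.mono_set inter_subset_left)).trans
      (setIntegral_mono_set hfi (ae_of_all _ fun z => (hf0 z).1) inter_subset_left.eventuallyLE)
    have hW : z ∈ W := hSh0 _ hz.1.1.1
    change δ₁ ≤ f z
    rw [hfW z hW, show U z = U (z.1, z₁.2) from h.pot.eq hW _ _]
    linarith [(hB z.1 hz.2.1).2.1]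
  rw [measureReal_restrict_apply_univ] at k1
  have k3 : δ * A₁ < δ₁ * A₀ := by
    rw [hδ, div_mul_eq_mul_div, div_lt_iff₀ (by positivity)]
    nlinarith [mul_pos hδ₁0 hA₀0]
  have hδ0 : 0 < δ := by positivity
  nlinarith [mul_le_mul_of_nonneg_left up' hδ0.le, mul_le_mul_of_nonneg_left lo' hδ₁0.le,
    mul_lt_mul_of_pos_left k3 (sub_pos.2 he)]

end Pool.Agent.P.MP_75a63e_an
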